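import Pool.Agent.EGX.Targets
import Pool.Agent.EGT.P_BCG

set_option autoImplicit false
open MvPolynomial hiding R

/-!
# BCX: base change for one sequence
-/

namespace Pool.Agent.EGX

open Pool.Agent.EGU Pool.Agent.EGS Pool.Agent.EGT

universe u

open BC2_ BCG_ in
/-- The target `T_BCX`. -/
theorem p_BCX : T_BCX.{u} := by
  intro K E _ _ _ n a f hf
  refine ⟨t_bc1 K E n n f a hf, ?_⟩
  intro N hE d W hJW hWR hcard
  have hRK : ∀ e, Module.Finite K (Rd K n e) := fun e => (t_dimr K n e).1
  have hRL : ∀ e, Module.Finite E (Rd E n e) := fun e => (t_dimr E n e).1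
  have fW : Module.Finite K W := Submodule.finiteDimensional_of_le hWR
  have fJ : ∀ e, Module.Finite K (Jd f e) := fun e =>
    Submodule.finiteDimensional_of_le (inf_le_left : Jd f e ≤ Rd K n e)
  have hup := up_le f d W hWR
  have fU : Module.Finite K (up f d W) := Submodule.finiteDimensional_of_le hup
  have horth : ∀ (F : Type u) [Field F] (g : Fin n → R F n) (V : Submodule F (R F n)),
      orth g 2 V ≤ Rd F n 2 := fun F _ g V x hx => hx.1
  have fO : Module.Finite K (orth f 2 W) := Submodule.finiteDimensional_of_le (horth K f W)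
  set fE : Fin n → R E n := fun i => MvPolynomial.map (algebraMap K E) (f i) with hfE
  have fOE : Module.Finite E (orth fE 2 (ext E W)) :=
    Submodule.finiteDimensional_of_le (horth E fE (ext E W))
  have e1 : ∀ e, Module.finrank E (Jd fE e) = Module.finrank K (Jd f e) := by
    intro e
    rw [hfE, ← Jd_ext t_jd f a hf.hom e]
    exact finrank_ext (Jd f e)
  have e2 : Module.finrank E (ext E W) = Module.finrank K W := finrank_ext W
  have e3 : Module.finrank E (Rd E n 2) = Module.finrank K (Rd K n 2) := by
    rw [← Rd_ext (K := K)]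
    exact finrank_ext (Rd K n 2)
  have e4 : Module.finrank K (orth f 2 W) ≤ Module.finrank E (orth fE 2 (ext E W)) := by
    rw [← finrank_ext (E := E) (orth f 2 W)]
    exact Submodule.finrank_mono (orth_ext f 2 W)
  have e5 : Module.finrank E (up fE d (ext E W)) ≤ Module.finrank K (up f d W) := by
    rw [← finrank_ext (E := E) (up f d W)]
    have fL : Module.Finite E (ext E (up f d W)) := by
      have h2 : ext E (up f d W) ≤ Rd E n (d + 1) := by
        rw [← Rd_ext (K := K)]
        exact ext_mono hup
      exact Submodule.finiteDimensional_of_le h2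
    exact Submodule.finrank_mono (up_ext t_jd f a hf.hom d W)
  have h1 : GoodA a fE d (ext E W) := by
    refine hE d (ext E W) ?_ ?_ ?_
    · rw [hfE, ← Jd_ext t_jd f a hf.hom d]
      exact ext_mono hJW
    · rw [← Rd_ext (K := K)]
      exact ext_mono hWR
    · rw [e3]
      omega
  unfold GoodA at h1 ⊢
  rw [e1, e1, e2] at h1
  obtain ⟨M, hM, hc, hs⟩ := h1
  exact ⟨M, hM, hc, hs.trans (by omega)⟩

end Pool.Agent.EGX
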