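import Pool.Agent.EGX.Targets
import Pool.Agent.EGT.P_BIG
import Pool.Agent.EGS.P_DUA

set_option autoImplicit false
open MvPolynomial hiding R

/-!
The last degree equal to the sum of the previous numbers `a_i - 1`: `T_BGE`.
-/

namespace Pool.Agent.EGX

open Pool.Agent.EGU Pool.Agent.EGS Pool.Agent.EGT

universe u

namespace BGE_

/-- Dimension after adding one vector. -/
lemma sup1 {K : Type u} [Field K] {V : Type u} [AddCommGroup V] [Module K V]
    (A : Submodule K V) [FiniteDimensional K A] (F : V) (hF : F ∉ A) :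
    Module.finrank K ↥(A ⊔ Submodule.span K {F}) = Module.finrank K A + 1 := by
  have h0 : F ≠ 0 := fun h => hF (h ▸ A.zero_mem)
  have h1 := Submodule.finrank_sup_add_finrank_inf_eq A (Submodule.span K {F})
  have h2 : A ⊓ Submodule.span K {F} = ⊥ :=
    disjoint_iff.1 (Submodule.disjoint_span_singleton_of_notMem hF)
  rw [h2, finrank_bot, finrank_span_singleton h0] at h1
  omega

/-- The part of `J f` in the degree of the last form. -/
lemma jd_last {K : Type u} [Field K] {n m : ℕ} (f : Fin (m + 1) → R K n) (a : Fin (m + 1) → ℕ)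
    (hf : ∀ i, (f i).IsHomogeneous (a i)) :
    Jd f (a (Fin.last m)) =
      Jd (f ∘ Fin.castSucc) (a (Fin.last m)) ⊔ Submodule.span K {f (Fin.last m)} := by
  apply le_antisymm
  · intro p hp
    obtain ⟨y, hy, rfl⟩ := ((t_jd K n (m + 1) f a hf).1 _ p).1 hp
    rw [Fin.sum_univ_castSucc]
    refine Submodule.add_mem_sup ?_ ?_
    · exact ((t_jd K n m (f ∘ Fin.castSucc) (a ∘ Fin.castSucc) (fun i => hf _)).1 _ _).2
        ⟨fun i => y i.castSucc, fun i => hy _, rfl⟩
    · have h0 := hy (Fin.last m)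
      rw [Rm, if_pos le_rfl, Nat.sub_self] at h0
      rw [KILL_const h0, ← MvPolynomial.smul_eq_C_mul]
      exact Submodule.smul_mem _ _ (Submodule.mem_span_singleton_self _)
  · refine sup_le ?_ ?_
    · intro p hp
      refine ⟨hp.1, ?_⟩
      have h1 : p ∈ J (f ∘ Fin.castSucc) := hp.2
      exact Ideal.span_mono (Set.range_comp_subset_range _ _) h1
    · rw [Submodule.span_singleton_le_iff_mem]
      exact ⟨hf _, Ideal.subset_span ⟨_, rfl⟩⟩

/-- Standard monomials for larger exponents. -/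
lemma std_mono {n : ℕ} (a b : Fin n → ℕ) (h : ∀ i, a i ≤ b i) (e : ℕ) : Std a e ⊆ Std b e := by
  intro x hx
  unfold Std at hx ⊢
  rw [Finset.mem_filter] at hx ⊢
  exact ⟨hx.1, fun i => (hx.2 i).trans_le (h i)⟩

/-- In small degrees the last exponent does not matter. -/
lemma std_eq {n : ℕ} (a b : Fin (n + 1) → ℕ) (h : ∀ i : Fin n, a i.castSucc = b i.castSucc)
    (e : ℕ) (ha : e < a (Fin.last n)) (hb : e < b (Fin.last n)) : Std a e = Std b e := by
  have key : ∀ (a b : Fin (n + 1) → ℕ), (∀ i : Fin n, a i.castSucc = b i.castSucc) →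
      e < b (Fin.last n) → Std a e ⊆ Std b e := by
    intro a b h hb x hx
    unfold Std at hx ⊢
    rw [Finset.mem_filter, Finset.mem_finsuppAntidiag] at hx ⊢
    refine ⟨hx.1, fun i => ?_⟩
    refine Fin.lastCases ?_ (fun i => ?_) i
    · have h1 : x (Fin.last n) ≤ ∑ i, x i :=
        Finset.single_le_sum (f := fun i => x i) (fun _ _ => Nat.zero_le _) (Finset.mem_univ _)
      rw [hx.1.1] at h1
      exact h1.trans_lt hb
    · rw [← h i]
      exact hx.2 _
  exact Finset.Subset.antisymm (key a b h hb) (key b a (fun i => (h i).symm) ha)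

/-- The middle degree. -/
lemma mid (h_CMG : T_CMG.{u}) (h_OPR : T_OPR.{u}) (h_NQS : T_NQS) (K : Type u) [Field K]
    [IsAlgClosed K] (n : ℕ) (a : Fin (n + 1) → ℕ) (hm : Monotone a) (h2 : ∀ i, 2 ≤ a i)
    (hn : 2 ≤ n) (hS : a (Fin.last n) = S a n)
    (hE : EG K (a ∘ Fin.castSucc)) (f : Fin (n + 1) → R K (n + 1)) (hf : CI f a) (d : ℕ)
    (hd : d + 1 = a (Fin.last n)) (W : Submodule K (R K (n + 1))) (hW1 : Jd f d ≤ W)
    (hW2 : W ≤ Rd K (n + 1) d) : GoodA a f d W := by
  obtain ⟨hf', -, hlh, hreg⟩ := (t_cir K (n + 1) n f a).2.1 hf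
  have hm' : Monotone (a ∘ Fin.castSucc) := fun i j h => hm (Fin.castSucc_le_castSucc_iff.2 h)
  have hS' : S (a ∘ Fin.castSucc) n = S a n :=
    (t_num (n + 1) a).2.2.2.2.2.2.2.1 n (Nat.le_succ n) n le_rfl
  have hdS : d + 1 = S (a ∘ Fin.castSucc) n := by omega
  have e1 : Jd f d = Jd (f ∘ Fin.castSucc) d := EGT.BIG_.jd_eq f a hf.hom d (by omega)
  set F := f (Fin.last n) with hF
  have e2 : Jd f (d + 1) = Jd (f ∘ Fin.castSucc) (d + 1) ⊔ Submodule.span K {F} := by
    rw [hd]
    exact jd_last f a hf.hom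
  have hFd : F ∈ Rd K (n + 1) (d + 1) := by
    rw [hd]
    exact hlh
  have hreg' : ∀ p, F * p ∈ J (f ∘ Fin.castSucc) → p ∈ J (f ∘ Fin.castSucc) := fun p hp =>
    hreg p (by rw [mul_comm]; exact hp)
  have hFJ : F ∉ Jd (f ∘ Fin.castSucc) (d + 1) := by
    intro h
    have h1 : F ∈ J (f ∘ Fin.castSucc) := h.2
    exact HF1_.one_notMem t_jd _ _ hf' (hreg 1 (by rw [one_mul]; exact h1))
  have hW1' : Jd (f ∘ Fin.castSucc) d ≤ W := by rw [← e1]; exact hW1
  obtain ⟨hu1, hu2, -⟩ := t_upl K (n + 1) n (f ∘ Fin.castSucc) (a ∘ Fin.castSucc) hf'.hom d W hW2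
  have hfinR : Module.Finite K (Rd K (n + 1) (d + 1)) := (t_dimr K (n + 1) (d + 1)).1
  have hfinRd : Module.Finite K (Rd K (n + 1) d) := (t_dimr K (n + 1) d).1
  have hfinU : FiniteDimensional K (up (f ∘ Fin.castSucc) d W) :=
    Submodule.finiteDimensional_of_le hu2
  have hfinJ : FiniteDimensional K (Jd (f ∘ Fin.castSucc) (d + 1)) :=
    Submodule.finiteDimensional_of_le (hu1.trans hu2)
  have e3 : up f d W = up (f ∘ Fin.castSucc) d W ⊔ Submodule.span K {F} := by
    unfold up
    rw [e2, sup_assoc]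
  have hJ : Module.finrank K (Jd f (d + 1)) =
      Module.finrank K (Jd (f ∘ Fin.castSucc) (d + 1)) + 1 := by
    rw [e2]
    exact sup1 _ F hFJ
  have hJU : Module.finrank K (Jd (f ∘ Fin.castSucc) (d + 1)) ≤
      Module.finrank K (up (f ∘ Fin.castSucc) d W) := Submodule.finrank_mono hu1
  by_cases hFU : F ∈ up (f ∘ Fin.castSucc) d W
  · -- the last form is in the space
    have e4 : up f d W = up (f ∘ Fin.castSucc) d W := by
      rw [e3, sup_eq_left, Submodule.span_singleton_le_iff_mem]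
      exact hFU
    have hhf := a_hf K (n + 1) f a hf d
    have hWle : Module.finrank K W ≤ Module.finrank K (Rd K (n + 1) d) :=
      Submodule.finrank_mono hW2
    have hv : Module.finrank K W - Module.finrank K (Jd f d) ≤ (Std a d).card := by omega
    by_cases hbig : Module.finrank K W - Module.finrank K (Jd f d) + 1 ≤
        Module.finrank K (up f d W) - Module.finrank K (Jd f (d + 1))
    · obtain ⟨M, h1, h3, h4⟩ := h_NQS n a h2 d (by omega) hS _ hv
      exact ⟨M, h1, h3, h4.trans hbig⟩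
    · have hJW : Module.finrank K (Jd f d) ≤ Module.finrank K W := by
        have : FiniteDimensional K W := Submodule.finiteDimensional_of_le hW2
        exact Submodule.finrank_mono hW1
      have hop := h_OPR K n (f ∘ Fin.castSucc) (a ∘ Fin.castSucc) hf' hm' (fun i => h2 _) hn d hdS
        F hFd hreg' W hW1' hW2 hFU (by
          rw [← e1]
          rw [e4, hJ] at hbig
          omega)
      have hhf1 := a_hf K (n + 1) f a hf (d + 1)
      obtain ⟨M, h1, h3⟩ := (t_sega (n + 1) a d).2.2.2.1 _ hv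
      refine ⟨M, h1, h3, ?_⟩
      have h4 : (shadow a d M).card ≤ (Std a (d + 1)).card :=
        Finset.card_le_card (Finset.filter_subset _ _)
      rw [e4, hop]
      omega
  · -- the last form is a new element
    have hU : Module.finrank K (up f d W) =
        Module.finrank K (up (f ∘ Fin.castSucc) d W) + 1 := by
      rw [e3]
      exact sup1 _ F hFU
    obtain ⟨M, h1, h3, h4⟩ := h_CMG K n (a ∘ Fin.castSucc) hm' (fun i => h2 _) hE
      (f ∘ Fin.castSucc) hf' d (a (Fin.last n) + 1) (by omega)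
      (fun i => (hm (Fin.le_last _)).trans (Nat.le_succ _)) W hW1' hW2
    set b : Fin (n + 1) → ℕ :=
      Fin.snoc (α := fun _ => ℕ) (a ∘ Fin.castSucc) (a (Fin.last n) + 1) with hb
    have hb1 : ∀ i : Fin n, b i.castSucc = a i.castSucc := fun i => by
      rw [hb, Fin.snoc_castSucc]
      rfl
    have hb2 : b (Fin.last n) = a (Fin.last n) + 1 := by rw [hb, Fin.snoc_last]
    have hstd : Std b d = Std a d := std_eq b a hb1 d (by omega) (by omega)
    have hle : ∀ i, a i ≤ b i := by
      intro i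
      refine Fin.lastCases ?_ (fun i => ?_) i
      · omega
      · exact (hb1 i).ge
    refine ⟨M, ?_, ?_, ?_⟩
    · unfold IsSeg at h1 ⊢
      rw [← hstd]
      exact h1
    · rw [h3, e1]
    · have h5 : (shadow a d M).card ≤ (shadow b d M).card := by
        refine Finset.card_le_card ?_
        unfold shadow
        exact Finset.filter_subset_filter _ (std_mono a b hle _)
      rw [hU, hJ]
      omega

end BGE_

theorem p_BGE (h_CMG : T_CMG.{u}) (h_VTW : T_VTW.{u}) (h_OPR : T_OPR.{u}) (h_NQS : T_NQS) :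
    T_BGE.{u} := by
  intro K _ _ n a hm h2 hn hS hE d N f hf W hW1 hW2 _
  have hS1 : S a (n + 1) = S a n + (a (Fin.last n) - 1) :=
    (t_num (n + 1) a).2.1 n (Nat.lt_succ_self n)
  have h2l := h2 (Fin.last n)
  have hv := h_VTW K (n + 1) f a hf hm h2 d W hW1 hW2
  by_cases hd1 : d + 1 < a (Fin.last n)
  · exact EGT.BIG_.small h_CMG K n a hm h2 hE f hf d hd1 W hW1 hW2
  · by_cases hd3 : d + 1 = a (Fin.last n)
    · exact BGE_.mid h_CMG h_OPR h_NQS K n a hm h2 hn hS hE f hf d hd3 W hW1 hW2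
    · by_cases hd2 : S a (n + 1) ≤ d
      · exact hv.2.1 hd2
      · have hdd : d + (S a (n + 1) - 1 - d) + 1 = S a (n + 1) := by omega
        have hD := p_DUA K (n + 1) f a hf hm d (S a (n + 1) - 1 - d) hdd W hW1 hW2
        refine hv.2.2 (S a (n + 1) - 1 - d) hdd ?_
        exact EGT.BIG_.small h_CMG K n a hm h2 hE f hf _ (by omega) _ hD.1 hD.2.1

end Pool.Agent.EGX
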