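import Pool.Agent.EGX.Targets

set_option autoImplicit false
open MvPolynomial hiding R

/-!
Target CMB of the project EGX: the combination of the layers.
-/

namespace Pool.Agent.EGX

open Pool.Agent.EGU Pool.Agent.EGS Pool.Agent.EGT

universe u

namespace CMB_

variable {n : ℕ}

theorem mem_Std (a : Fin n → ℕ) (d : ℕ) (x : Fin n →₀ ℕ) :
    x ∈ Std a d ↔ (∑ i, x i) = d ∧ ∀ i, x i < a i := by
  unfold Std
  rw [Finset.mem_filter, Finset.mem_finsuppAntidiag]
  constructor
  · rintro ⟨⟨h1, -⟩, h2⟩
    exact ⟨h1, h2⟩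
  · rintro ⟨h1, h2⟩
    exact ⟨⟨h1, Finset.subset_univ _⟩, h2⟩

theorem mem_shadow (a : Fin n → ℕ) (d : ℕ) (M : Finset (Fin n →₀ ℕ)) (x : Fin n →₀ ℕ) :
    x ∈ shadow a d M ↔ x ∈ Std a (d + 1) ∧ ∃ y ∈ M, y ≤ x := by
  classical
  unfold shadow
  rw [Finset.mem_filter]

theorem ins_same (i : Fin (n + 1)) (c : ℕ) (y : Fin n →₀ ℕ) : ins i c y i = c := by
  simp [ins]

theorem ins_succ (i : Fin (n + 1)) (c : ℕ) (y : Fin n →₀ ℕ) (j : Fin n) :
    ins i c y (i.succAbove j) = y j := by
  simp [ins]

theorem rmv_app (i : Fin (n + 1)) (x : Fin (n + 1) →₀ ℕ) (j : Fin n) :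
    rmv i x j = x (i.succAbove j) := by
  simp [rmv]

theorem ins_rmv (i : Fin (n + 1)) (x : Fin (n + 1) →₀ ℕ) : ins i (x i) (rmv i x) = x := by
  ext k
  rcases Fin.eq_self_or_eq_succAbove i k with h | ⟨j, h⟩
  · rw [h, ins_same]
  · rw [h, ins_succ, rmv_app]

theorem rmv_ins (i : Fin (n + 1)) (c : ℕ) (y : Fin n →₀ ℕ) : rmv i (ins i c y) = y := by
  ext j
  rw [rmv_app, ins_succ]

theorem ins_inj (i : Fin (n + 1)) (c : ℕ) : Function.Injective (ins i c) := fun x y h => by
  have := congrArg (rmv i) h
  rwa [rmv_ins, rmv_ins] at this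

theorem sum_split (i : Fin (n + 1)) (x : Fin (n + 1) →₀ ℕ) :
    (∑ k, x k) = x i + ∑ j, rmv i x j := by
  rw [Fin.sum_univ_succAbove _ i]
  congr 1

theorem ins_mem (a : Fin (n + 1) → ℕ) (i : Fin (n + 1)) (d c e : ℕ) (y : Fin n →₀ ℕ)
    (hy : y ∈ Std (fun j => a (i.succAbove j)) d) (hc : c < a i) (he : d + c = e) :
    ins i c y ∈ Std a e := by
  rw [mem_Std] at hy ⊢
  refine ⟨?_, ?_⟩
  · rw [sum_split i, ins_same, rmv_ins, hy.1]
    omega
  · intro k
    rcases Fin.eq_self_or_eq_succAbove i k with h | ⟨j, h⟩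
    · rw [h, ins_same]
      exact hc
    · rw [h, ins_succ]
      exact hy.2 j

theorem rmv_mem (a : Fin (n + 1) → ℕ) (i : Fin (n + 1)) (d e : ℕ) (x : Fin (n + 1) →₀ ℕ)
    (hx : x ∈ Std a e) (he : d + x i = e) : rmv i x ∈ Std (fun j => a (i.succAbove j)) d := by
  rw [mem_Std] at hx ⊢
  refine ⟨?_, ?_⟩
  · have h := hx.1
    rw [sum_split i] at h
    omega
  · intro j
    rw [rmv_app]
    exact hx.2 _

theorem shadow_empty (a : Fin n → ℕ) (d : ℕ) : shadow a d ∅ = ∅ := by
  ext x
  rw [mem_shadow]
  simp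

theorem main (h_CLT : T_CLT) : T_CMB := by
  classical
  intro n a i ha h1 d κ u hκ hS
  set a' : Fin n → ℕ := fun j => a (i.succAbove j) with ha'
  have hai := h1 i
  have hch : ∀ j, ∃ M : Finset (Fin n →₀ ℕ), M.card = κ j * (if j < a i then 1 else 0) ∧
      (j < a i → IsSeg a' (d + j - (a i - 1)) M ∧
        (shadow a' (d + j - (a i - 1)) M).card ≤ u j ∧ (M = ∅ ∨ a i - 1 ≤ d + j)) := by
    intro j
    by_cases hj : j < a i
    · rw [if_pos hj, mul_one]
      rcases hS j hj with ⟨h2, h3⟩ | ⟨d', h2, M, hM, hc, hu⟩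
      · refine ⟨∅, by rw [h3]; rfl, fun _ => ⟨⟨Finset.empty_subset _, ?_⟩, ?_, Or.inl rfl⟩⟩
        · intro x hx
          exact absurd hx (Finset.notMem_empty x)
        · rw [shadow_empty]
          exact Nat.zero_le _
      · have hd : d + j - (a i - 1) = d' := by omega
        rw [hd]
        exact ⟨M, hc, fun _ => ⟨hM, hu, Or.inr (by omega)⟩⟩
    · rw [if_neg hj, mul_zero]
      exact ⟨∅, rfl, fun h => absurd h hj⟩
  choose M hMc hM using hch
  have hMk : ∀ j, j < a i → (M j).card = κ j := fun j hj => by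
    rw [hMc, if_pos hj, mul_one]
  have hMe : M (a i) = ∅ := by
    rw [← Finset.card_eq_zero, hMc, hκ, zero_mul]
  have hMk1 : ∀ j, j < a i → (M (j + 1)).card = κ (j + 1) := fun j hj => by
    rcases Nat.lt_or_ge (j + 1) (a i) with h | h
    · exact hMk _ h
    · have : j + 1 = a i := by omega
      rw [this, hMe, hκ]
      rfl
  set F : Finset (Fin (n + 1) →₀ ℕ) :=
    (Finset.range (a i)).biUnion fun j => (M j).image (ins i (a i - 1 - j)) with hF
  have hFs : F ⊆ Std a d := by
    intro x hx
    rw [hF, Finset.mem_biUnion] at hx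
    obtain ⟨j, hj, hx⟩ := hx
    rw [Finset.mem_range] at hj
    rw [Finset.mem_image] at hx
    obtain ⟨y, hy, rfl⟩ := hx
    obtain ⟨hs, -, he⟩ := hM j hj
    rcases he with he | he
    · rw [he] at hy
      exact absurd hy (Finset.notMem_empty y)
    · exact ins_mem a i (d + j - (a i - 1)) (a i - 1 - j) d y (hs.1 hy) (by omega) (by omega)
  have hFc : F.card = ∑ j ∈ Finset.range (a i), κ j := by
    rw [hF, Finset.card_biUnion]
    · refine Finset.sum_congr rfl fun j hj => ?_
      rw [Finset.mem_range] at hj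
      rw [Finset.card_image_of_injective _ (ins_inj i _), hMk j hj]
    · intro j hj k hk hne
      rw [Finset.mem_coe, Finset.mem_range] at hj hk
      rw [Function.onFun, Finset.disjoint_left]
      intro x hx hx'
      rw [Finset.mem_image] at hx hx'
      obtain ⟨y, -, rfl⟩ := hx
      obtain ⟨z, -, hz⟩ := hx'
      have h0 := congrArg (fun w : Fin (n + 1) →₀ ℕ => w i) hz
      simp only [ins_same] at h0
      omega
  obtain ⟨I, hI, hIc⟩ := (t_sega (n + 1) a d).2.2.2.1 (∑ j ∈ Finset.range (a i), κ j)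
    (hFc ▸ Finset.card_le_card hFs)
  refine ⟨I, hI, hIc, ?_⟩
  have hcl := h_CLT (n + 1) a ha d F I hFs hI (by omega)
  refine hcl.trans ?_
  set U : ℕ → Finset (Fin n →₀ ℕ) :=
    fun j => shadow a' (d + j - (a i - 1)) (M j) ∪ M (j + 1) with hU
  have hsub : shadow a d F ⊆
      (Finset.range (a i)).biUnion fun j => (U j).image (ins i (a i - 1 - j)) := by
    intro x hx
    rw [mem_shadow] at hx
    obtain ⟨hx, y, hy, hle⟩ := hx
    have hxs := (mem_Std _ _ _).1 hx
    have hxi := hxs.2 i
    rw [hF, Finset.mem_biUnion] at hy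
    obtain ⟨j, hj, hy⟩ := hy
    rw [Finset.mem_range] at hj
    rw [Finset.mem_image] at hy
    obtain ⟨z, hz, rfl⟩ := hy
    obtain ⟨hs, -, he⟩ := hM j hj
    have he' : a i - 1 ≤ d + j := by
      rcases he with he | he
      · rw [he] at hz
        exact absurd hz (Finset.notMem_empty z)
      · exact he
    have hz1 := (mem_Std _ _ _).1 (hs.1 hz)
    have hxi2 : a i - 1 - j ≤ x i := by
      have := hle i
      rwa [ins_same] at this
    have hzr : z ≤ rmv i x := by
      intro k
      have := hle (i.succAbove k)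
      rw [ins_succ] at this
      rw [rmv_app]
      exact this
    have hsum := hxs.1
    rw [sum_split i] at hsum
    have hzs : (∑ k, z k) ≤ ∑ k, rmv i x k := Finset.sum_le_sum fun k _ => hzr k
    rw [hz1.1] at hzs
    rw [Finset.mem_biUnion]
    rcases Nat.lt_or_ge (a i - 1 - j) (x i) with h | h
    · -- one unit at the place `i`
      have hj0 : 0 < j := by omega
      obtain ⟨k, rfl⟩ : ∃ k, j = k + 1 := ⟨j - 1, by omega⟩
      have hxk : x i = a i - 1 - k := by omega
      refine ⟨k, Finset.mem_range.2 (by omega), ?_⟩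
      rw [Finset.mem_image]
      refine ⟨rmv i x, ?_, ?_⟩
      · rw [hU, Finset.mem_union]
        right
        have heq : z = rmv i x := by
          by_contra hne
          have hex : ∃ k, z k < rmv i x k := by
            by_contra hcon
            push Not at hcon
            exact hne (le_antisymm hzr (fun k => hcon k))
          obtain ⟨k', hk'⟩ := hex
          have := Finset.sum_lt_sum (s := Finset.univ) (f := fun l => z l)
            (g := fun l => rmv i x l) (fun l _ => hzr l) ⟨k', Finset.mem_univ _, hk'⟩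
          have h1 := hz1.1
          omega
        rw [← heq]
        exact hz
      · rw [← hxk]
        exact ins_rmv i x
    · have hxj : x i = a i - 1 - j := by omega
      refine ⟨j, Finset.mem_range.2 hj, ?_⟩
      rw [Finset.mem_image]
      refine ⟨rmv i x, ?_, ?_⟩
      · rw [hU, Finset.mem_union, mem_shadow]
        left
        exact ⟨rmv_mem a i _ _ x hx (by omega), z, hz, hzr⟩
      · rw [← hxj]
        exact ins_rmv i x
  have hUc : ∀ j, j < a i → (U j).card ≤ max (u j) (κ (j + 1)) := by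
    intro j hj
    obtain ⟨hs, hu, he⟩ := hM j hj
    have hk1 := hMk1 j hj
    rcases he with he | he
    · have : U j = M (j + 1) := by
        simp only [hU]
        rw [he, shadow_empty, Finset.empty_union]
      rw [this, hk1]
      exact le_max_right _ _
    rcases Nat.lt_or_ge (j + 1) (a i) with h | h
    · obtain ⟨mi, -, -, -, hmi⟩ := t_segb n
      have hs0 := hmi a' _ _ hs
      have hs1 := (hM (j + 1) h).1
      have hd : d + (j + 1) - (a i - 1) = d + j - (a i - 1) + 1 := by omega
      rw [hd] at hs1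
      have hn := (t_sega n a' (d + j - (a i - 1) + 1)).2.2.2.2
      rcases le_total (shadow a' (d + j - (a i - 1)) (M j)).card (M (j + 1)).card with h' | h'
      · have := hn _ _ hs0 hs1 h'
        have hUj : U j = M (j + 1) := Finset.union_eq_right.2 this
        rw [hUj, hk1]
        exact le_max_right _ _
      · have := hn _ _ hs1 hs0 h'
        have hUj : U j = shadow a' (d + j - (a i - 1)) (M j) := Finset.union_eq_left.2 this
        rw [hUj]
        exact hu.trans (le_max_left _ _)
    · have hj1 : j + 1 = a i := by omega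
      have hUj : U j = shadow a' (d + j - (a i - 1)) (M j) := by
        simp only [hU]
        rw [hj1, hMe, Finset.union_empty]
      rw [hUj]
      exact hu.trans (le_max_left _ _)
  calc (shadow a d F).card
      ≤ ((Finset.range (a i)).biUnion fun j => (U j).image (ins i (a i - 1 - j))).card :=
        Finset.card_le_card hsub
    _ ≤ ∑ j ∈ Finset.range (a i), ((U j).image (ins i (a i - 1 - j))).card :=
        Finset.card_biUnion_le
    _ ≤ ∑ j ∈ Finset.range (a i), max (u j) (κ (j + 1)) := by
        refine Finset.sum_le_sum fun j hj => ?_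
        exact Finset.card_image_le.trans (hUc j (Finset.mem_range.1 hj))

end CMB_

theorem p_CMB (h_CLT : T_CLT) : T_CMB := CMB_.main h_CLT

end Pool.Agent.EGX
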