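import Pool.Agent.EGX.Targets
import Pool.Agent.EGT.P_RSG

set_option autoImplicit false
open MvPolynomial hiding R

/-!
# Project EGX (MP_e5dae2_al): target CPL, completing a regular sequence inside `J f`
-/

namespace Pool.Agent.EGX

open Pool.Agent.EGU Pool.Agent.EGS Pool.Agent.EGT

universe u

namespace CPL_

variable {K : Type u} [Field K]

/-- One step: a nonzerodivisor of the right degree. -/
theorem step [Infinite K] {n k : ℕ} (f : Fin n → R K n) (a : Fin n → ℕ)
    (hf : CI f a) (hmono : Monotone a) (hk : k < n) (g : Fin k → R K n)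
    (b : Fin k → ℕ) (hg : CI g b) :
    ∃ v ∈ Jd f (a ⟨k, hk⟩), ∀ p, p * v ∈ J g → p ∈ J g := by
  by_contra hcon
  push Not at hcon
  obtain ⟨h, hh, hV⟩ := p_AVO K n (J g) (Jd f (a ⟨k, hk⟩)) fun v hv => by
    obtain ⟨p, hp1, hp2⟩ := hcon v hv
    exact ⟨p, hp2, by rwa [mul_comm]⟩
  apply hh
  have hk2 : k + 1 ≤ n := hk
  have hci := TRU_.ci_cast hk2 f a hf
  refine RSG_.acy0 hci hg (by omega) fun i => ?_
  show f (Fin.castLE hk2 i) * h ∈ J g
  have hi : a (Fin.castLE hk2 i) ≤ a ⟨k, hk⟩ := by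
    apply hmono
    rw [Fin.le_def]
    show (i : ℕ) ≤ k
    omega
  refine RSG_.iter hg hk (a ⟨k, hk⟩ - a (Fin.castLE hk2 i)) _ fun q hq => ?_
  rw [← mul_assoc]
  refine hV _ ⟨?_, ?_⟩
  · show q * f (Fin.castLE hk2 i) ∈ Rd K n (a ⟨k, hk⟩)
    rw [mem_homogeneousSubmodule] at hq ⊢
    have h1 := hq.mul (hf.hom (Fin.castLE hk2 i))
    rwa [Nat.sub_add_cancel hi] at h1
  · exact Ideal.mul_mem_left _ _ (Ideal.subset_span ⟨_, rfl⟩)

/-- The construction, one element after the other. -/
theorem build [Infinite K] {n : ℕ} (f : Fin n → R K n) (a : Fin n → ℕ) (hf : CI f a)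
    (hmono : Monotone a) (r : ℕ) (hr : r < n) (d : ℕ) (hd : 1 ≤ d) (w : R K n)
    (hw : w ∈ Rd K n d)
    (hreg : ∀ p, w * p ∈ J (f ∘ Fin.castLE hr.le) → p ∈ J (f ∘ Fin.castLE hr.le))
    (k : ℕ) (hrk : r + 1 ≤ k) : ∀ hk : k ≤ n,
    ∃ g : Fin k → R K n, CI g (fun i => Function.update a ⟨r, hr⟩ d (Fin.castLE hk i)) ∧
      ∀ i : Fin k, ((i : ℕ) < r → g i = f (Fin.castLE hk i)) ∧ ((i : ℕ) = r → g i = w) ∧
        (r < (i : ℕ) → g i ∈ J f) := by
  induction k, hrk using Nat.le_induction with
  | base =>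
    intro hk
    have e1 : (Fin.snoc (f ∘ Fin.castLE hr.le) w : Fin (r + 1) → R K n) ∘ Fin.castSucc =
        f ∘ Fin.castLE hr.le := by
      funext i
      simp
    have e2 : (Fin.snoc (f ∘ Fin.castLE hr.le) w : Fin (r + 1) → R K n) (Fin.last r) = w := by
      simp
    have e3 : Function.update a ⟨r, hr⟩ d (Fin.castLE hk (Fin.last r)) = d := by
      have h1 : Fin.castLE hk (Fin.last r) = ⟨r, hr⟩ := Fin.ext rfl
      rw [h1, Function.update_self]
    have e4 : (fun i : Fin (r + 1) => Function.update a ⟨r, hr⟩ d (Fin.castLE hk i)) ∘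
        Fin.castSucc = a ∘ Fin.castLE hr.le := by
      funext i
      rw [Function.comp_apply, Function.comp_apply]
      have h1 : Fin.castLE hk (Fin.castSucc i) = Fin.castLE hr.le i := Fin.ext rfl
      rw [h1, Function.update_of_ne]
      intro h2
      have h3 := congrArg Fin.val h2
      have h4 : (i : ℕ) = r := h3
      omega
    refine ⟨(Fin.snoc (f ∘ Fin.castLE hr.le) w : Fin (r + 1) → R K n), ?_, fun i => ?_⟩
    · rw [(t_cir K n r _ _).2, e1, e2, e4]
      refine ⟨TRU_.ci_cast hr.le f a hf, ?_, ?_, fun p hp => hreg p (by rwa [mul_comm])⟩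
      · show 1 ≤ Function.update a ⟨r, hr⟩ d (Fin.castLE hk (Fin.last r))
        rw [e3]
        exact hd
      · show w.IsHomogeneous (Function.update a ⟨r, hr⟩ d (Fin.castLE hk (Fin.last r)))
        rw [e3]
        exact hw
    · refine Fin.lastCases ?_ (fun j => ?_) i
      · refine ⟨fun h => ?_, fun _ => e2, fun h => ?_⟩
        · rw [Fin.val_last] at h
          omega
        · rw [Fin.val_last] at h
          omega
      · have h1 := congrFun e1 j
        rw [Function.comp_apply] at h1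
        rw [h1]
        have hj : ((Fin.castSucc j : Fin (r + 1)) : ℕ) < r := by
          rw [Fin.val_castSucc]
          exact j.2
        refine ⟨fun _ => ?_, fun h => by omega, fun h => by omega⟩
        rw [Function.comp_apply]
        congr 1
  | succ k hrk ih =>
    intro hk
    obtain ⟨g, hg, hgi⟩ := ih (by omega)
    have hk' : k < n := hk
    obtain ⟨v, hv, hvreg⟩ := step f a hf hmono hk' g _ hg
    have e1 : (Fin.snoc g v : Fin (k + 1) → R K n) ∘ Fin.castSucc = g := by
      funext i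
      simp
    have e2 : (Fin.snoc g v : Fin (k + 1) → R K n) (Fin.last k) = v := by simp
    have e3 : Function.update a ⟨r, hr⟩ d (Fin.castLE hk (Fin.last k)) = a ⟨k, hk'⟩ := by
      have h1 : Fin.castLE hk (Fin.last k) = ⟨k, hk'⟩ := Fin.ext rfl
      rw [h1, Function.update_of_ne]
      intro h2
      have h3 := congrArg Fin.val h2
      have h4 : k = r := h3
      omega
    refine ⟨(Fin.snoc g v : Fin (k + 1) → R K n), ?_, fun i => ?_⟩
    · rw [(t_cir K n k _ _).2, e1, e2]
      refine ⟨hg, ?_, ?_, hvreg⟩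
      · show 1 ≤ Function.update a ⟨r, hr⟩ d (Fin.castLE hk (Fin.last k))
        rw [e3]
        exact hf.pos _
      · show v.IsHomogeneous (Function.update a ⟨r, hr⟩ d (Fin.castLE hk (Fin.last k)))
        rw [e3]
        exact hv.1
    · refine Fin.lastCases ?_ (fun j => ?_) i
      · refine ⟨fun h => ?_, fun h => ?_, fun _ => ?_⟩
        · rw [Fin.val_last] at h
          omega
        · rw [Fin.val_last] at h
          omega
        · rw [e2]
          exact hv.2
      · have h1 := congrFun e1 j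
        rw [Function.comp_apply] at h1
        rw [h1, Fin.val_castSucc]
        exact hgi j

end CPL_

theorem p_CPL : T_CPL.{u} := by
  intro K _ _ n f a hf hmono r hr d hd w hw hreg
  obtain ⟨g, hg, hgi⟩ := CPL_.build f a hf hmono r hr d hd w hw hreg n hr le_rfl
  refine ⟨g, hg, fun i hi => (hgi i).1 hi, (hgi ⟨r, hr⟩).2.1 rfl, fun j hj => (hgi j).2.2 hj⟩

end Pool.Agent.EGX
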