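import Pool.Agent.EGX.Targets
import Pool.Agent.EGS.P_AVO
import Pool.Agent.EGS.P_ACY

set_option autoImplicit false
open MvPolynomial hiding R

/-!
# Project EGX, target EXT: completing a short regular sequence
-/

namespace Pool.Agent.EGX

open Pool.Agent.EGU Pool.Agent.EGS Pool.Agent.EGT

universe u

/-- A linear form which is a nonzerodivisor. -/
theorem EXT_.ex_lin {K : Type u} [Field K] [Infinite K] (n r : ℕ) (hr : r < n)
    (f : Fin r → R K n) (a : Fin r → ℕ) (hf : CI f a) :
    ∃ l ∈ Rd K n 1, ∀ p, l * p ∈ J f → p ∈ J f := by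
  by_contra hcon
  push Not at hcon
  obtain ⟨h, hh, hv⟩ := p_AVO K n (J f) (Rd K n 1) (fun v hv => by
    obtain ⟨p, hp, hp'⟩ := hcon v hv
    exact ⟨p, hp', hp⟩)
  have hX := t_xci K n (fun _ => 1) (fun _ => le_refl 1)
  have hex := p_ACY K n n r (fun i => (X i : R K n) ^ 1) (fun _ => 1) f a hX hf
    0 (by omega)
  obtain ⟨b, hb⟩ := hex (fun _ => h) (by
    intro T _ hT
    obtain ⟨t, rfl⟩ := Finset.card_eq_one.mp hT
    unfold cob
    rw [Finset.sum_singleton]
    refine Ideal.mul_mem_left _ _ (hv _ ?_)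
    change (X t : R K n) ^ 1 ∈ Rd K n 1
    rw [pow_one]
    exact isHomogeneous_X K t)
  have h1 := hb ∅ (Finset.empty_subset _) Finset.card_empty
  unfold cob at h1
  rw [Finset.sum_empty, sub_zero] at h1
  exact hh h1

/-- Powers of a nonzerodivisor. -/
theorem EXT_.pow {K : Type u} [Field K] {n : ℕ} (I : Ideal (R K n)) (l : R K n)
    (hl : ∀ p, l * p ∈ I → p ∈ I) : ∀ (k : ℕ) (p : R K n), p * l ^ k ∈ I → p ∈ I := by
  intro k
  induction k with
  | zero =>
    intro p hp
    rwa [pow_zero, mul_one] at hp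
  | succ k ih =>
    intro p hp
    apply ih
    apply hl
    have h : l * (p * l ^ k) = p * l ^ (k + 1) := by ring
    rw [h]
    exact hp

/-- Adding one element. -/
theorem EXT_.step {K : Type u} [Field K] [Infinite K] (n r : ℕ) (hr : r + 1 ≤ n)
    (f : Fin r → R K n) (b : Fin n → ℕ) (hb : ∀ i, 1 ≤ b i)
    (hf : CI f (b ∘ Fin.castLE (Nat.le_of_succ_le hr))) :
    ∃ f' : Fin (r + 1) → R K n, CI f' (b ∘ Fin.castLE hr) ∧ f' ∘ Fin.castSucc = f := by
  obtain ⟨l, hl1, hl⟩ := EXT_.ex_lin n r hr f _ hf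
  refine ⟨Fin.snoc f (l ^ b (Fin.castLE hr (Fin.last r))), ?_, ?_⟩
  · refine (t_cir K n r _ _).2.mpr ⟨?_, hb _, ?_, ?_⟩
    · have h1 : (Fin.snoc f (l ^ b (Fin.castLE hr (Fin.last r))) : Fin (r + 1) → R K n) ∘
          Fin.castSucc = f := by
        funext i
        simp only [Function.comp_apply, Fin.snoc_castSucc]
      rw [h1]
      exact hf
    · rw [Fin.snoc_last, Function.comp_apply]
      have h2 := (show l.IsHomogeneous 1 from hl1).pow (b (Fin.castLE hr (Fin.last r)))
      rwa [one_mul] at h2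
    · intro p hp
      have h1 : (Fin.snoc f (l ^ b (Fin.castLE hr (Fin.last r))) : Fin (r + 1) → R K n) ∘
          Fin.castSucc = f := by
        funext i
        simp only [Function.comp_apply, Fin.snoc_castSucc]
      rw [h1, Fin.snoc_last] at hp
      rw [h1]
      exact EXT_.pow (J f) l hl _ p hp
  · funext i
    simp only [Function.comp_apply, Fin.snoc_castSucc]

theorem EXT_.main {K : Type u} [Field K] [Infinite K] (n : ℕ) (b : Fin n → ℕ)
    (hb : ∀ i, 1 ≤ b i) : ∀ (k r : ℕ) (hr : r ≤ n), n - r = k → ∀ f : Fin r → R K n,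
    CI f (b ∘ Fin.castLE hr) → ∃ g : Fin n → R K n, CI g b ∧ ∀ i, g (Fin.castLE hr i) = f i := by
  intro k
  induction k with
  | zero =>
    intro r hr hk f hf
    have hrn : r = n := by omega
    subst hrn
    exact ⟨f, hf, fun i => rfl⟩
  | succ k ih =>
    intro r hr hk f hf
    have hr' : r + 1 ≤ n := by omega
    obtain ⟨f', hf', hff⟩ := EXT_.step n r hr' f b hb hf
    obtain ⟨g, hg, hgf⟩ := ih (r + 1) hr' (by omega) f' hf'
    refine ⟨g, hg, fun i => ?_⟩
    have h1 := hgf (Fin.castSucc i)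
    have h2 : f' (Fin.castSucc i) = f i := congrFun hff i
    rw [← h2, ← h1]
    rfl

theorem p_EXT : T_EXT.{u} := by
  intro K _ _ n r hr f b hb hf
  exact EXT_.main n b hb (n - r) r hr rfl f hf

end Pool.Agent.EGX
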