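import Pool.Agent.EGX.Targets

set_option autoImplicit false
open MvPolynomial hiding R

/-!
# Project EGX: target FAC (replacing the first element `l * h` by `l`)
-/

namespace Pool.Agent.EGX

open Pool.Agent.EGU Pool.Agent.EGS Pool.Agent.EGT

universe u

noncomputable section

section
variable {A : Type u} [CommRing A] {m : ℕ}

/-- The ideal of the first `k` elements. -/
def FAC_G (f : Fin m → A) (k : ℕ) : Ideal A := Ideal.span (f '' {i | (i : ℕ) < k})

theorem FAC_G0 (f : Fin m → A) : FAC_G f 0 = ⊥ := by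
  unfold FAC_G
  have : {i : Fin m | (i : ℕ) < 0} = ∅ := by
    ext i
    simp
  rw [this, Set.image_empty, Ideal.span_empty]

theorem FAC_Gsucc (f : Fin m → A) (k : Fin m) :
    FAC_G f ((k : ℕ) + 1) = FAC_G f k ⊔ Ideal.span {f k} := by
  unfold FAC_G
  rw [← Ideal.span_union]
  congr 1
  ext x
  simp only [Set.mem_image, Set.mem_setOf_eq, Set.mem_union, Set.mem_singleton_iff]
  constructor
  · rintro ⟨i, hi, rfl⟩
    rcases Nat.lt_succ_iff_lt_or_eq.mp hi with h | h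
    · exact Or.inl ⟨i, h, rfl⟩
    · right
      congr 1
      exact Fin.ext h
  · rintro (⟨i, hi, rfl⟩ | rfl)
    · exact ⟨i, Nat.lt_succ_of_lt hi, rfl⟩
    · exact ⟨k, Nat.lt_succ_self _, rfl⟩

theorem FAC_mem {x p : A} {I : Ideal A} :
    p ∈ Ideal.span {x} ⊔ I ↔ ∃ c, ∃ r ∈ I, p = x * c + r := by
  rw [Submodule.mem_sup]
  constructor
  · rintro ⟨y, hy, r, hr, rfl⟩
    obtain ⟨c, rfl⟩ := Ideal.mem_span_singleton'.mp hy
    exact ⟨c, r, hr, by ring⟩
  · rintro ⟨c, r, hr, rfl⟩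
    exact ⟨x * c, Ideal.mem_span_singleton'.mpr ⟨c, by ring⟩, r, hr, rfl⟩

/-- Regularity modulo one factor, from the cancellation property. -/
theorem FAC_R {x y g : A} {I : Ideal A}
    (hreg : ∀ p, p * g ∈ Ideal.span {x * y} ⊔ I → p ∈ Ideal.span {x * y} ⊔ I)
    (hE : ∀ p, y * p ∈ Ideal.span {x * y} ⊔ I → p ∈ Ideal.span {x} ⊔ I) :
    ∀ p, p * g ∈ Ideal.span {x} ⊔ I → p ∈ Ideal.span {x} ⊔ I := by
  intro p hp
  obtain ⟨c, r, hr, h⟩ := FAC_mem.mp hp
  apply hE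
  apply hreg
  refine FAC_mem.mpr ⟨c, y * r, I.mul_mem_left y hr, ?_⟩
  linear_combination y * h

/-- The step. -/
theorem FAC_step {x y g : A} {I : Ideal A}
    (hE : ∀ p, y * p ∈ Ideal.span {x * y} ⊔ I → p ∈ Ideal.span {x} ⊔ I)
    (hR : ∀ p, p * g ∈ Ideal.span {y} ⊔ I → p ∈ Ideal.span {y} ⊔ I) :
    ∀ p, y * p ∈ Ideal.span {x * y} ⊔ (I ⊔ Ideal.span {g}) →
      p ∈ Ideal.span {x} ⊔ (I ⊔ Ideal.span {g}) := by
  intro p hp
  obtain ⟨c, s, hs, h⟩ := FAC_mem.mp hp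
  rw [sup_comm] at hs
  obtain ⟨q, r, hr, h'⟩ := FAC_mem.mp hs
  have h1 : q * g ∈ Ideal.span {y} ⊔ I := by
    refine FAC_mem.mpr ⟨p - x * c, -r, I.neg_mem hr, ?_⟩
    linear_combination h' * (-1) - h
  obtain ⟨q', r', hr', h2⟩ := FAC_mem.mp (hR q h1)
  have h3 : p - g * q' ∈ Ideal.span {x} ⊔ I := by
    apply hE
    refine FAC_mem.mpr ⟨c, r + g * r', I.add_mem hr (I.mul_mem_left g hr'), ?_⟩
    linear_combination h + h' + g * h2
  obtain ⟨d, t, ht, h4⟩ := FAC_mem.mp h3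
  refine FAC_mem.mpr ⟨d, t + g * q', ?_, ?_⟩
  · apply Ideal.add_mem
    · exact Submodule.mem_sup_left ht
    · exact Submodule.mem_sup_right (Ideal.mem_span_singleton'.mpr ⟨q', by ring⟩)
  · linear_combination h4

theorem FAC_main [IsDomain A] (f : Fin m → A) (l h : A) (hl : l ≠ 0) (hh : h ≠ 0)
    (hreg : ∀ k : Fin m, ∀ p, p * f k ∈ Ideal.span {l * h} ⊔ FAC_G f k →
      p ∈ Ideal.span {l * h} ⊔ FAC_G f k) :
    ∀ k : ℕ, k ≤ m →
      (∀ p, h * p ∈ Ideal.span {l * h} ⊔ FAC_G f k → p ∈ Ideal.span {l} ⊔ FAC_G f k) ∧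
      (∀ p, l * p ∈ Ideal.span {h * l} ⊔ FAC_G f k → p ∈ Ideal.span {h} ⊔ FAC_G f k) := by
  intro k
  induction k with
  | zero =>
    intro _
    rw [FAC_G0]
    constructor
    · intro p hp
      obtain ⟨c, r, hr, he⟩ := FAC_mem.mp hp
      rw [Ideal.mem_bot] at hr
      refine FAC_mem.mpr ⟨c, 0, Ideal.zero_mem _, ?_⟩
      apply mul_left_cancel₀ hh
      rw [he, hr]
      ring
    · intro p hp
      obtain ⟨c, r, hr, he⟩ := FAC_mem.mp hp
      rw [Ideal.mem_bot] at hr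
      refine FAC_mem.mpr ⟨c, 0, Ideal.zero_mem _, ?_⟩
      apply mul_left_cancel₀ hl
      rw [he, hr]
      ring
  | succ k ih =>
    intro hk
    obtain ⟨e1, e2⟩ := ih (Nat.le_of_succ_le hk)
    have hs := FAC_Gsucc f ⟨k, hk⟩
    simp only at hs
    rw [hs]
    have hreg1 := hreg ⟨k, hk⟩
    simp only at hreg1
    have hreg2 : ∀ p, p * f ⟨k, hk⟩ ∈ Ideal.span {h * l} ⊔ FAC_G f k →
        p ∈ Ideal.span {h * l} ⊔ FAC_G f k := by
      rw [mul_comm h l]
      exact hreg1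
    have r1 := FAC_R hreg1 e1
    have r2 := FAC_R hreg2 e2
    exact ⟨FAC_step e1 r2, FAC_step e2 r1⟩

theorem FAC_cons_image (x : A) (f : Fin m → A) (k : Fin m) :
    Ideal.span ((Fin.cons x f : Fin (m + 1) → A) '' {i | i < k.succ}) =
      Ideal.span {x} ⊔ FAC_G f k := by
  unfold FAC_G
  rw [← Ideal.span_union]
  congr 1
  ext y
  simp only [Set.mem_image, Set.mem_setOf_eq, Set.mem_union, Set.mem_singleton_iff]
  constructor
  · rintro ⟨i, hi, rfl⟩
    refine Fin.cases (fun _ => Or.inl rfl) (fun j hj => Or.inr ?_) i hi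
    refine ⟨j, ?_, by rw [Fin.cons_succ]⟩
    exact Fin.succ_lt_succ_iff.mp hj
  · rintro (rfl | ⟨i, hi, rfl⟩)
    · exact ⟨0, Fin.succ_pos k, by rw [Fin.cons_zero]⟩
    · exact ⟨i.succ, Fin.succ_lt_succ_iff.mpr hi, by rw [Fin.cons_succ]⟩

end

theorem p_FAC : T_FAC.{u} := by
  intro K _ n m f a l h c e hc hl hh hCI
  have hzero : {i : Fin (m + 1) | i < 0} = ∅ := by
    ext i
    simp
  have hlh : l * h ≠ 0 := by
    intro h0
    have h1 := hCI.reg 0 1
    rw [hzero, Set.image_empty, Ideal.span_empty, Fin.cons_zero, h0, mul_zero] at h1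
    exact one_ne_zero (Ideal.mem_bot.mp (h1 (Ideal.zero_mem _)))
  have hl0 : l ≠ 0 := left_ne_zero_of_mul hlh
  have hh0 : h ≠ 0 := right_ne_zero_of_mul hlh
  have hreg : ∀ k : Fin m, ∀ p, p * f k ∈ Ideal.span {l * h} ⊔ FAC_G f k →
      p ∈ Ideal.span {l * h} ⊔ FAC_G f k := by
    intro k p hp
    have h1 := hCI.reg k.succ p
    rw [FAC_cons_image, Fin.cons_succ] at h1
    exact h1 hp
  refine ⟨?_, ?_, ?_⟩
  · intro i
    refine Fin.cases ?_ (fun j => ?_) i
    · rw [Fin.cons_zero]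
      exact hc
    · have := hCI.pos j.succ
      rw [Fin.cons_succ] at this
      rw [Fin.cons_succ]
      exact this
  · intro i
    refine Fin.cases ?_ (fun j => ?_) i
    · rw [Fin.cons_zero, Fin.cons_zero]
      exact hl
    · have := hCI.hom j.succ
      rw [Fin.cons_succ, Fin.cons_succ] at this
      rw [Fin.cons_succ, Fin.cons_succ]
      exact this
  · intro j
    refine Fin.cases ?_ (fun k => ?_) j
    · intro p hp
      rw [hzero, Set.image_empty, Ideal.span_empty] at hp ⊢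
      rw [Fin.cons_zero] at hp
      rcases mul_eq_zero.mp (Ideal.mem_bot.mp hp) with h1 | h1
      · rw [h1]
        exact Ideal.zero_mem _
      · exact absurd h1 hl0
    · intro p
      rw [FAC_cons_image, Fin.cons_succ]
      exact FAC_R (hreg k) (FAC_main f l h hl0 hh0 hreg k k.isLt.le).1 p

end

end Pool.Agent.EGX
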