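import Pool.Agent.EGX.Targets

set_option autoImplicit false
open MvPolynomial hiding R

/-!
# Project EGX: target FRO

Moving an element of a regular sequence of forms to the front.
-/

namespace Pool.Agent.EGX

open Pool.Agent.EGU Pool.Agent.EGS Pool.Agent.EGT

universe u

namespace FRO_

/-- The ideal generated by some of the forms is homogeneous. -/
theorem hcomp {K : Type u} [Field K] {n m : ℕ} (f : Fin m → R K n) (a : Fin m → ℕ)
    (hf : ∀ k, (f k).IsHomogeneous (a k)) (s : Set (Fin m)) (p : R K n)
    (hp : p ∈ Ideal.span (f '' s)) (d : ℕ) : homogeneousComponent d p ∈ Ideal.span (f '' s) := by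
  classical
  have key : Ideal.span (f '' s) = J (fun k => if k ∈ s then f k else 0) := by
    unfold J
    apply le_antisymm
    · apply Ideal.span_le.mpr
      rintro _ ⟨k, hk, rfl⟩
      apply Ideal.subset_span
      exact ⟨k, if_pos hk⟩
    · apply Ideal.span_le.mpr
      rintro _ ⟨k, rfl⟩
      by_cases hk : k ∈ s
      · simp only [if_pos hk]
        exact Ideal.subset_span ⟨k, hk, rfl⟩
      · simp only [if_neg hk]
        exact Ideal.zero_mem _
  rw [key] at hp ⊢
  refine (t_jd K n m _ a ?_).2 p hp d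
  intro k
  by_cases hk : k ∈ s
  · simp only [if_pos hk]
    exact hf k
  · simp only [if_neg hk]
    exact isHomogeneous_zero _ _ _

/-- Exchange, first part: `x` is a nonzerodivisor modulo `I`. -/
theorem exch1 {K : Type u} [Field K] {n : ℕ} (I : Ideal (R K n))
    (hI : ∀ p ∈ I, ∀ d, homogeneousComponent d p ∈ I) (x y : R K n) (a b : ℕ) (hb : 1 ≤ b)
    (hxa : x.IsHomogeneous a) (hyb : y.IsHomogeneous b) (hy : ∀ p, p * y ∈ I → p ∈ I)
    (hx : ∀ p, p * x ∈ I ⊔ Ideal.span {y} → p ∈ I ⊔ Ideal.span {y}) :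
    ∀ p, p * x ∈ I → p ∈ I := by
  have hom : ∀ (d : ℕ) (p : R K n), p.IsHomogeneous d → p * x ∈ I → p ∈ I := by
    intro d
    induction d using Nat.strong_induction_on with
    | _ d ih =>
      intro p hpd hpx
      have h1 := hx p (Ideal.mem_sup_left hpx)
      obtain ⟨r, hr, t, ht, hrt⟩ := Submodule.mem_sup.mp h1
      obtain ⟨q, rfl⟩ := Ideal.mem_span_singleton'.mp ht
      have h2 : homogeneousComponent d p = homogeneousComponent d r +
          (if b ≤ d then homogeneousComponent (d - b) q else 0) * y := by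
        rw [← JD_homComp_mul q y b hyb d, ← map_add, hrt]
      rw [homogeneousComponent_eq_self hpd] at h2
      have hr' := hI r hr d
      by_cases hbd : b ≤ d
      · rw [if_pos hbd] at h2
        have h3 : homogeneousComponent (d - b) q * x ∈ I := by
          apply hy
          have h4 : homogeneousComponent (d - b) q * x * y =
              p * x - homogeneousComponent d r * x := by
            rw [h2]
            ring
          rw [h4]
          exact I.sub_mem hpx (I.mul_mem_right _ hr')
        have h5 := ih (d - b) (by omega) _ (homogeneousComponent_isHomogeneous _ q) h3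
        rw [h2]
        exact I.add_mem hr' (I.mul_mem_right _ h5)
      · rw [if_neg hbd, zero_mul, add_zero] at h2
        rw [h2]
        exact hr'
  intro p hpx
  rw [← sum_homogeneousComponent p]
  refine Ideal.sum_mem _ fun d _ => ?_
  apply hom d _ (homogeneousComponent_isHomogeneous _ p)
  have h1 := hI _ hpx (d + a)
  rw [JD_homComp_mul p x a hxa (d + a), if_pos (by omega), Nat.add_sub_cancel] at h1
  exact h1

/-- Exchange, second part: `y` is a nonzerodivisor modulo `I` and `x`. -/
theorem exch2 {K : Type u} [Field K] {n : ℕ} (I : Ideal (R K n)) (x y : R K n)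
    (hy : ∀ p, p * y ∈ I → p ∈ I)
    (hx : ∀ p, p * x ∈ I ⊔ Ideal.span {y} → p ∈ I ⊔ Ideal.span {y}) :
    ∀ p, p * y ∈ I ⊔ Ideal.span {x} → p ∈ I ⊔ Ideal.span {x} := by
  intro p hp
  obtain ⟨r, hr, t, ht, hrt⟩ := Submodule.mem_sup.mp hp
  obtain ⟨q, rfl⟩ := Ideal.mem_span_singleton'.mp ht
  have h1 : q * x ∈ I ⊔ Ideal.span {y} := by
    have h2 : q * x = p * y - r := by
      rw [← hrt]
      ring
    rw [h2]
    exact Ideal.sub_mem _ (Ideal.mem_sup_right (Ideal.mul_mem_left _ _
      (Ideal.subset_span rfl))) (Ideal.mem_sup_left hr)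
  obtain ⟨r', hr', t', ht', hrt'⟩ := Submodule.mem_sup.mp (hx q h1)
  obtain ⟨q', rfl⟩ := Ideal.mem_span_singleton'.mp ht'
  have h3 : p - q' * x ∈ I := by
    apply hy
    have h4 : (p - q' * x) * y = r + r' * x := by
      rw [sub_mul, ← hrt, ← hrt']
      ring
    rw [h4]
    exact I.add_mem hr (I.mul_mem_right _ hr')
  have h5 : p = (p - q' * x) + q' * x := by ring
  rw [h5]
  exact Ideal.add_mem _ (Ideal.mem_sup_left h3) (Ideal.mem_sup_right (Ideal.mul_mem_left _ _
    (Ideal.subset_span rfl)))

/-- The ideal of the first `j` forms. -/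
theorem span_succ {K : Type u} [Field K] {n m : ℕ} (f : Fin m → R K n) (j : ℕ) (hj : j < m) :
    Ideal.span (f '' {k | (k : ℕ) < j + 1}) =
      Ideal.span (f '' {k | (k : ℕ) < j}) ⊔ Ideal.span {f ⟨j, hj⟩} := by
  rw [← Ideal.span_union]
  congr 1
  ext z
  simp only [Set.mem_image, Set.mem_ofPred_eq, Set.mem_union, Set.mem_singleton_iff]
  constructor
  · rintro ⟨k, hk, rfl⟩
    rcases Nat.lt_succ_iff_lt_or_eq.mp hk with h | h
    · exact Or.inl ⟨k, h, rfl⟩
    · right
      congr 1
      exact Fin.ext h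
  · rintro (⟨k, hk, rfl⟩ | rfl)
    · exact ⟨k, by omega, rfl⟩
    · exact ⟨⟨j, hj⟩, by simp, rfl⟩

theorem set_lt {m : ℕ} (j : Fin m) : {k : Fin m | k < j} = {k : Fin m | (k : ℕ) < (j : ℕ)} := by
  ext k
  simp only [Set.mem_ofPred_eq, Fin.lt_def]

/-- `(P_j)`: `f i` is a nonzerodivisor modulo the first `j ≤ i` forms. -/
theorem nzd {K : Type u} [Field K] {n m : ℕ} (f : Fin m → R K n) (a : Fin m → ℕ)
    (hf : CI f a) (i : Fin m) (j : ℕ) (hj : j ≤ i) :
    ∀ p, p * f i ∈ Ideal.span (f '' {k | (k : ℕ) < j}) →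
      p ∈ Ideal.span (f '' {k | (k : ℕ) < j}) := by
  induction hj using Nat.decreasingInduction with
  | self =>
    have h := hf.reg i
    rw [set_lt] at h
    exact h
  | of_succ j hj ih =>
    have hjm : j < m := by omega
    rw [span_succ f j hjm] at ih
    refine exch1 _ (hcomp f a hf.hom _) (f i) (f ⟨j, hjm⟩) (a i) (a ⟨j, hjm⟩) (hf.pos _)
      (hf.hom _) (hf.hom _) ?_ ih
    have h := hf.reg ⟨j, hjm⟩
    rw [set_lt] at h
    exact h

theorem image_cons {α : Type u} {m : ℕ} (f : Fin (m + 1) → α) (i : Fin (m + 1)) (j : Fin m) :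
    (Fin.cons (f i) (fun j => f (i.succAbove j)) : Fin (m + 1) → α) '' {k | k < j.succ} =
      f '' {k | k = i ∨ ∃ l < j, i.succAbove l = k} := by
  ext z
  simp only [Set.mem_image, Set.mem_ofPred_eq]
  constructor
  · rintro ⟨k, hk, rfl⟩
    refine Fin.cases ?_ (fun l => ?_) k hk
    · intro _
      exact ⟨i, Or.inl rfl, by simp⟩
    · intro hl
      rw [Fin.succ_lt_succ_iff] at hl
      exact ⟨i.succAbove l, Or.inr ⟨l, hl, rfl⟩, by simp⟩
  · rintro ⟨k, hk, rfl⟩
    rcases hk with rfl | ⟨l, hl, rfl⟩
    · exact ⟨0, Fin.succ_pos j, by simp⟩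
    · exact ⟨l.succ, Fin.succ_lt_succ_iff.mpr hl, by simp⟩

theorem set_case1 {m : ℕ} (i : Fin (m + 1)) (j : Fin m) (h : (j : ℕ) < i) :
    {k | k = i ∨ ∃ l < j, i.succAbove l = k} = {k : Fin (m + 1) | (k : ℕ) < j} ∪ {i} := by
  ext k
  simp only [Set.mem_ofPred_eq, Set.mem_union, Set.mem_singleton_iff]
  constructor
  · rintro (rfl | ⟨l, hl, rfl⟩)
    · exact Or.inr rfl
    · left
      have h1 : l.castSucc < i := by
        rw [Fin.lt_def] at hl ⊢
        simp only [Fin.val_castSucc]
        omega
      rw [Fin.succAbove_of_castSucc_lt _ _ h1]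
      rw [Fin.lt_def] at hl
      simpa using hl
  · rintro (hk | rfl)
    · right
      have hkm : (k : ℕ) < m := by omega
      refine ⟨⟨k, hkm⟩, by rw [Fin.lt_def]; exact hk, ?_⟩
      rw [Fin.succAbove_of_castSucc_lt]
      · ext
        simp
      · rw [Fin.lt_def]
        simp only [Fin.val_castSucc]
        omega
    · exact Or.inl rfl

theorem set_case2 {m : ℕ} (i : Fin (m + 1)) (j : Fin m) (h : (i : ℕ) ≤ j) :
    {k | k = i ∨ ∃ l < j, i.succAbove l = k} = {k : Fin (m + 1) | k < j.succ} := by
  ext k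
  simp only [Set.mem_ofPred_eq]
  constructor
  · rintro (rfl | ⟨l, hl, rfl⟩)
    · rw [Fin.lt_def]
      simp only [Fin.val_succ]
      omega
    · rw [Fin.lt_def] at hl ⊢
      simp only [Fin.val_succ]
      by_cases h1 : l.castSucc < i
      · rw [Fin.succAbove_of_castSucc_lt _ _ h1]
        simp only [Fin.val_castSucc]
        omega
      · rw [Fin.succAbove_of_le_castSucc _ _ (not_lt.mp h1)]
        simp only [Fin.val_succ]
        omega
  · intro hk
    rw [Fin.lt_def] at hk
    simp only [Fin.val_succ] at hk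
    by_cases hki : k = i
    · exact Or.inl hki
    · right
      have hki' : (k : ℕ) ≠ i := fun h => hki (Fin.ext h)
      rcases Nat.lt_or_ge k i with h1 | h1
      · refine ⟨⟨k, by omega⟩, by rw [Fin.lt_def]; simp only; omega, ?_⟩
        rw [Fin.succAbove_of_castSucc_lt]
        · ext
          simp
        · rw [Fin.lt_def]
          simp only [Fin.val_castSucc]
          exact h1
      · refine ⟨⟨(k : ℕ) - 1, by omega⟩, by rw [Fin.lt_def]; simp only; omega, ?_⟩
        rw [Fin.succAbove_of_le_castSucc]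
        · ext
          simp only [Fin.val_succ]
          omega
        · rw [Fin.le_def]
          simp only [Fin.val_castSucc]
          omega

end FRO_

open FRO_

/-- Target FRO. -/
theorem p_FRO : T_FRO.{u} := by
  intro K _ n m f a i hf
  refine ⟨?_, ?_, ?_⟩
  · intro j
    refine Fin.cases ?_ (fun l => ?_) j
    · simpa using hf.pos i
    · simpa using hf.pos (i.succAbove l)
  · intro j
    refine Fin.cases ?_ (fun l => ?_) j
    · simpa using hf.hom i
    · simpa using hf.hom (i.succAbove l)
  · intro j p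
    refine Fin.cases ?_ (fun l => ?_) j
    · have h := nzd f a hf i 0 (Nat.zero_le _) p
      have e1 : (f '' {k | (k : ℕ) < 0}) = ∅ := by simp
      have e2 : ((Fin.cons (f i) (fun j => f (i.succAbove j)) : Fin (m + 1) → R K n) ''
        {k | k < 0}) = ∅ := by simp
      rw [e1] at h
      rw [e2]
      simpa using h
    · rw [image_cons]
      have e3 : (Fin.cons (f i) (fun j => f (i.succAbove j)) : Fin (m + 1) → R K n) l.succ =
        f (i.succAbove l) := by simp
      rw [e3]
      rcases Nat.lt_or_ge l i with h1 | h1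
      · rw [set_case1 i l h1, Set.image_union, Set.image_singleton, Ideal.span_union]
        have h2 : l.castSucc < i := by
          rw [Fin.lt_def]
          simpa using h1
        rw [Fin.succAbove_of_castSucc_lt _ _ h2]
        refine exch2 _ (f i) (f l.castSucc) ?_ ?_ p
        · have h3 := hf.reg l.castSucc
          rw [set_lt] at h3
          exact h3
        · have h4 := nzd f a hf i ((l : ℕ) + 1) (by omega)
          rw [span_succ f l (by omega)] at h4
          exact h4
      · rw [set_case2 i l h1, Fin.succAbove_of_le_castSucc _ _ (by rw [Fin.le_def]; simpa using h1)]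
        exact hf.reg l.succ p

end Pool.Agent.EGX
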