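import Pool.Agent.EGX.Targets
import Pool.Agent.EGS.P_SOK
import Pool.Agent.EGS.P_MTW

set_option autoImplicit false
open MvPolynomial hiding R

/-!
# EGX, IDY: from the growth inequality to ideals, second condition
-/

namespace Pool.Agent.EGX

open Pool.Agent.EGU Pool.Agent.EGS Pool.Agent.EGT

universe u

noncomputable section

theorem p_IDY : T_IDY.{u} := by
  intro K _ n N a hm ha hn f hf hEQ I hfI hI2 d
  obtain ⟨b1, b2, -⟩ := basic t_dimr f I hfI d
  obtain ⟨c1, c2, -⟩ := basic t_dimr f I hfI (d + 1)
  obtain ⟨e1, -, -⟩ := basic t_dimr f I hfI (S a n - 2)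
  have hR2 := (t_dimr K n 2).1
  have key : Module.finrank K (Rd K n 2) ≤
      Module.finrank K (orth f 2 (Rd K n d ⊓ I.restrictScalars K)) + N := by
    rcases Nat.lt_or_ge (S a n) (d + 2) with h1 | h1
    · have h2 := (p_MTW p_SOK K n f a hf hm d _ b1 inf_le_left).2.2 h1
      rw [h2]
      exact Nat.le_add_right _ _
    · have h2 := (p_MTW p_SOK K n f a hf hm (S a n - 2) _ e1 inf_le_left).1 (by omega)
      have h3 : orth f 2 (Rd K n (S a n - 2) ⊓ I.restrictScalars K) ≤
          orth f 2 (Rd K n d ⊓ I.restrictScalars K) := by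
        intro h hh
        refine ⟨hh.1, fun w hw => ?_⟩
        refine (p_SOK K n f a hf hm).1 (S a n - 2 - d) (d + 2) (by omega) (h * w) ?_ ?_
        · have h4 : (h * w).IsHomogeneous (2 + d) := MvPolynomial.IsHomogeneous.mul hh.1 hw.1
          rw [add_comm] at h4
          exact h4
        · intro b hb
          have h4 : (b * w).IsHomogeneous (S a n - 2 - d + d) :=
            MvPolynomial.IsHomogeneous.mul hb hw.1
          have h5 : S a n - 2 - d + d = S a n - 2 := by omega
          rw [h5] at h4
          have h6 : b * (h * w) = h * (b * w) := by ring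
          rw [h6]
          exact hh.2 _ ⟨h4, I.mul_mem_left b hw.2⟩
      have u1 := (t_upl K n n f a hf.hom d (Rd K n d ⊓ I.restrictScalars K)
        inf_le_left).2.2.2.2.2.2.1 2
      have f1 := fin_le t_dimr u1.2
      have h4 := Submodule.finrank_mono h3
      omega
  obtain ⟨M, hM1, hM2, hM3⟩ := hEQ d _ b1 inf_le_left key
  refine ⟨M, hM1, hM2, hM3.trans ?_⟩
  have f1 := fin_le t_dimr
    (inf_le_left : Rd K n (d + 1) ⊓ I.restrictScalars K ≤ Rd K n (d + 1))
  have h8 := Submodule.finrank_mono (up_sub f I hfI d)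
  have h9 : hI I (d + 1) = Module.finrank K ↥(Rd K n (d + 1) ⊓ I.restrictScalars K) := rfl
  omega

end

end Pool.Agent.EGX
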