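import Pool.Agent.EGX.Targets
import Pool.Agent.EGS.P_SOK

set_option autoImplicit false
open MvPolynomial hiding R

/-!
# Project EGX, target KRO: forms of small degree killed by `g 0`
-/

namespace Pool.Agent.EGX

open Pool.Agent.EGU Pool.Agent.EGS Pool.Agent.EGT

universe u

/-- `S a m` is the full sum. -/
theorem KRO_.S_full {m : ℕ} (a : Fin m → ℕ) : S a m = ∑ i, (a i - 1) := by
  unfold S
  congr 1
  ext i
  simp

/-- The degrees of `g` are monotone. -/
theorem KRO_.mono {n : ℕ} (a : Fin (n + 1) → ℕ) (i : Fin (n + 1)) (ha : Monotone a)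
    (hp : ∀ j, 1 ≤ a j) :
    Monotone (Fin.cons 1 (fun j => a (i.succAbove j)) : Fin (n + 1) → ℕ) := by
  intro x y hxy
  induction x using Fin.cases with
  | zero =>
    induction y using Fin.cases with
    | zero => exact le_refl _
    | succ y =>
      rw [Fin.cons_zero, Fin.cons_succ]
      exact hp _
  | succ x =>
    induction y using Fin.cases with
    | zero =>
      exact absurd hxy (by simp)
    | succ y =>
      rw [Fin.cons_succ, Fin.cons_succ]
      apply ha
      have h : x ≤ y := Fin.succ_le_succ_iff.mp hxy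
      exact (Fin.strictMono_succAbove i).monotone h

theorem p_KRO : T_KRO.{u} := by
  intro K _ n f g a i hf ha hg hgf e he p hp h0
  have hsa := KRO_.S_full a
  have hsb := KRO_.S_full (Fin.cons 1 (fun j => a (i.succAbove j)) : Fin (n + 1) → ℕ)
  rw [Fin.sum_univ_succAbove _ i] at hsa
  rw [Fin.sum_univ_succ] at hsb
  simp only [Fin.cons_zero, Fin.cons_succ] at hsb
  have hnum : S (Fin.cons 1 (fun j => a (i.succAbove j)) : Fin (n + 1) → ℕ) (n + 1) <
      S a (n + 1) - e := by omega
  have hmono := KRO_.mono a i ha hf.pos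
  have hfull := (p_SOK K (n + 1) g _ hg hmono).2 _ hnum
  refine (p_SOK K (n + 1) f a hf ha).1 (S a (n + 1) - e) e (by omega) p hp ?_
  intro h hh
  have hJ : h ∈ J g := by
    have h1 : h ∈ Jd g (S a (n + 1) - e) := by
      rw [hfull]
      exact hh
    exact h1.2
  clear hh
  unfold J at hJ
  induction hJ using Submodule.span_induction with
  | mem x hx =>
    obtain ⟨j, rfl⟩ := hx
    induction j using Fin.cases with
    | zero => exact h0
    | succ j => exact Ideal.mul_mem_right _ _ (hgf j)
  | zero =>
    rw [zero_mul]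
    exact Ideal.zero_mem _
  | add x y _ _ hx hy =>
    rw [add_mul]
    exact Ideal.add_mem _ hx hy
  | smul c x _ hx =>
    rw [smul_eq_mul, mul_assoc]
    exact Ideal.mul_mem_left _ _ hx

end Pool.Agent.EGX
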