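import Pool.Agent.EGX.Targets

set_option autoImplicit false
open MvPolynomial hiding R

namespace Pool.Agent.EGX

open Pool.Agent.EGU Pool.Agent.EGS Pool.Agent.EGT

universe u

namespace NQS_

theorem mem_Std {n : ℕ} {a : Fin n → ℕ} {d : ℕ} {x : Fin n →₀ ℕ} :
    x ∈ Std a d ↔ (∑ i, x i = d) ∧ ∀ i, x i < a i := by
  simp [Std, Finset.mem_finsuppAntidiag]

theorem S_succ {n : ℕ} (a : Fin (n + 1) → ℕ) : S a (n + 1) = S a n + (a (Fin.last n) - 1) := by
  have h1 : (Finset.univ.filter (fun i : Fin (n + 1) => (i : ℕ) < n + 1)) =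
      insert (Fin.last n) (Finset.univ.filter (fun i : Fin (n + 1) => (i : ℕ) < n)) := by
    ext i
    simp only [Finset.mem_filter, Finset.mem_univ, true_and, Finset.mem_insert]
    constructor
    · intro h
      by_cases h2 : (i : ℕ) < n
      · exact Or.inr h2
      · left
        apply Fin.ext
        simp only [Fin.val_last]
        omega
    · rintro (h | h)
      · subst h; simp
      · omega
  unfold S
  rw [h1, Finset.sum_insert (by simp)]
  ring

theorem sum_add_single {n : ℕ} (y : Fin n →₀ ℕ) (j : Fin n) (c : ℕ) :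
    ∑ i, (y + Finsupp.single j c) i = (∑ i, y i) + c := by
  simp only [Finsupp.add_apply, Finset.sum_add_distrib]
  congr 1
  rw [Finset.sum_eq_single j]
  · simp
  · intro b _ hb
    simp [Finsupp.single_apply, Ne.symm hb]
  · simp

theorem last_lt {n : ℕ} {d : ℕ} {y : Fin (n + 1) →₀ ℕ} (hy : ∑ i, y i = d)
    (hne : y ≠ Finsupp.single (Fin.last n) d) : y (Fin.last n) < d := by
  rw [Fin.sum_univ_castSucc] at hy
  by_contra h
  push Not at h
  have h0 : ∑ i : Fin n, y (Fin.castSucc i) = 0 := by omega
  have h1 : y (Fin.last n) = d := by omega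
  apply hne
  ext i
  refine Fin.lastCases ?_ (fun j => ?_) i
  · rw [h1]; simp
  · have := (Finset.sum_eq_zero_iff.mp h0) j (Finset.mem_univ j)
    rw [this]
    rw [Finsupp.single_apply, if_neg (Fin.castSucc_lt_last j).ne']

end NQS_

theorem p_NQS : T_NQS := by
  classical
  intro n a ha d hd hl v hv
  obtain ⟨s1, s2, s3, s4, s5⟩ := t_sega (n + 1) a d
  obtain ⟨M, hM, hMc⟩ := s4 v hv
  refine ⟨M, hM, hMc, ?_⟩
  obtain ⟨t1, -, -, -⟩ := t_std (n + 1) a (fun i => by have := ha i; omega)
  have hcard : (Std a d).card = (Std a (d + 1)).card := by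
    apply t1
    rw [NQS_.S_succ, hl]
    omega
  set Y := (Std a d \ M).erase (Finsupp.single (Fin.last n) d) with hY
  have hYc : (Std a d).card ≤ Y.card + v + 1 := by
    have h1 : (Std a d \ M).card + M.card = (Std a d).card :=
      Finset.card_sdiff_add_card_eq_card hM.1
    have h2 : (Std a d \ M).card ≤ Y.card + 1 := by
      rw [hY]
      have := Finset.pred_card_le_card_erase (s := Std a d \ M)
        (a := Finsupp.single (Fin.last n) d)
      omega
    omega
  have hinj : Set.InjOn (fun y : Fin (n + 1) →₀ ℕ => y + Finsupp.single (Fin.last n) 1)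
      (Y : Set (Fin (n + 1) →₀ ℕ)) := by
    intro x _ y _ hxy
    exact add_right_cancel hxy
  have hmaps : Y.image (fun y : Fin (n + 1) →₀ ℕ => y + Finsupp.single (Fin.last n) 1) ⊆
      Std a (d + 1) \ shadow a d M := by
    intro x hx
    rw [Finset.mem_image] at hx
    obtain ⟨y, hy, rfl⟩ := hx
    rw [hY, Finset.mem_erase, Finset.mem_sdiff] at hy
    obtain ⟨hne, hyS, hyM⟩ := hy
    have hyS' := NQS_.mem_Std.mp hyS
    have hlt := NQS_.last_lt hyS'.1 hne
    rw [Finset.mem_sdiff]
    constructor
    · rw [NQS_.mem_Std]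
      refine ⟨by rw [NQS_.sum_add_single, hyS'.1], fun i => ?_⟩
      by_cases hi : i = Fin.last n
      · subst hi
        simp only [Finsupp.add_apply, Finsupp.single_eq_same]
        omega
      · rw [Finsupp.add_apply, Finsupp.single_apply, if_neg (Ne.symm hi)]
        have := hyS'.2 i
        omega
    · intro hsh
      obtain ⟨-, z, hzM, hz⟩ := Finset.mem_filter.mp hsh
      have hzS := NQS_.mem_Std.mp (hM.1 hzM)
      have hzy : y ≠ z := fun h => hyM (h ▸ hzM)
      rcases s1 y z hzy with h | h
      · exact hyM (hM.2 z hzM y hyS h)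
      · obtain ⟨j, hj1, hj2⟩ := h
        have hjl : j = Fin.last n := by
          by_contra hjne
          have := hz j
          rw [Finsupp.add_apply, Finsupp.single_apply, if_neg (Ne.symm hjne)] at this
          omega
        subst hjl
        have e1 := hzS.1
        have e2 := hyS'.1
        rw [Fin.sum_univ_castSucc] at e1 e2
        have e3 : ∑ i : Fin n, z (Fin.castSucc i) = ∑ i : Fin n, y (Fin.castSucc i) := by
          apply Finset.sum_congr rfl
          intro i _
          exact (hj1 _ (Fin.castSucc_lt_last i)).symm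
        omega
  have h3 := Finset.card_le_card hmaps
  rw [Finset.card_image_of_injOn hinj] at h3
  have h4 : (Std a (d + 1) \ shadow a d M).card + (shadow a d M).card = (Std a (d + 1)).card :=
    Finset.card_sdiff_add_card_eq_card (Finset.filter_subset _ _)
  omega

end Pool.Agent.EGX
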