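import Pool.Agent.EGX.Targets

/-!
# Project EGX: no stable subspaces
-/

set_option autoImplicit false
open MvPolynomial hiding R

namespace Pool.Agent.EGX

open Pool.Agent.EGU Pool.Agent.EGS Pool.Agent.EGT

universe u

namespace NST_

variable {K : Type u} [Field K] {n : ℕ} {f : Fin n → R K (n + 1)} {a : Fin n → ℕ}
  {l : R K (n + 1)} {θ : R K (n + 1) →ₐ[K] R K n}

theorem one (ha : Monotone a) (hL : Lin f a l θ) {k : ℕ} (hk : k < S a n)
    {p : R K (n + 1)} (hp : p ∈ Rd K (n + 1) k)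
    (h : ∀ x ∈ Rd K (n + 1) 1, ∃ q, x * p - l * q ∈ J f) : ∃ q, p - l * q ∈ J f := by
  rw [← hL.mem p]
  refine (t_soc a_l1 t_num) K n (fun i => θ (f i)) a hL.ci ha k (θ p) (hL.deg k p hp) hk ?_
  intro j
  obtain ⟨x, hx, hxj⟩ := hL.sur 1 (X j)
    ((mem_homogeneousSubmodule _ _).2 (isHomogeneous_X K j))
  rw [← hxj, ← map_mul]
  exact (hL.mem (x * p)).2 (h x hx)

theorem zer (hf : CI f a) (hL : Lin f a l θ) {p : R K (n + 1)} (hp : p ∈ Rd K (n + 1) 0)
    (h : ∃ q, p - l * q ∈ J f) : p ∈ J f := by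
  obtain ⟨q, hq⟩ := h
  have h1 := (t_jd K (n + 1) n f a hf.hom).2 _ hq 0
  rw [map_sub, homogeneousComponent_eq_self hp, mul_comm l q,
    JD_homComp_mul q l 1 ((mem_homogeneousSubmodule _ _).1 hL.lin) 0, if_neg (by omega),
    zero_mul, sub_zero] at h1
  exact h1

theorem suc (hf : CI f a) (hL : Lin f a l θ) {k : ℕ} {p : R K (n + 1)}
    (hp : p ∈ Rd K (n + 1) (k + 1)) (h : ∃ q, p - l * q ∈ J f) :
    ∃ q ∈ Rd K (n + 1) k, p - l * q ∈ Jd f (k + 1) := by
  obtain ⟨q, hq⟩ := h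
  have h1 := (t_jd K (n + 1) n f a hf.hom).2 _ hq (k + 1)
  rw [map_sub, homogeneousComponent_eq_self hp, mul_comm l q,
    JD_homComp_mul q l 1 ((mem_homogeneousSubmodule _ _).1 hL.lin) (k + 1), if_pos (by omega),
    Nat.add_sub_cancel, mul_comm _ l] at h1
  refine ⟨homogeneousComponent k q, homogeneousComponent_mem _ _, ?_, h1⟩
  refine Submodule.sub_mem _ hp ?_
  rw [mem_homogeneousSubmodule]
  have h2 := ((mem_homogeneousSubmodule _ _).1 hL.lin).mul (homogeneousComponent_isHomogeneous k q)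
  rwa [add_comm 1 k] at h2

theorem main (hf : CI f a) (ha : Monotone a) (hL : Lin f a l θ) : ∀ k, k < S a n →
    ∀ N : Submodule K (R K (n + 1)), Jd f k ≤ N → N ≤ Rd K (n + 1) k →
    (∀ x ∈ Rd K (n + 1) 1, ∀ p ∈ N, ∃ q ∈ N, x * p - l * q ∈ J f) → N ≤ Jd f k := by
  intro k
  induction k with
  | zero =>
    intro hk N _ h2 h3 p hp
    refine ⟨h2 hp, zer hf hL (h2 hp) (one ha hL hk (h2 hp) fun x hx => ?_)⟩
    obtain ⟨q, -, hq⟩ := h3 x hx p hp
    exact ⟨q, hq⟩
  | succ k ih =>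
    intro hk N h1 h2 h3
    have h4 : ∀ p ∈ N, ∃ q ∈ Rd K (n + 1) k, l * q ∈ N ∧ p - l * q ∈ J f := by
      intro p hp
      obtain ⟨q, hq1, hq2⟩ := suc hf hL (h2 hp) (one ha hL hk (h2 hp) fun x hx => by
        obtain ⟨q, -, hq⟩ := h3 x hx p hp
        exact ⟨q, hq⟩)
      refine ⟨q, hq1, ?_, hq2.2⟩
      have h5 := N.sub_mem hp (h1 hq2)
      rwa [sub_sub_cancel] at h5
    have h5 := ih (by omega) (Rd K (n + 1) k ⊓ N.comap (LinearMap.mulLeft K l)) ?_ inf_le_left ?_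
    · intro p hp
      refine ⟨h2 hp, ?_⟩
      obtain ⟨q, hq1, hq2, hq3⟩ := h4 p hp
      have h6 : q ∈ J f := (h5 ⟨hq1, hq2⟩).2
      have h7 := (J f).add_mem hq3 ((J f).mul_mem_left l h6)
      rwa [sub_add_cancel] at h7
    · intro q hq
      refine ⟨hq.1, h1 ⟨?_, ?_⟩⟩
      · change l * q ∈ Rd K (n + 1) (k + 1)
        rw [mem_homogeneousSubmodule]
        have h6 := ((mem_homogeneousSubmodule _ _).1 hL.lin).mul
          ((mem_homogeneousSubmodule _ _).1 hq.1)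
        rwa [add_comm 1 k] at h6
      · exact (J f).mul_mem_left l hq.2
    · intro x hx q hq
      obtain ⟨p, hp1, hp2⟩ := h3 x hx (l * q) hq.2
      have h6 : l * (x * q - p) ∈ J f := by
        have : l * (x * q - p) = x * (l * q) - l * p := by ring
        rw [this]
        exact hp2
      have h7 := hL.nzd _ h6
      obtain ⟨q', h8, h9, h10⟩ := h4 p hp1
      refine ⟨q', ⟨h8, h9⟩, ?_⟩
      have h11 := (J f).add_mem h7 h10
      have : x * q - l * q' = x * q - p + (p - l * q') := by ring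
      rw [this]
      exact h11

end NST_

theorem p_NST : T_NST.{u} := by
  intro K _ n f a hf ha l θ hL
  exact NST_.main hf ha hL

end Pool.Agent.EGX
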