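import Pool.Agent.EGX.Targets

set_option autoImplicit false
open MvPolynomial hiding R

/-! # EGX: nonzerodivisors in degree `d + 1` (NZC) -/

namespace Pool.Agent.EGX

open Pool.Agent.EGU Pool.Agent.EGS Pool.Agent.EGT

universe u

namespace NZC_

/-- The ideal of the `f i`, `i < j`. -/
noncomputable def JJ {K : Type u} [Field K] {n : ℕ} (f : Fin n → R K n) (j : ℕ) : Ideal (R K n) :=
  Ideal.span (f '' {i : Fin n | (i : ℕ) < j})

section
variable {K : Type u} [Field K] {n : ℕ} {f : Fin n → R K n} {a : Fin n → ℕ}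

theorem JJ_castLE (f : Fin n → R K n) (r : ℕ) (hr : r ≤ n) :
    J (f ∘ Fin.castLE hr) = JJ f r := by
  unfold J JJ
  congr 1
  ext x
  constructor
  · rintro ⟨i, rfl⟩
    exact ⟨Fin.castLE hr i, i.2, rfl⟩
  · rintro ⟨i, hi, rfl⟩
    exact ⟨⟨i, hi⟩, rfl⟩

theorem JJ_top (f : Fin n → R K n) : J f = JJ f n := by
  have h := JJ_castLE f n le_rfl
  rw [← h]
  rfl

theorem JJ_mono (f : Fin n → R K n) {i j : ℕ} (h : i ≤ j) : JJ f i ≤ JJ f j :=
  Ideal.span_mono (Set.image_mono fun _ hk => lt_of_lt_of_le hk h)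

theorem JJ_succ (f : Fin n → R K n) (j : Fin n) :
    JJ f (j + 1) = JJ f j ⊔ Ideal.span {f j} := by
  unfold JJ
  rw [← Ideal.span_union]
  congr 1
  ext x
  constructor
  · rintro ⟨i, hi, rfl⟩
    have hi' : (i : ℕ) < j + 1 := hi
    by_cases h : (i : ℕ) < j
    · exact Or.inl ⟨i, h, rfl⟩
    · right
      have : i = j := Fin.ext (by omega)
      rw [this]
      rfl
  · rintro (⟨i, hi, rfl⟩ | hx)
    · exact ⟨i, Nat.lt_succ_of_lt hi, rfl⟩
    · rw [Set.mem_singleton_iff] at hx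
      exact ⟨j, Nat.lt_succ_self _, hx.symm⟩

theorem JJ_reg (hf : CI f a) (j : Fin n) (p : R K n) (h : p * f j ∈ JJ f j) : p ∈ JJ f j :=
  hf.reg j p h

theorem JJ_comp (hf : CI f a) (j : ℕ) (hj : j ≤ n) (p : R K n) (h : p ∈ JJ f j) (e : ℕ) :
    homogeneousComponent e p ∈ JJ f j := by
  rw [← JJ_castLE f j hj] at h ⊢
  exact (t_jd K n j (f ∘ Fin.castLE hj) (a ∘ Fin.castLE hj) (fun i => hf.hom _)).2 p h e

/-- A form in `JJ f (j + 1)`. -/
theorem JJ_split (hf : CI f a) (j : Fin n) (e : ℕ) (p : R K n) (hp : p.IsHomogeneous e)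
    (h : p ∈ JJ f (j + 1)) : p ∈ JJ f j ∨
    (a j ≤ e ∧ ∃ q : R K n, q.IsHomogeneous (e - a j) ∧ p - q * f j ∈ JJ f j) := by
  rw [JJ_succ, Submodule.mem_sup] at h
  obtain ⟨s, hs, t, ht, hst⟩ := h
  rw [Ideal.mem_span_singleton'] at ht
  obtain ⟨q, rfl⟩ := ht
  have h1 : homogeneousComponent e p = p := homogeneousComponent_eq_self hp
  rw [← hst, map_add, JD_homComp_mul q (f j) (a j) (hf.hom j) e] at h1
  have h2 := JJ_comp hf j j.2.le s hs e
  by_cases hj : a j ≤ e
  · right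
    refine ⟨hj, homogeneousComponent (e - a j) q, homogeneousComponent_isHomogeneous _ _, ?_⟩
    rw [if_pos hj] at h1
    rw [← hst]
    have h3 : s + q * f j - homogeneousComponent (e - a j) q * f j =
        homogeneousComponent e s + (s + q * f j - (homogeneousComponent e s +
          homogeneousComponent (e - a j) q * f j)) := by ring
    rw [h3, h1, sub_self, add_zero]
    exact h2
  · left
    rw [if_neg hj, zero_mul, add_zero] at h1
    rw [← hst, ← h1]
    exact h2

/-- The step downwards for forms. -/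
theorem step_hom (hf : CI f a) (j : Fin n) (h : R K n)
    (H : ∀ p, h * p ∈ JJ f (j + 1) → p ∈ JJ f (j + 1)) :
    ∀ (e : ℕ) (p : R K n), p.IsHomogeneous e → h * p ∈ JJ f j → p ∈ JJ f j := by
  intro e
  induction e using Nat.strong_induction_on with
  | _ e ih =>
    intro p hp hhp
    have h1 := H p (JJ_mono f (Nat.le_succ _) hhp)
    rcases JJ_split hf j e p hp h1 with h2 | ⟨hj, q, hq, h2⟩
    · exact h2
    · have h3 : (h * q) * f j ∈ JJ f j := by
        have h4 : (h * q) * f j = h * p - h * (p - q * f j) := by ring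
        rw [h4]
        exact Ideal.sub_mem _ hhp (Ideal.mul_mem_left _ _ h2)
      have h5 := JJ_reg hf j _ h3
      have h6 := ih (e - a j) (by have := hf.pos j; omega) q hq h5
      have h7 : p = (p - q * f j) + q * f j := by ring
      rw [h7]
      exact Ideal.add_mem _ h2 (Ideal.mul_mem_right _ _ h6)

theorem step (hf : CI f a) (j : Fin n) (D : ℕ) (h : R K n) (hh : h.IsHomogeneous D)
    (H : ∀ p, h * p ∈ JJ f (j + 1) → p ∈ JJ f (j + 1)) :
    ∀ p : R K n, h * p ∈ JJ f j → p ∈ JJ f j := by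
  intro p hp
  rw [← sum_homogeneousComponent p]
  refine Ideal.sum_mem _ fun e _ => ?_
  refine step_hom hf j h H e _ (homogeneousComponent_isHomogeneous _ _) ?_
  have h1 := JJ_comp hf j j.2.le _ hp (e + D)
  rw [mul_comm h p, JD_homComp_mul p h D hh (e + D), if_pos (Nat.le_add_left _ _),
    Nat.add_sub_cancel] at h1
  rw [mul_comm]
  exact h1

end

end NZC_

open NZC_

/-- NZC: nonzerodivisors in degree `d + 1`. -/
theorem p_NZC : T_NZC.{u} := by
  intro K _ n f a hf r hr d ha h hh hJ hnJ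
  rw [JJ_castLE] at hnJ
  rw [JJ_top] at hJ
  have hh' : h.IsHomogeneous (d + 1) := hh
  -- the largest index
  have hex : ∃ j, j ≤ n ∧ h ∈ JJ f j := ⟨n, le_rfl, hJ⟩
  classical
  obtain ⟨hj1, hj2⟩ := Nat.find_spec hex
  have hmin : ∀ k, k < Nat.find hex → ¬ (k ≤ n ∧ h ∈ JJ f k) := fun k hk => Nat.find_min hex hk
  generalize Nat.find hex = N at hj1 hj2 hmin
  have hrN : r < N := by
    by_contra hc
    exact hnJ (JJ_mono f (not_lt.mp hc) hj2)
  obtain ⟨m, rfl⟩ : ∃ m, N = m + 1 := ⟨N - 1, by omega⟩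
  have hmn : m < n := by omega
  have hm : h ∉ JJ f m := fun hc => hmin m (Nat.lt_succ_self _) ⟨hmn.le, hc⟩
  -- modulo `J_m`
  have key : ∀ p, h * p ∈ JJ f m → p ∈ JJ f m := by
    rcases JJ_split hf ⟨m, hmn⟩ (d + 1) h hh' hj2 with h1 | ⟨h1, q, hq, h2⟩
    · exact absurd h1 hm
    · have h3 : a ⟨m, hmn⟩ = d + 1 := le_antisymm h1 (ha ⟨m, hmn⟩ (by simp; omega))
      rw [h3, Nat.sub_self] at hq
      obtain ⟨c, hc⟩ : ∃ c : K, q = C c := by
        refine ⟨coeff 0 q, ?_⟩
        have := totalDegree_eq_zero_iff_eq_C (p := q)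
        rw [← this]
        exact Nat.le_zero.mp hq.totalDegree_le
      have hc0 : c ≠ 0 := by
        rintro rfl
        rw [hc, map_zero, zero_mul, sub_zero] at h2
        exact hm h2
      intro p hp
      apply JJ_reg hf ⟨m, hmn⟩
      have h4 : p * f ⟨m, hmn⟩ = C c⁻¹ * (h * p - (h - q * f ⟨m, hmn⟩) * p) := by
        have h5 : (C c⁻¹ : R K n) * C c = 1 := by
          rw [← C_mul, inv_mul_cancel₀ hc0, C_1]
        rw [hc]
        linear_combination (-(p * f ⟨m, hmn⟩)) * h5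
      rw [h4]
      exact Ideal.mul_mem_left _ _ (Ideal.sub_mem _ hp (Ideal.mul_mem_right _ _ h2))
  -- downwards
  have down : ∀ k, r ≤ k → k ≤ m → ∀ p, h * p ∈ JJ f k → p ∈ JJ f k := by
    intro k hrk hkm
    induction hkm using Nat.decreasingInduction with
    | self => exact key
    | of_succ k hk ih =>
      exact step hf ⟨k, by omega⟩ (d + 1) h hh' (ih (by omega))
  intro p hp
  rw [JJ_castLE] at hp ⊢
  exact down r le_rfl (by omega) p hp

end Pool.Agent.EGX
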