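import Pool.Agent.EGX.Targets

set_option autoImplicit false
open MvPolynomial hiding R

/-!
# EGX, job OPA: small growth, the two alternatives
-/

namespace Pool.Agent.EGX

open Pool.Agent.EGU Pool.Agent.EGS Pool.Agent.EGT

universe u

namespace OPA_

/-- The exchange relation (1). -/
theorem exch {K A : Type u} [Field K] [CommRing A] [Algebra K A] (I : Ideal A) (l : A)
    (R1 W U : Submodule K A) (φ : A →ₗ[K] K) (u0 : A)
    (hWU : ∀ x ∈ R1, ∀ w ∈ W, x * w ∈ U)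
    (hU : ∀ u ∈ U, ∃ w ∈ W, u - l * w - φ u • u0 ∈ I) :
    ∀ x ∈ R1, ∀ y ∈ R1, ∀ w ∈ W,
      ∃ q ∈ U, φ (y * w) • (x * u0) - φ (x * w) • (y * u0) - l * q ∈ I := by
  intro x hx y hy w hw
  obtain ⟨w1, hw1, h1⟩ := hU (y * w) (hWU y hy w hw)
  obtain ⟨w2, hw2, h2⟩ := hU (x * w) (hWU x hx w hw)
  refine ⟨y * w2 - x * w1, U.sub_mem (hWU y hy w2 hw2) (hWU x hx w1 hw1), ?_⟩
  have h3 : y * (x * w - l * w2 - φ (x * w) • u0) - x * (y * w - l * w1 - φ (y * w) • u0) ∈ I :=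
    I.sub_mem (I.mul_mem_left _ h2) (I.mul_mem_left _ h1)
  have h4 : φ (y * w) • (x * u0) - φ (x * w) • (y * u0) - l * (y * w2 - x * w1) =
      y * (x * w - l * w2 - φ (x * w) • u0) - x * (y * w - l * w1 - φ (y * w) • u0) := by
    simp only [Algebra.smul_def]
    ring
  rw [h4]
  exact h3

/-- The space `Λ`. -/
def Lam {K A : Type u} [Field K] [CommRing A] [Algebra K A] (I : Ideal A) (l : A)
    (R1 U : Submodule K A) (u0 : A) : Submodule K A where
  carrier := {x | x ∈ R1 ∧ ∃ q ∈ U, x * u0 - l * q ∈ I}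
  add_mem' := by
    rintro x y ⟨hx, q, hq, hq'⟩ ⟨hy, r, hr, hr'⟩
    refine ⟨R1.add_mem hx hy, q + r, U.add_mem hq hr, ?_⟩
    have h1 : (x + y) * u0 - l * (q + r) = (x * u0 - l * q) + (y * u0 - l * r) := by ring
    rw [h1]
    exact I.add_mem hq' hr'
  zero_mem' := ⟨R1.zero_mem, 0, U.zero_mem, by simp⟩
  smul_mem' := by
    rintro c x ⟨hx, q, hq, hq'⟩
    refine ⟨R1.smul_mem c hx, c • q, U.smul_mem c hq, ?_⟩
    have h1 : (c • x) * u0 - l * (c • q) = algebraMap K A c * (x * u0 - l * q) := by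
      simp only [Algebra.smul_def]
      ring
    rw [h1]
    exact I.mul_mem_left _ hq'

theorem mem_Lam {K A : Type u} [Field K] [CommRing A] [Algebra K A] {I : Ideal A} {l : A}
    {R1 U : Submodule K A} {u0 x : A} :
    x ∈ Lam I l R1 U u0 ↔ x ∈ R1 ∧ ∃ q ∈ U, x * u0 - l * q ∈ I := Iff.rfl

/-- `{w ∈ W : ξ w ∈ I}`. -/
def Nk {K A : Type u} [Field K] [CommRing A] [Algebra K A] (I : Ideal A)
    (W : Submodule K A) (ξ : A) : Submodule K A where
  carrier := {w | w ∈ W ∧ ξ * w ∈ I}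
  add_mem' := by
    rintro x y ⟨hx, hx'⟩ ⟨hy, hy'⟩
    refine ⟨W.add_mem hx hy, ?_⟩
    rw [mul_add]
    exact I.add_mem hx' hy'
  zero_mem' := ⟨W.zero_mem, by simp⟩
  smul_mem' := by
    rintro c x ⟨hx, hx'⟩
    refine ⟨W.smul_mem c hx, ?_⟩
    rw [mul_smul_comm, Algebra.smul_def]
    exact I.mul_mem_left _ hx'

theorem mem_Nk {K A : Type u} [Field K] [CommRing A] [Algebra K A] {I : Ideal A}
    {W : Submodule K A} {ξ w : A} : w ∈ Nk I W ξ ↔ w ∈ W ∧ ξ * w ∈ I := Iff.rfl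

/-- `{w ∈ W : ξ v ≡ l w for some v ∈ W}`. -/
def Nm {K A : Type u} [Field K] [CommRing A] [Algebra K A] (I : Ideal A) (l : A)
    (W : Submodule K A) (ξ : A) : Submodule K A where
  carrier := {w | w ∈ W ∧ ∃ v ∈ W, ξ * v - l * w ∈ I}
  add_mem' := by
    rintro x y ⟨hx, q, hq, hq'⟩ ⟨hy, r, hr, hr'⟩
    refine ⟨W.add_mem hx hy, q + r, W.add_mem hq hr, ?_⟩
    have h1 : ξ * (q + r) - l * (x + y) = (ξ * q - l * x) + (ξ * r - l * y) := by ring
    rw [h1]
    exact I.add_mem hq' hr'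
  zero_mem' := ⟨W.zero_mem, 0, W.zero_mem, by simp⟩
  smul_mem' := by
    rintro c x ⟨hx, q, hq, hq'⟩
    refine ⟨W.smul_mem c hx, c • q, W.smul_mem c hq, ?_⟩
    have h1 : ξ * (c • q) - l * (c • x) = algebraMap K A c * (ξ * q - l * x) := by
      simp only [Algebra.smul_def]
      ring
    rw [h1]
    exact I.mul_mem_left _ hq'

theorem mem_Nm {K A : Type u} [Field K] [CommRing A] [Algebra K A] {I : Ideal A} {l : A}
    {W : Submodule K A} {ξ w : A} :
    w ∈ Nm I l W ξ ↔ w ∈ W ∧ ∃ v ∈ W, ξ * v - l * w ∈ I := Iff.rfl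

theorem core {K A : Type u} [Field K] [CommRing A] [Algebra K A] (I : Ideal A) (l : A)
    (R1 W U B0 : Submodule K A) (φ : A →ₗ[K] K) (u0 : A) (hl : l ∈ R1)
    (nzd : ∀ p, l * p ∈ I → p ∈ I)
    (hWU : ∀ x ∈ R1, ∀ w ∈ W, x * w ∈ U)
    (hU : ∀ u ∈ U, ∃ w ∈ W, u - l * w - φ u • u0 ∈ I)
    (hu0 : u0 ∈ U) (hφ0 : φ u0 = 1)
    (hφU : (∀ x ∈ R1, ∀ w ∈ W, φ (x * w) = 0) → φ u0 = 0)
    (hB0W : B0 ≤ W) (hB0I : ∀ p ∈ B0, p ∈ I)
    (hNST : ∀ N : Submodule K A, B0 ≤ N → N ≤ W →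
      (∀ x ∈ R1, ∀ p ∈ N, ∃ q ∈ N, x * p - l * q ∈ I) → ∀ p ∈ N, p ∈ I)
    (heig : ∀ x ∈ R1, (∀ w ∈ W, ∃ w' ∈ W, x * w - l * w' ∈ I) →
      ∃ c : K, ∃ w ∈ W, w ∉ I ∧ (x - c • l) * w ∈ I)
    (hdim : ∀ L : Submodule K A, (∃ z ∈ R1, R1 ≤ L ⊔ Submodule.span K {z}) →
      ∃ x ∈ L, ∀ c : K, x ≠ c • l) :
    (∀ x ∈ R1, ∀ p ∈ U, ∃ q ∈ U, x * p - l * q ∈ I) ∨
    ∃ ξ ∈ R1, ξ ≠ 0 ∧ ∀ p ∈ U, ξ * p ∈ I := by
  have h1 := exch I l R1 W U φ u0 hWU hU
  by_cases hL : R1 ≤ Lam I l R1 U u0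
  · -- first alternative
    left
    intro x hx p hp
    obtain ⟨-, q, hq, hq'⟩ := mem_Lam.1 (hL hx)
    obtain ⟨w, hw, hw'⟩ := hU p hp
    refine ⟨x * w + φ p • q, U.add_mem (hWU x hx w hw) (U.smul_mem _ hq), ?_⟩
    have h2 : x * p - l * (x * w + φ p • q) =
        x * (p - l * w - φ p • u0) + algebraMap K A (φ p) * (x * u0 - l * q) := by
      simp only [Algebra.smul_def]
      ring
    rw [h2]
    exact I.add_mem (I.mul_mem_left _ hw') (I.mul_mem_left _ hq')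
  right
  obtain ⟨z, hz, hzL⟩ := SetLike.not_le_iff_exists.1 hL
  -- a multiple of `z` in `Λ` is zero
  have hzero : ∀ t : K, t • z ∈ Lam I l R1 U u0 → t = 0 := by
    intro t ht
    by_contra hne
    apply hzL
    have h2 := (Lam I l R1 U u0).smul_mem t⁻¹ ht
    rwa [smul_smul, inv_mul_cancel₀ hne, one_smul] at h2
  -- there is `w1`
  have h2 : ∃ x ∈ R1, ∃ w ∈ W, φ (x * w) ≠ 0 := by
    by_contra hcon
    push Not at hcon
    have := hφU hcon
    rw [hφ0] at this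
    exact one_ne_zero this
  obtain ⟨x1, hx1, w1, hw1, hne1⟩ := h2
  -- combination in `Λ`
  have h3 : ∀ x ∈ R1, ∀ w ∈ W, φ (z * w) • x - φ (x * w) • z ∈ Lam I l R1 U u0 := by
    intro x hx w hw
    refine mem_Lam.2 ⟨R1.sub_mem (R1.smul_mem _ hx) (R1.smul_mem _ hz), ?_⟩
    obtain ⟨q, hq, hq'⟩ := h1 x hx z hz w hw
    refine ⟨q, hq, ?_⟩
    rw [sub_mul, smul_mul_assoc, smul_mul_assoc]
    exact hq'
  have hzw1 : φ (z * w1) ≠ 0 := by
    intro h0
    have h4 := h3 x1 hx1 w1 hw1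
    rw [h0, zero_smul, zero_sub, ← neg_smul] at h4
    have h5 := hzero _ h4
    exact hne1 (neg_eq_zero.1 h5)
  -- elements of `Λ`
  have h4 : ∀ x ∈ Lam I l R1 U u0, ∀ w ∈ W, φ (x * w) = 0 := by
    intro x hx w hw
    have h5 := h3 x (mem_Lam.1 hx).1 w hw
    have h6 := (Lam I l R1 U u0).sub_mem h5 ((Lam I l R1 U u0).smul_mem (φ (z * w)) hx)
    have h7 : φ (z * w) • x - φ (x * w) • z - φ (z * w) • x = (-φ (x * w)) • z := by
      rw [neg_smul]
      abel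
    rw [h7] at h6
    exact neg_eq_zero.1 (hzero _ h6)
  have h5 : ∀ x ∈ Lam I l R1 U u0, ∀ w ∈ W, ∃ w' ∈ W, x * w - l * w' ∈ I := by
    intro x hx w hw
    obtain ⟨w', hw', h6⟩ := hU (x * w) (hWU x (mem_Lam.1 hx).1 w hw)
    refine ⟨w', hw', ?_⟩
    rwa [h4 x hx w hw, zero_smul, sub_zero] at h6
  have hlL : l ∈ Lam I l R1 U u0 :=
    mem_Lam.2 ⟨hl, u0, hu0, by rw [sub_self]; exact I.zero_mem⟩
  -- an element of `Λ` which is not a multiple of `l`
  obtain ⟨x, hx, hxl⟩ := hdim (Lam I l R1 U u0) ⟨z, hz, by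
    intro y hy
    have h6 := h3 y hy w1 hw1
    rw [Submodule.mem_sup]
    refine ⟨(φ (z * w1))⁻¹ • (φ (z * w1) • y - φ (y * w1) • z),
      (Lam I l R1 U u0).smul_mem _ h6, ((φ (z * w1))⁻¹ * φ (y * w1)) • z,
      Submodule.smul_mem _ _ (Submodule.mem_span_singleton_self z), ?_⟩
    rw [smul_sub, smul_smul, smul_smul, inv_mul_cancel₀ hzw1, one_smul]
    abel⟩
  obtain ⟨c, w, hw, hwI, hcw⟩ := heig x (mem_Lam.1 hx).1 (h5 x hx)
  set ξ : A := x - c • l with hξ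
  have hξL : ξ ∈ Lam I l R1 U u0 :=
    (Lam I l R1 U u0).sub_mem hx ((Lam I l R1 U u0).smul_mem c hlL)
  have hξ0 : ξ ≠ 0 := by
    intro h0
    exact hxl c (sub_eq_zero.1 h0)
  refine ⟨ξ, (mem_Lam.1 hξL).1, hξ0, ?_⟩
  -- (4a)
  have h6 : ∃ e ∈ U, ξ * e ∈ I ∧ φ e ≠ 0 := by
    by_contra hcon
    push Not at hcon
    apply hwI
    refine hNST (Nk I W ξ) ?_ ?_ ?_ w (mem_Nk.2 ⟨hw, hcw⟩)
    · intro p hp
      exact mem_Nk.2 ⟨hB0W hp, I.mul_mem_left _ (hB0I p hp)⟩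
    · intro p hp
      exact (mem_Nk.1 hp).1
    · intro y hy p hp
      obtain ⟨hp1, hp2⟩ := mem_Nk.1 hp
      have h7 : y * p ∈ U := hWU y hy p hp1
      have h8 : ξ * (y * p) ∈ I := by
        have : ξ * (y * p) = y * (ξ * p) := by ring
        rw [this]
        exact I.mul_mem_left _ hp2
      have h9 := hcon (y * p) h7 h8
      obtain ⟨w', hw', h10⟩ := hU (y * p) h7
      rw [h9, zero_smul, sub_zero] at h10
      refine ⟨w', mem_Nk.2 ⟨hw', ?_⟩, h10⟩
      apply nzd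
      have h11 : l * (ξ * w') = ξ * (y * p) - ξ * (y * p - l * w') := by ring
      rw [h11]
      exact I.sub_mem h8 (I.mul_mem_left _ h10)
  obtain ⟨e, he, heI, hφe⟩ := h6
  -- (4b)
  have h7 : ∀ u ∈ U, ∃ v ∈ W, ∃ w' ∈ W, ξ * v - l * w' ∈ I ∧ ξ * u - l * (l * w') ∈ I := by
    intro u hu
    -- `u - t e` has `φ = 0`
    set t : K := φ u * (φ e)⁻¹ with ht
    have h8 : u - t • e ∈ U := U.sub_mem hu (U.smul_mem _ he)
    have h9 : φ (u - t • e) = 0 := by
      rw [map_sub, map_smul, smul_eq_mul, ht, mul_assoc, inv_mul_cancel₀ hφe, mul_one, sub_self]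
    obtain ⟨v, hv, h10⟩ := hU _ h8
    rw [h9, zero_smul, sub_zero] at h10
    obtain ⟨w', hw', h11⟩ := h5 ξ hξL v hv
    refine ⟨v, hv, w', hw', h11, ?_⟩
    have h12 : ξ * u - l * (l * w') = ξ * (u - t • e - l * v) + algebraMap K A t * (ξ * e) +
        l * (ξ * v - l * w') := by
      simp only [Algebra.smul_def]
      ring
    rw [h12]
    exact I.add_mem (I.add_mem (I.mul_mem_left _ h10) (I.mul_mem_left _ heI))
      (I.mul_mem_left _ h11)
  have h8 : ∀ p ∈ Nm I l W ξ, p ∈ I := by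
    refine hNST (Nm I l W ξ) ?_ ?_ ?_
    · intro p hp
      refine mem_Nm.2 ⟨hB0W hp, 0, W.zero_mem, ?_⟩
      rw [mul_zero, zero_sub]
      exact I.neg_mem (I.mul_mem_left _ (hB0I p hp))
    · intro p hp
      exact (mem_Nm.1 hp).1
    · intro y hy p hp
      obtain ⟨hp1, v, hv, hv'⟩ := mem_Nm.1 hp
      obtain ⟨v', hv', w', hw', h9, h10⟩ := h7 (y * v) (hWU y hy v hv)
      refine ⟨w', mem_Nm.2 ⟨hw', v', hv', h9⟩, ?_⟩
      apply nzd
      have h11 : l * (y * p - l * w') =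
          (ξ * (y * v) - l * (l * w')) - y * (ξ * v - l * p) := by ring
      rw [h11]
      refine I.sub_mem h10 (I.mul_mem_left _ ?_)
      assumption
  intro u hu
  obtain ⟨v, hv, w', hw', h9, h10⟩ := h7 u hu
  have h11 : w' ∈ I := h8 w' (mem_Nm.2 ⟨hw', v, hv, h9⟩)
  have h12 : ξ * u = (ξ * u - l * (l * w')) + l * (l * w') := by ring
  rw [h12]
  exact I.add_mem h10 (I.mul_mem_left _ (I.mul_mem_left _ h11))

/-- The eigenvector. -/
theorem eig {K : Type u} [Field K] [IsAlgClosed K] {A : Type u} [CommRing A] [Algebra K A]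
    (I : Ideal A) (l x : A) (W B0 : Submodule K A) [Module.Finite K W]
    (hB0 : ∀ p ∈ W, p ∈ I ↔ p ∈ B0) (hne : ¬ W ≤ B0)
    (nzd : ∀ p, l * p ∈ I → p ∈ I)
    (hx : ∀ w ∈ W, ∃ w' ∈ W, x * w - l * w' ∈ I) :
    ∃ c : K, ∃ w ∈ W, w ∉ I ∧ (x - c • l) * w ∈ I := by
  by_contra hcon
  push Not at hcon
  apply hne
  have key := EIG_aux (K := K) (E2 := W) (E1 := A) ⊤ (B0.comap W.subtype)
    ((W.map (LinearMap.mulLeft K l)) ⊔ I.restrictScalars K) (I.restrictScalars K)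
    ((LinearMap.mulLeft K x) ∘ₗ W.subtype) ((LinearMap.mulLeft K l) ∘ₗ W.subtype) le_top
    ?_ ?_ ?_ ?_ ?_
  · intro w hw
    have h1 : (⟨w, hw⟩ : W) ∈ (⊤ : Submodule K W) := Submodule.mem_top
    rw [key] at h1
    exact h1
  · rintro ⟨w, hw⟩ -
    refine ⟨?_, ?_⟩
    · obtain ⟨w', hw', h1⟩ := hx w hw
      have h2 : x * w = l * w' + (x * w - l * w') := by ring
      change x * w ∈ _
      rw [h2]
      exact Submodule.add_mem_sup ⟨w', hw', rfl⟩ h1
    · exact Submodule.mem_sup_left ⟨w, hw, rfl⟩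
  · rintro ⟨w, hw⟩ h1
    have h2 : w ∈ I := (hB0 w hw).2 h1
    exact ⟨I.mul_mem_left _ h2, I.mul_mem_left _ h2⟩
  · rintro y ⟨w, hw⟩ - h1
    by_contra h2
    have h3 : w ∉ I := fun h => h2 ((hB0 w hw).1 h)
    apply hcon (-y) w hw h3
    have h4 : (x - (-y) • l) * w = x * w + y • (l * w) := by
      rw [neg_smul, sub_neg_eq_add, add_mul, smul_mul_assoc]
    rw [h4]
    exact h1
  · rintro ⟨w, hw⟩ - h1
    exact (hB0 w hw).1 (nzd w h1)
  · intro z hz
    rw [Submodule.mem_sup] at hz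
    obtain ⟨y, ⟨w, hw, rfl⟩, j, hj, rfl⟩ := hz
    refine ⟨⟨w, hw⟩, Submodule.mem_top, ?_⟩
    have h1 : ((LinearMap.mulLeft K l) ∘ₗ W.subtype) ⟨w, hw⟩ -
        ((LinearMap.mulLeft K l) w + j) = -j := by
      change l * w - (l * w + j) = -j
      ring
    rw [h1]
    exact Submodule.neg_mem _ hj

end OPA_

open OPA_ in
theorem p_OPA (h_NST : T_NST.{u}) : T_OPA.{u} := by
  intro K _ _ n f a hCI hmono hn l θ hlin d hd W hJW hW hWne hrk
  have hhom := hCI.hom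
  have hfin : ∀ e, Module.Finite K (Rd K (n + 1) e) := fun e => (t_dimr K (n + 1) e).1
  have hfin' : ∀ (e : ℕ) (A : Submodule K (R K (n + 1))), A ≤ Rd K (n + 1) e →
      Module.Finite K A := by
    intro e A hA
    have := hfin e
    exact Submodule.finiteDimensional_of_le hA
  obtain ⟨hJU, hUR, -, -, hmul, -, -, hJl⟩ := t_upl K (n + 1) n f a hhom d W hW
  obtain ⟨hmulU, hmulR⟩ := hmul l hlin.lin
  have fW := hfin' d W hW
  have fU := hfin' (d + 1) (up f d W) hUR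
  have fM := hfin' (d + 1) (mulW f d l W) hmulR
  have hsp := (a_split K (n + 1) n f a hhom d W hJW hW l hlin.lin).1
  have hker : kerW f l W = Jd f d := by
    apply le_antisymm
    · rintro p ⟨hp, hp'⟩
      exact ⟨hW hp, hlin.nzd p hp'⟩
    · intro p hp
      refine ⟨hJW hp, ?_⟩
      change l * p ∈ J f
      exact Ideal.mul_mem_left _ _ hp.2
  rw [hker] at hsp
  have hWU : ∀ x ∈ Rd K (n + 1) 1, ∀ w ∈ W, x * w ∈ up f d W := by
    intro x hx w hw
    exact Submodule.mem_sup_left (Submodule.mul_mem_mul hx hw)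
  -- membership in `mulW`
  have hmemM : ∀ p ∈ mulW f d l W, ∃ w ∈ W, p - l * w ∈ J f := by
    intro p hp
    unfold mulW at hp
    rw [Submodule.mem_sup] at hp
    obtain ⟨y, ⟨w, hw, rfl⟩, j, hj, rfl⟩ := hp
    refine ⟨w, hw, ?_⟩
    have h1 : (LinearMap.mulLeft K l) w + j - l * w = j := by
      rw [LinearMap.mulLeft_apply]
      ring
    rw [h1]
    exact hj.2
  have hNST : ∀ N : Submodule K (R K (n + 1)), Jd f d ≤ N → N ≤ W →
      (∀ x ∈ Rd K (n + 1) 1, ∀ p ∈ N, ∃ q ∈ N, x * p - l * q ∈ J f) → ∀ p ∈ N, p ∈ J f := by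
    intro N hJN hNW hst p hp
    exact (h_NST K n f a hCI hmono l θ hlin d (by omega) N hJN (hNW.trans hW) hst hp).2
  have hne : ¬ up f d W ≤ mulW f d l W := by
    intro hle
    apply hWne
    intro p hp
    refine ⟨hW hp, ?_⟩
    refine hNST W hJW le_rfl ?_ p hp
    intro x hx w hw
    exact hmemM _ (hle (hWU x hx w hw))
  obtain ⟨u0, hu0, hu0'⟩ := SetLike.not_le_iff_exists.1 hne
  have hUle : up f d W ≤ mulW f d l W ⊔ Submodule.span K {u0} := by
    have h1 : mulW f d l W ⊔ Submodule.span K {u0} ≤ up f d W := by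
      refine sup_le hmulU ?_
      rw [Submodule.span_le]
      intro x hx
      rw [Set.mem_singleton_iff] at hx
      rw [hx]
      exact hu0
    have h2 : mulW f d l W < mulW f d l W ⊔ Submodule.span K {u0} := by
      refine lt_of_le_not_ge le_sup_left ?_
      intro hle
      exact hu0' (hle (Submodule.mem_sup_right (Submodule.mem_span_singleton_self u0)))
    have f2 : Module.Finite K (mulW f d l W ⊔ Submodule.span K {u0} :
        Submodule K (R K (n + 1))) := hfin' (d + 1) _ (h1.trans hUR)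
    have h3 := Submodule.finrank_lt_finrank_of_lt h2
    have h4 := Submodule.eq_of_le_of_finrank_le h1 (by omega)
    exact h4.ge
  obtain ⟨ψ, hψ, hψ'⟩ := Submodule.exists_le_ker_of_notMem hu0'
  set φ : R K (n + 1) →ₗ[K] K := (ψ u0)⁻¹ • ψ with hφ
  have hφ0 : φ u0 = 1 := by
    rw [hφ, LinearMap.smul_apply, smul_eq_mul, inv_mul_cancel₀ hψ]
  have hφM : ∀ p ∈ mulW f d l W, φ p = 0 := by
    intro p hp
    have h1 : ψ p = 0 := hψ' hp
    rw [hφ, LinearMap.smul_apply, h1, smul_zero]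
  refine core (J f) l (Rd K (n + 1) 1) W (up f d W) (Jd f d) φ u0 hlin.lin hlin.nzd hWU ?_ hu0
    hφ0 ?_ hJW (fun p hp => hp.2) hNST ?_ ?_
  · intro u hu
    have h1 := hUle hu
    rw [Submodule.mem_sup] at h1
    obtain ⟨y, hy, z, hz, rfl⟩ := h1
    obtain ⟨t, rfl⟩ := Submodule.mem_span_singleton.1 hz
    obtain ⟨w, hw, hw'⟩ := hmemM y hy
    refine ⟨w, hw, ?_⟩
    have h2 : φ (y + t • u0) = t := by
      rw [map_add, map_smul, hφM y hy, hφ0, smul_eq_mul, mul_one, zero_add]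
    rw [h2]
    have h3 : y + t • u0 - l * w - t • u0 = y - l * w := by abel
    rw [h3]
    exact hw'
  · intro h1
    have h2 : up f d W ≤ LinearMap.ker φ := by
      unfold up
      apply sup_le
      · rw [Submodule.mul_le]
        intro x hx w hw
        exact h1 x hx w hw
      · intro p hp
        exact hφM p (Submodule.mem_sup_right hp)
    exact h2 hu0
  · intro x hx h1
    refine eig (J f) l x W (Jd f d) ?_ hWne hlin.nzd h1
    intro p hp
    exact ⟨fun h => ⟨hW hp, h⟩, fun h => h.2⟩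
  · rintro L ⟨z, hz, hRL⟩
    by_contra hcon
    push Not at hcon
    have h1 : L ≤ Submodule.span K {l} := by
      intro x hx
      obtain ⟨c, hc⟩ := hcon x hx
      rw [hc]
      exact Submodule.smul_mem _ c (Submodule.mem_span_singleton_self l)
    have h2 : Rd K (n + 1) 1 ≤ Submodule.span K {l} ⊔ Submodule.span K {z} :=
      hRL.trans (sup_le_sup_right h1 _)
    have h3 := Submodule.finrank_mono h2
    have h4 := Submodule.finrank_add_le_finrank_add_finrank (Submodule.span K {l})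
      (Submodule.span K {z})
    have h5 := finrank_span_le_card (R := K) ({l} : Set (R K (n + 1)))
    have h6 := finrank_span_le_card (R := K) ({z} : Set (R K (n + 1)))
    have h7 := (t_dimr K (n + 1) 1).2.2
    rw [Set.toFinset_singleton, Finset.card_singleton] at h5 h6
    omega

end Pool.Agent.EGX
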