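import Pool.Agent.EGX.Targets
import Pool.Agent.EGT.P_GLF

set_option autoImplicit false
open MvPolynomial hiding R

/-!
# EGX, job OPR: small growth, conclusion
-/

namespace Pool.Agent.EGX

open Pool.Agent.EGU Pool.Agent.EGS Pool.Agent.EGT

universe u

namespace OPR_

/-- Comparison of dimensions by two linear maps with the same kernel and nested images. -/
theorem cnt {K M N : Type u} [Field K] [AddCommGroup M] [Module K M] [AddCommGroup N]
    [Module K N] (A B D : Submodule K M) [Module.Finite K A] [Module.Finite K B]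
    (φ ψ : M →ₗ[K] N) (hA : D ≤ A) (hB : D ≤ B) (kA : ∀ x ∈ A, φ x = 0 ↔ x ∈ D)
    (kB : ∀ x ∈ B, ψ x = 0 ↔ x ∈ D) (h : ∀ x ∈ A, ∃ y ∈ B, φ x = ψ y) :
    Module.finrank K A ≤ Module.finrank K B := by
  have h1 := LinearMap.finrank_range_add_finrank_ker (φ ∘ₗ A.subtype)
  have h2 := LinearMap.finrank_range_add_finrank_ker (ψ ∘ₗ B.subtype)
  have e1 : LinearMap.ker (φ ∘ₗ A.subtype) = D.comap A.subtype := by
    ext x
    rw [LinearMap.mem_ker, Submodule.mem_comap]
    exact kA x x.2
  have e2 : LinearMap.ker (ψ ∘ₗ B.subtype) = D.comap B.subtype := by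
    ext x
    rw [LinearMap.mem_ker, Submodule.mem_comap]
    exact kB x x.2
  have f1 : Module.finrank K (D.comap A.subtype) = Module.finrank K D :=
    (Submodule.comapSubtypeEquivOfLe hA).finrank_eq
  have f2 : Module.finrank K (D.comap B.subtype) = Module.finrank K D :=
    (Submodule.comapSubtypeEquivOfLe hB).finrank_eq
  rw [e1, f1] at h1
  rw [e2, f2] at h2
  have h3 : LinearMap.range (φ ∘ₗ A.subtype) ≤ LinearMap.range (ψ ∘ₗ B.subtype) := by
    rintro _ ⟨x, rfl⟩
    obtain ⟨y, hy, hxy⟩ := h x x.2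
    exact ⟨⟨y, hy⟩, hxy.symm⟩
  have h4 := Submodule.finrank_mono h3
  omega

theorem Rd_succ {K : Type u} [Field K] (n k : ℕ) :
    Rd K n (k + 1) = Rd K n 1 * Rd K n k := by
  have h1 := homogeneousSubmodule_one_pow (σ := Fin n) (R := K) (k + 1)
  rw [pow_succ', homogeneousSubmodule_one_pow] at h1
  exact h1.symm

/-- Iterated stability. -/
theorem stab {K : Type u} [Field K] {n m : ℕ} (f : Fin m → R K n) (l : R K n)
    (U : Submodule K (R K n))
    (h : ∀ x ∈ Rd K n 1, ∀ p ∈ U, ∃ q ∈ U, x * p - l * q ∈ J f) (k : ℕ) :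
    ∀ p ∈ U, ∀ g ∈ Rd K n k, ∃ q ∈ U, g * p - l ^ k * q ∈ J f := by
  induction k with
  | zero =>
    intro p hp g hg
    have h1 : g = C (coeff 0 g) := by
      rw [mem_homogeneousSubmodule] at hg
      have h0 := hg.totalDegree_le
      exact totalDegree_eq_zero_iff_eq_C.1 (Nat.le_zero.1 h0)
    refine ⟨coeff 0 g • p, U.smul_mem _ hp, ?_⟩
    have h2 : g * p - l ^ 0 * (coeff 0 g • p) = 0 := by
      rw [pow_zero, one_mul, smul_eq_C_mul, ← h1, sub_self]
    rw [h2]
    exact (J f).zero_mem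
  | succ k ih =>
    intro p hp g hg
    rw [Rd_succ] at hg
    refine Submodule.mul_induction_on hg ?_ ?_
    · intro x hx y hy
      obtain ⟨q, hq, hq'⟩ := ih p hp y hy
      obtain ⟨r, hr, hr'⟩ := h x hx q hq
      refine ⟨r, hr, ?_⟩
      have h3 : x * y * p - l ^ (k + 1) * r =
          x * (y * p - l ^ k * q) + l ^ k * (x * q - l * r) := by ring
      rw [h3]
      exact (J f).add_mem ((J f).mul_mem_left _ hq') ((J f).mul_mem_left _ hr')
    · rintro x y ⟨q, hq, hq'⟩ ⟨r, hr, hr'⟩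
      refine ⟨q + r, U.add_mem hq hr, ?_⟩
      have h3 : (x + y) * p - l ^ (k + 1) * (q + r) =
          (x * p - l ^ (k + 1) * q) + (y * p - l ^ (k + 1) * r) := by ring
      rw [h3]
      exact (J f).add_mem hq' hr'

theorem pow_nzd {K : Type u} [Field K] {n m : ℕ} (f : Fin m → R K n) (l : R K n)
    (h : ∀ p, l * p ∈ J f → p ∈ J f) (k : ℕ) : ∀ p, l ^ k * p ∈ J f → p ∈ J f := by
  induction k with
  | zero =>
    intro p hp
    rwa [pow_zero, one_mul] at hp
  | succ k ih =>
    intro p hp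
    rw [pow_succ', mul_assoc] at hp
    exact ih p (h _ hp)

/-- Multiplication by `g` modulo the ideal. -/
noncomputable def mm {K : Type u} [Field K] {n m : ℕ} (f : Fin m → R K n) (g : R K n) :
    R K n →ₗ[K] (R K n ⧸ (J f).restrictScalars K) :=
  ((J f).restrictScalars K).mkQ ∘ₗ LinearMap.mulLeft K g

theorem mm_zero {K : Type u} [Field K] {n m : ℕ} (f : Fin m → R K n) (g p : R K n) :
    mm f g p = 0 ↔ g * p ∈ J f := by
  unfold mm
  rw [LinearMap.comp_apply, Submodule.mkQ_apply, Submodule.Quotient.mk_eq_zero,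
    LinearMap.mulLeft_apply]
  rfl

theorem mm_eq {K : Type u} [Field K] {n m : ℕ} (f : Fin m → R K n) (g g' p p' : R K n)
    (h : g * p - g' * p' ∈ J f) : mm f g p = mm f g' p' := by
  unfold mm
  rw [LinearMap.comp_apply, LinearMap.comp_apply, Submodule.mkQ_apply, Submodule.mkQ_apply,
    Submodule.Quotient.eq]
  exact h

end OPR_

open OPR_ in
theorem p_OPR (h_OPA : T_OPA.{u}) (h_GLF : T_GLF.{u}) : T_OPR.{u} := by
  intro K _ _ n f a hCI hmono ha2 hn d hd F hF hFn W hJW hW hFU hrk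
  have : Infinite K := IsAlgClosed.instInfinite
  have hone : (1 : R K (n + 1)) ∉ J f := GLF_.one_notMem f a hCI
  have hfin : ∀ e, Module.Finite K (Rd K (n + 1) e) := fun e => (t_dimr K (n + 1) e).1
  obtain ⟨hJU, hUR, hupJ, hupmono, -, -, -, -⟩ := t_upl K (n + 1) n f a hCI.hom d W hW
  obtain ⟨l, θ, hl, g1, g2, g3, hnz, g4, g5⟩ := h_GLF K n f a hCI
  have hlin : Lin f a l θ := ⟨hl, g1, g2, g3, hnz, g4, g5⟩
  have hWne : ¬ W ≤ Jd f d := by
    intro hle
    have h1 := hupmono (Jd f d)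
    have h2 : up f d W ≤ Jd f (d + 1) := by
      have h3 := (t_upl K (n + 1) n f a hCI.hom d (Jd f d) inf_le_left).2.2.2.1 W hle
      rw [hupJ] at h3
      exact h3
    have h4 : F ∈ J f := (h2 hFU).2
    apply hone
    apply hFn
    rw [mul_one]
    exact h4
  have hU := hfin (d + 1)
  have fU : Module.Finite K (up f d W) := Submodule.finiteDimensional_of_le hUR
  rcases h_OPA K n f a hCI hmono hn l θ hlin d hd W hJW hW hWne hrk with hst | ⟨ξ, h1, h2, h3⟩
  · refine Submodule.eq_of_le_of_finrank_le hUR ?_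
    refine cnt (Rd K (n + 1) (d + 1)) (up f d W) (Jd f (d + 1)) (mm f F) (mm f (l ^ (d + 1)))
      inf_le_left hJU ?_ ?_ ?_
    · intro x hx
      rw [mm_zero]
      constructor
      · intro h
        exact ⟨hx, hFn x h⟩
      · intro h
        exact (J f).mul_mem_left _ h.2
    · intro x hx
      rw [mm_zero]
      constructor
      · intro h
        exact ⟨hUR hx, pow_nzd f l hnz (d + 1) x h⟩
      · intro h
        exact (J f).mul_mem_left _ h.2
    · intro x hx
      obtain ⟨q, hq, hq'⟩ := stab f l (up f d W) hst (d + 1) F hFU x hx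
      refine ⟨q, hq, mm_eq f _ _ _ _ ?_⟩
      rw [mul_comm F x]
      exact hq'
  · exfalso
    apply h2
    have h4 : ξ ∈ J f := by
      apply hFn
      rw [mul_comm]
      exact h3 F hFU
    obtain ⟨y, hy, hy'⟩ := ((t_jd K (n + 1) n f a hCI.hom).1 1 ξ).1 ⟨h1, h4⟩
    rw [hy']
    refine Finset.sum_eq_zero fun k _ => ?_
    have h5 := hy k
    unfold Rm at h5
    rw [if_neg (by have := ha2 k; omega), Submodule.mem_bot] at h5
    rw [h5, zero_mul]

end Pool.Agent.EGX
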