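import Pool.Agent.EGX.Targets

set_option autoImplicit false
open MvPolynomial hiding R

/-!
# Project EGX, target PRL: peeling off the factors of a product which kills `W`
-/

namespace Pool.Agent.EGX

open Pool.Agent.EGU Pool.Agent.EGS Pool.Agent.EGT

universe u

namespace PRL_

variable {K : Type u} [Field K] {n m : ℕ}

theorem fin_of_le {e : ℕ} {A : Submodule K (R K n)} (hA : A ≤ Rd K n e) : Module.Finite K A := by
  have := (t_dimr K n e).1
  exact Submodule.finiteDimensional_of_le hA

theorem deg_mul {l x : R K n} {e : ℕ} (hl : l ∈ Rd K n 1) (hx : x ∈ Rd K n e) :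
    l * x ∈ Rd K n (e + 1) := by
  rw [mem_homogeneousSubmodule] at hx hl ⊢
  have h := hl.mul hx
  rwa [add_comm 1 e] at h

theorem mul_Rd (e : ℕ) : Rd K n 1 * Rd K n e ≤ Rd K n (e + 1) := by
  rw [Submodule.mul_le]
  intro x hx y hy
  exact deg_mul hx hy

theorem ker_mono_left {f : Fin m → R K n} {l : R K n} {W Z : Submodule K (R K n)} (h : Z ≤ W) :
    kerW f l Z ≤ kerW f l W := fun _ hx => ⟨h hx.1, hx.2⟩

theorem mem_ker {f : Fin m → R K n} {l : R K n} {W : Submodule K (R K n)} {x : R K n} :
    x ∈ kerW f l W ↔ x ∈ W ∧ l * x ∈ J f := Iff.rfl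

theorem mem_mulW {f : Fin m → R K n} {d : ℕ} {l : R K n} {W : Submodule K (R K n)} {x : R K n} :
    x ∈ mulW f d l W ↔ ∃ w ∈ W, ∃ j ∈ Jd f (d + 1), l * w + j = x := by
  unfold mulW
  rw [Submodule.mem_sup]
  constructor
  · rintro ⟨y, ⟨w, hw, rfl⟩, z, hz, rfl⟩
    exact ⟨w, hw, z, hz, rfl⟩
  · rintro ⟨w, hw, z, hz, rfl⟩
    exact ⟨_, ⟨w, hw, rfl⟩, z, hz, rfl⟩

/-- A part of `up f d W` killed by `l`. -/
theorem ker_up {f : Fin m → R K n} {a : Fin m → ℕ} (hhom : ∀ i, (f i).IsHomogeneous (a i))
    {d : ℕ} {W : Submodule K (R K n)} (hW : W ≤ Rd K n d) {l : R K n} (hl : l ∈ Rd K n 1)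
    {E : Submodule K (R K n)} (hE : E ≤ up f d W) (hE2 : ∀ x ∈ E, l * x ∈ J f) :
    Module.finrank K E + Module.finrank K (up f (d + 1) (mulW f d l W)) ≤
      Module.finrank K (up f d W) + Module.finrank K (Jd f (d + 2)) := by
  obtain ⟨-, hup, -, -, -, -, -, -⟩ := t_upl K n m f a hhom d W hW
  have fJ2 : Module.Finite K (Jd f (d + 2)) := fin_of_le (e := d + 2) inf_le_left
  have fU : Module.Finite K (up f d W) := fin_of_le hup
  have h1 := SPLIT_.split_general (LinearMap.mulLeft K l) (up f d W) (Jd f (d + 2))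
  have h2 : E ≤ up f d W ⊓ (Jd f (d + 2)).comap (LinearMap.mulLeft K l) := by
    intro x hx
    refine ⟨hE hx, ?_⟩
    rw [SetLike.mem_coe, Submodule.mem_comap, LinearMap.mulLeft_apply]
    exact ⟨deg_mul hl (hup (hE hx)), hE2 x hx⟩
  have h3 : up f (d + 1) (mulW f d l W) ≤
      (up f d W).map (LinearMap.mulLeft K l) ⊔ Jd f (d + 2) := by
    unfold up
    apply sup_le
    · rw [Submodule.mul_le]
      intro x hx y hy
      obtain ⟨z, hz, w, hw, rfl⟩ := mem_mulW.mp hy
      rw [mul_add]
      apply Submodule.add_mem_sup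
      · refine ⟨x * z, Submodule.mem_sup_left (Submodule.mul_mem_mul hx hz), ?_⟩
        rw [LinearMap.mulLeft_apply]
        ring
      · refine ⟨mul_Rd (d + 1) (Submodule.mul_mem_mul hx hw.1), ?_⟩
        exact Ideal.mul_mem_left _ _ hw.2
    · exact le_sup_right
  have f3 : Module.Finite K (up f d W ⊓ (Jd f (d + 2)).comap (LinearMap.mulLeft K l) :
      Submodule K (R K n)) :=
    Submodule.finiteDimensional_of_le (inf_le_left : _ ≤ up f d W)
  have f4 : Module.Finite K ((up f d W).map (LinearMap.mulLeft K l) ⊔ Jd f (d + 2) :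
      Submodule K (R K n)) := inferInstance
  have h4 := Submodule.finrank_mono h2
  have h5 := Submodule.finrank_mono h3
  omega

/-- The induction statement. -/
theorem main (f : Fin m → R K n) (a : Fin m → ℕ) (hhom : ∀ i, (f i).IsHomogeneous (a i)) (k : ℕ) :
    ∀ (L : Fin k → R K n), (∀ i, L i ∈ Rd K n 1) →
    ∀ (d : ℕ) (W : Submodule K (R K n)), Jd f d ≤ W → W ≤ Rd K n d →
    (∀ w ∈ W, (∏ i, L i) * w ∈ J f) →
    ∃ (U : ℕ → Submodule K (R K n)) (κ u : ℕ → ℕ),
      (∀ j, j < k → Jd f (d + j) ≤ U j ∧ U j ≤ Rd K n (d + j) ∧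
        (∃ i, ∀ w ∈ U j, L i * w ∈ J f) ∧ orth f 2 W ≤ orth f 2 (U j) ∧
        Module.finrank K (U j) = κ j + Module.finrank K (Jd f (d + j)) ∧
        Module.finrank K (up f (d + j) (U j)) = u j + Module.finrank K (Jd f (d + j + 1))) ∧
      κ k = 0 ∧
      Module.finrank K W = ∑ j ∈ Finset.range k, κ j + Module.finrank K (Jd f d) ∧
      ∑ j ∈ Finset.range k, max (u j) (κ (j + 1)) + Module.finrank K (Jd f (d + 1)) ≤
        Module.finrank K (up f d W) ∧
      (∀ i, Module.finrank K (kerW f (L i) W) ≤ κ 0 + Module.finrank K (Jd f d)) ∧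
      (1 ≤ k → ∃ i, Module.finrank K (kerW f (L i) W) = κ 0 + Module.finrank K (Jd f d)) := by
  induction k with
  | zero =>
    intro L _ d W hJW hW hLW
    obtain ⟨hJu, hup, -, -, -, -, -, -⟩ := t_upl K n m f a hhom d W hW
    have fU : Module.Finite K (up f d W) := fin_of_le hup
    have hWJ : W = Jd f d := by
      apply le_antisymm _ hJW
      intro w hw
      refine ⟨hW hw, ?_⟩
      have h1 := hLW w hw
      rw [Finset.univ_eq_empty, Finset.prod_empty, one_mul] at h1
      exact h1
    refine ⟨fun _ => ⊥, fun _ => 0, fun _ => 0, ?_, rfl, ?_, ?_, ?_, ?_⟩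
    · intro j hj
      exact absurd hj (Nat.not_lt_zero j)
    · rw [hWJ, Finset.range_zero, Finset.sum_empty, zero_add]
    · rw [Finset.range_zero, Finset.sum_empty, zero_add]
      exact Submodule.finrank_mono hJu
    · intro i
      exact i.elim0
    · intro h
      exact absurd h (by norm_num)
  | succ k ih =>
    intro L hL d W hJW hW hLW
    obtain ⟨i0, -, hi0⟩ := Finset.exists_max_image (Finset.univ : Finset (Fin (k + 1)))
      (fun i => Module.finrank K (kerW f (L i) W)) Finset.univ_nonempty
    have hi0' : ∀ i, Module.finrank K (kerW f (L i) W) ≤ Module.finrank K (kerW f (L i0) W) :=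
      fun i => hi0 i (Finset.mem_univ i)
    obtain ⟨hJu, hup, -, hupm, hmul, hker, -, hJl⟩ := t_upl K n m f a hhom d W hW
    obtain ⟨hmul1, hmul2⟩ := hmul (L i0) (hL i0)
    have hker0 := hker (L i0) (hL i0) hJW
    have hkW : kerW f (L i0) W ≤ W := inf_le_left
    have fW : Module.Finite K W := fin_of_le hW
    have fU : Module.Finite K (up f d W) := fin_of_le hup
    have fK0 : Module.Finite K (kerW f (L i0) W) := fin_of_le (hkW.trans hW)
    have fuk : Module.Finite K (up f d (kerW f (L i0) W)) :=
      fin_of_le ((hupm _ hkW).trans hup)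
    have hJW1 : Jd f (d + 1) ≤ mulW f d (L i0) W := le_sup_right
    have hprod : ∏ i, L i = L i0 * ∏ j : Fin k, L (i0.succAbove j) := Fin.prod_univ_succAbove L i0
    have hW1kill : ∀ w ∈ mulW f d (L i0) W, (∏ j : Fin k, L (i0.succAbove j)) * w ∈ J f := by
      intro w hw
      obtain ⟨z, hz, j, hj, rfl⟩ := mem_mulW.mp hw
      rw [mul_add]
      apply Ideal.add_mem
      · have h1 := hLW z hz
        rw [hprod] at h1
        have h2 : (∏ j : Fin k, L (i0.succAbove j)) * (L i0 * z) =
            L i0 * (∏ j : Fin k, L (i0.succAbove j)) * z := by ring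
        rw [h2]
        exact h1
      · exact Ideal.mul_mem_left _ _ hj.2
    obtain ⟨U', κ', u', hU', hk', hsum', hup', hmax', hex'⟩ := ih (fun j => L (i0.succAbove j))
      (fun j => hL _) (d + 1) (mulW f d (L i0) W) hJW1 hmul2 hW1kill
    have hsplit := (a_split K n m f a hhom d W hJW hW (L i0) (hL i0)).1
    have hJk : Module.finrank K (Jd f d) ≤ Module.finrank K (kerW f (L i0) W) :=
      Submodule.finrank_mono hker0
    have hkR : kerW f (L i0) W ≤ Rd K n d := hkW.trans hW
    have hJuk : Jd f (d + 1) ≤ up f d (kerW f (L i0) W) :=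
      (t_upl K n m f a hhom d _ hkR).1
    have hJuk' : Module.finrank K (Jd f (d + 1)) ≤
        Module.finrank K (up f d (kerW f (L i0) W)) := Submodule.finrank_mono hJuk
    -- the first lower bound
    have hA : Module.finrank K (up f d (kerW f (L i0) W)) +
        Module.finrank K (up f (d + 1) (mulW f d (L i0) W)) ≤
        Module.finrank K (up f d W) + Module.finrank K (Jd f (d + 2)) :=
      (a_split K n m f a hhom d W hJW hW (L i0) (hL i0)).2
    -- the second lower bound
    have hB : κ' 0 + Module.finrank K (Jd f (d + 1)) +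
        Module.finrank K (up f (d + 1) (mulW f d (L i0) W)) ≤
        Module.finrank K (up f d W) + Module.finrank K (Jd f (d + 2)) := by
      rcases Nat.eq_zero_or_pos k with hk0 | hk0
      · subst hk0
        omega
      · obtain ⟨i1, hi1⟩ := hex' hk0
        set l0 := L i0 with hl0
        set l1 := L (i0.succAbove i1) with hl1
        set Z := kerW f (l0 * l1) W with hZ
        have hZW : Z ≤ W := inf_le_left
        have hZR : Z ≤ Rd K n d := hZW.trans hW
        have fZ : Module.Finite K Z := fin_of_le hZR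
        have hJZ : Jd f d ≤ Z := by
          intro x hx
          exact ⟨hJW hx, Ideal.mul_mem_left _ _ hx.2⟩
        have e1 := (a_split K n m f a hhom d Z hJZ hZR l0 (hL i0)).1
        have e2 := (a_split K n m f a hhom d Z hJZ hZR l1 (hL _)).1
        have e3 : Module.finrank K (kerW f l0 W) ≤ Module.finrank K (kerW f l0 Z) := by
          have fk : Module.Finite K (kerW f l0 Z) :=
            fin_of_le ((inf_le_left : kerW f l0 Z ≤ Z).trans hZR)
          apply Submodule.finrank_mono
          intro x hx
          refine ⟨⟨hx.1, ?_⟩, hx.2⟩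
          have h1 : l0 * x ∈ J f := hx.2
          have h2 : l0 * l1 * x = l1 * (l0 * x) := by ring
          show l0 * l1 * x ∈ J f
          rw [h2]
          exact Ideal.mul_mem_left _ _ h1
        have e3' : Module.finrank K (kerW f l0 Z) ≤ Module.finrank K (kerW f l0 W) :=
          Submodule.finrank_mono (ker_mono_left hZW)
        have e4 : Module.finrank K (kerW f l1 Z) ≤ Module.finrank K (kerW f l0 W) := by
          have fk : Module.Finite K (kerW f l1 W) :=
            fin_of_le ((inf_le_left : kerW f l1 W ≤ W).trans hW)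
          exact (Submodule.finrank_mono (ker_mono_left hZW)).trans (hi0' _)
        have e5 : Module.finrank K (kerW f l1 (mulW f d l0 W)) ≤
            Module.finrank K (mulW f d l0 Z) := by
          have fk : Module.Finite K (mulW f d l0 Z) :=
            fin_of_le ((t_upl K n m f a hhom d Z hZR).2.2.2.2.1 l0 (hL i0)).2
          apply Submodule.finrank_mono
          intro x hx
          obtain ⟨hx1, hx2⟩ := mem_ker.mp hx
          obtain ⟨w, hw, j, hj, rfl⟩ := mem_mulW.mp hx1
          refine mem_mulW.mpr ⟨w, ⟨hw, ?_⟩, j, hj, rfl⟩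
          show l0 * l1 * w ∈ J f
          have h1 : l0 * l1 * w = l1 * (l0 * w + j) - l1 * j := by ring
          rw [h1]
          exact Ideal.sub_mem _ hx2 (Ideal.mul_mem_left _ _ hj.2)
        have e6 : mulW f d l1 Z ≤ up f d W := by
          have h1 := ((t_upl K n m f a hhom d Z hZR).2.2.2.2.1 l1 (hL _)).1
          exact h1.trans (hupm Z hZW)
        have e7 : ∀ x ∈ mulW f d l1 Z, l0 * x ∈ J f := by
          intro x hx
          obtain ⟨w, hw, j, hj, rfl⟩ := mem_mulW.mp hx
          have h1 : l0 * l1 * w ∈ J f := hw.2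
          have h2 : l0 * (l1 * w + j) = l0 * l1 * w + l0 * j := by ring
          rw [h2]
          exact Ideal.add_mem _ h1 (Ideal.mul_mem_left _ _ hj.2)
        have e8 := ker_up hhom hW (hL i0) e6 e7
        rw [← hl0] at e8
        omega
    refine ⟨fun j => match j with
        | 0 => kerW f (L i0) W
        | j + 1 => U' j,
      fun j => match j with
        | 0 => Module.finrank K (kerW f (L i0) W) - Module.finrank K (Jd f d)
        | j + 1 => κ' j,
      fun j => match j with
        | 0 => Module.finrank K (up f d (kerW f (L i0) W)) - Module.finrank K (Jd f (d + 1))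
        | j + 1 => u' j, ?_, hk', ?_, ?_, ?_, ?_⟩
    · intro j hj
      cases j with
      | zero =>
        refine ⟨hker0, hkR, ⟨i0, fun w hw => hw.2⟩, ?_, ?_, ?_⟩
        · intro h hh
          exact ⟨hh.1, fun w hw => hh.2 w (hkW hw)⟩
        · show Module.finrank K (kerW f (L i0) W) =
            Module.finrank K (kerW f (L i0) W) - Module.finrank K (Jd f d) +
              Module.finrank K (Jd f d)
          omega
        · show Module.finrank K (up f d (kerW f (L i0) W)) =
            Module.finrank K (up f d (kerW f (L i0) W)) - Module.finrank K (Jd f (d + 1)) +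
              Module.finrank K (Jd f (d + 1))
          omega
      | succ j =>
        obtain ⟨q1, q2, ⟨i', q3⟩, q4, q5, q6⟩ := hU' j (by omega)
        have hd : d + (j + 1) = d + 1 + j := by ring
        show Jd f (d + (j + 1)) ≤ U' j ∧ U' j ≤ Rd K n (d + (j + 1)) ∧
          (∃ i, ∀ w ∈ U' j, L i * w ∈ J f) ∧ orth f 2 W ≤ orth f 2 (U' j) ∧
          Module.finrank K (U' j) = κ' j + Module.finrank K (Jd f (d + (j + 1))) ∧
          Module.finrank K (up f (d + (j + 1)) (U' j)) =
            u' j + Module.finrank K (Jd f (d + (j + 1) + 1))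
        rw [hd]
        refine ⟨q1, q2, ⟨_, q3⟩, ?_, q5, q6⟩
        refine le_trans ?_ q4
        intro h hh
        refine ⟨hh.1, fun w hw => ?_⟩
        obtain ⟨z, hz, j', hj', rfl⟩ := mem_mulW.mp hw
        have h1 := hh.2 z hz
        have h2 : h * (L i0 * z + j') = L i0 * (h * z) + h * j' := by ring
        rw [h2]
        exact Ideal.add_mem _ (Ideal.mul_mem_left _ _ h1) (Ideal.mul_mem_left _ _ hj'.2)
    · rw [Finset.sum_range_succ']
      show Module.finrank K W = ∑ j ∈ Finset.range k, κ' j +
        (Module.finrank K (kerW f (L i0) W) - Module.finrank K (Jd f d)) +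
          Module.finrank K (Jd f d)
      omega
    · rw [Finset.sum_range_succ']
      show ∑ j ∈ Finset.range k, max (u' j) (κ' (j + 1)) +
        max (Module.finrank K (up f d (kerW f (L i0) W)) - Module.finrank K (Jd f (d + 1)))
          (κ' 0) + Module.finrank K (Jd f (d + 1)) ≤ Module.finrank K (up f d W)
      have h1 : d + 1 + 1 = d + 2 := rfl
      rw [h1] at hup'
      omega
    · intro i
      show Module.finrank K (kerW f (L i) W) ≤
        Module.finrank K (kerW f (L i0) W) - Module.finrank K (Jd f d) +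
          Module.finrank K (Jd f d)
      have h1 := hi0' i
      omega
    · intro _
      refine ⟨i0, ?_⟩
      show Module.finrank K (kerW f (L i0) W) =
        Module.finrank K (kerW f (L i0) W) - Module.finrank K (Jd f d) +
          Module.finrank K (Jd f d)
      omega

end PRL_

theorem p_PRL : T_PRL.{u} := by
  intro K _ n m f a hhom k L hL d W hJW hW hLW
  obtain ⟨U, κ, u, h1, h2, h3, h4, -, -⟩ := PRL_.main f a hhom k L hL d W hJW hW hLW
  exact ⟨U, κ, u, h1, h2, h3, h4⟩

end Pool.Agent.EGX
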