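import Pool.Agent.EGX.P_RGB
import Pool.Agent.EGS.P_DUA

set_option autoImplicit false
open MvPolynomial hiding R

/-!
# Project EGX, target QBB: the degrees `(2, 2, b, b)`
-/

namespace Pool.Agent.EGX

open Pool.Agent.EGU Pool.Agent.EGS Pool.Agent.EGT

universe u

namespace QBB_

theorem mono4 {x y : ℕ} (hx : 2 ≤ x) (hxy : x ≤ y) : Monotone (![2, 2, x, y] : Fin 4 → ℕ) := by
  intro i j hij
  fin_cases i <;> fin_cases j <;> simp_all <;> omega

theorem two4 {x y : ℕ} (hx : 2 ≤ x) (hxy : x ≤ y) : ∀ i, 2 ≤ (![2, 2, x, y] : Fin 4 → ℕ) i := by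
  intro i
  fin_cases i <;> simp <;> omega

theorem S4 (x y : ℕ) (hx : 2 ≤ x) (hxy : x ≤ y) :
    S (![2, 2, x, y] : Fin 4 → ℕ) 4 + 0 = x + y := by
  set a : Fin 4 → ℕ := ![2, 2, x, y] with ha
  have e0 := (t_num 4 a).1
  have e1 : S a 1 = S a 0 + (a 0 - 1) := (t_num 4 a).2.1 0 (by norm_num)
  have e2 : S a 2 = S a 1 + (a 1 - 1) := (t_num 4 a).2.1 1 (by norm_num)
  have e3 : S a 3 = S a 2 + (a 2 - 1) := (t_num 4 a).2.1 2 (by norm_num)
  have e4 : S a 4 = S a 3 + (a 3 - 1) := (t_num 4 a).2.1 3 (by norm_num)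
  have f0 : a 0 = 2 := rfl
  have f1 : a 1 = 2 := rfl
  have f2 : a 2 = x := rfl
  have f3 : a 3 = y := rfl
  omega

/-- Low degrees. -/
theorem low (h_RGA : T_RGA.{u}) (h_KNW : T_KNW.{u}) (K : Type u) [Field K] [IsAlgClosed K]
    (b : ℕ) (hb : 2 ≤ b) (d : ℕ) (hd : d + 1 < b) (N : ℕ) :
    EA K (![2, 2, b, b] : Fin 4 → ℕ) d N := by
  have hinf : Infinite K := inferInstance
  set a : Fin 4 → ℕ := ![2, 2, b, b] with ha
  have hm : Monotone a := mono4 hb le_rfl
  have h2 : ∀ i, 2 ≤ a i := two4 hb le_rfl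
  have hr : 2 ≤ 4 := by norm_num
  intro f hf W hW1 hW2 _
  have hj : ∀ e, e < b → ∀ j : Fin 4, 2 ≤ (j : ℕ) → e + 1 ≤ a j := by
    intro e he j hj
    fin_cases j
    · simp at hj
    · simp at hj
    · change e + 1 ≤ b
      omega
    · change e + 1 ≤ b
      omega
  have hEG : EG K (a ∘ Fin.castLE hr) := h_KNW K 2 _ (fun i j hij => hm hij) (fun i => h2 _)
    ⟨2, le_rfl, Or.inl (by norm_num), fun j hj h3 => absurd hj (by omega)⟩
  have e1 : Jd f d = Jd (f ∘ Fin.castLE hr) d := RGB_.Jd_eq f a hf hr (hj d (by omega))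
  have e2 : Jd f (d + 1) = Jd (f ∘ Fin.castLE hr) (d + 1) :=
    RGB_.Jd_eq f a hf hr (hj (d + 1) hd)
  have h1 := h_RGA K 4 2 hr d a hm h2 hEG (hj d (by omega)) (f ∘ Fin.castLE hr)
    (RGB_.CI_init f a hf hr) W (by rw [← e1]; exact hW1) hW2
  have e3 : up f d W = up (f ∘ Fin.castLE hr) d W := by
    unfold up
    rw [e2]
  unfold GoodA
  rw [e1, e2, e3]
  exact h1

/-- The middle degree. -/
theorem mid (h_RGB : T_RGB.{u}) (h_KNW : T_KNW.{u}) (K : Type u) [Field K] [IsAlgClosed K]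
    (b : ℕ) (hb : 3 ≤ b) (hE : EG K (![2, 2, b - 1, b - 1] : Fin 4 → ℕ)) (d : ℕ)
    (hd : d + 1 = b) (N : ℕ) : EA K (![2, 2, b, b] : Fin 4 → ℕ) d N := by
  have hinf : Infinite K := inferInstance
  have hd' : b - 1 = d := by omega
  rw [hd'] at hE
  have hEG2 : EG K ((![2, 2, b, b] : Fin 4 → ℕ) ∘ Fin.castLE (show 2 ≤ 4 by norm_num)) :=
    h_KNW K 2 _ (fun i j hij => mono4 (by omega) le_rfl hij) (fun i => two4 (by omega) le_rfl _)
    ⟨2, le_rfl, Or.inl (by norm_num), fun j hj h3 => absurd hj (by omega)⟩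
  have hEG3 : EG K ((![2, 2, d, b] : Fin 4 → ℕ) ∘ Fin.castLE (show 3 ≤ 4 by norm_num)) :=
    h_KNW K 3 _ (fun i j hij => mono4 (by omega) (by omega) hij)
    (fun i => two4 (by omega) (by omega) _)
    ⟨3, le_rfl, Or.inl (by norm_num), fun j hj h3 => absurd hj (by omega)⟩
  have hu1 : Function.update (![2, 2, b, b] : Fin 4 → ℕ) ⟨2, by norm_num⟩ d =
      ![2, 2, d, b] := by
    funext i
    fin_cases i <;> rfl
  have hu2 : Function.update (![2, 2, d, b] : Fin 4 → ℕ) ⟨3, by norm_num⟩ d =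
      ![2, 2, d, d] := by
    funext i
    fin_cases i <;> rfl
  refine h_RGB K 4 2 d (by norm_num) (![2, 2, b, b] : Fin 4 → ℕ) (mono4 (by omega) le_rfl)
    (two4 (by omega) le_rfl) (by omega) ?_ hEG2 ?_ N
  · change b = d + 1
    omega
  · intro N'
    rw [hu1]
    refine h_RGB K 4 3 d (by norm_num) (![2, 2, d, b] : Fin 4 → ℕ) (mono4 (by omega) (by omega))
      (two4 (by omega) (by omega)) (by omega) ?_ hEG3 ?_ N'
    · change b = d + 1
      omega
    · intro N''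
      rw [hu2]
      exact hE d N''

end QBB_

open QBB_

theorem p_QBB (h_RGA : T_RGA.{u}) (h_RGB : T_RGB.{u}) (h_KNW : T_KNW.{u}) (h_VTW : T_VTW.{u}) :
    T_QBB.{u} := by
  intro K _ _ b hb
  induction b, hb using Nat.le_induction with
  | base =>
    refine h_KNW K 4 _ (mono4 le_rfl le_rfl) (two4 le_rfl le_rfl) ⟨4, le_rfl, Or.inr ?_,
      fun j hj h3 => absurd hj (by omega)⟩
    have := S4 2 2 le_rfl le_rfl
    omega
  | succ b hb ih =>
    by_cases hb3 : b = 2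
    · subst hb3
      refine h_KNW K 4 _ (mono4 (by norm_num) le_rfl) (two4 (by norm_num) le_rfl)
        ⟨4, le_rfl, Or.inr ?_, fun j hj h3 => absurd hj (by omega)⟩
      have := S4 (2 + 1) (2 + 1) (by norm_num) le_rfl
      omega
    · have hm := mono4 (x := b + 1) (y := b + 1) (by omega) le_rfl
      have h2 := two4 (x := b + 1) (y := b + 1) (by omega) le_rfl
      have hS := S4 (b + 1) (b + 1) (by omega) le_rfl
      set a : Fin 4 → ℕ := ![2, 2, b + 1, b + 1] with ha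
      have hlow : ∀ d, d + 1 ≤ b + 1 → ∀ N, EA K a d N := by
        intro d hd N
        rcases Nat.lt_or_ge (d + 1) (b + 1) with h | h
        · exact low h_RGA h_KNW K (b + 1) (by omega) d h N
        · exact mid h_RGB h_KNW K (b + 1) (by omega) ih d (le_antisymm hd h) N
      intro d N f hf W hW1 hW2 hN
      by_cases hd : d + 1 ≤ b + 1
      · exact hlow d hd N f hf W hW1 hW2 hN
      · obtain ⟨_, v2, v3⟩ := h_VTW K 4 f a hf hm h2 d W hW1 hW2
        by_cases hds : S a 4 ≤ d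
        · exact v2 hds
        · obtain ⟨d', hd'⟩ : ∃ d', d + d' + 1 = S a 4 := ⟨S a 4 - 1 - d, by omega⟩
          obtain ⟨w1, w2, _, _⟩ := p_DUA K 4 f a hf hm d d' hd' W hW1 hW2
          exact v3 d' hd' (hlow d' (by omega) (Module.finrank K (Rd K 4 2)) f hf _ w1 w2
            (Nat.le_add_left _ _))

end Pool.Agent.EGX
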