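import Pool.Agent.EGX.Targets

set_option autoImplicit false
open MvPolynomial hiding R

/-!
Growth modulo `r` forms: `T_RGA`.
-/

namespace Pool.Agent.EGX

open Pool.Agent.EGU Pool.Agent.EGS Pool.Agent.EGT

universe u

namespace RGA_

/-- the large degrees -/
def bb {n : ℕ} (r C : ℕ) (a : Fin n → ℕ) (j : Fin n) : ℕ :=
  if (j : ℕ) < r then a j else C * 2 ^ (j : ℕ)

lemma bb_lt {n : ℕ} (r C : ℕ) (a : Fin n → ℕ) (j : Fin n) (h : (j : ℕ) < r) :
    bb r C a j = a j := if_pos h

lemma bb_ge {n : ℕ} (r C : ℕ) (a : Fin n → ℕ) (j : Fin n) (h : ¬ (j : ℕ) < r) :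
    bb r C a j = C * 2 ^ (j : ℕ) := if_neg h

lemma le_pow (C j : ℕ) : C ≤ C * 2 ^ j := Nat.le_mul_of_pos_right C (by positivity)

lemma bb_mono {n : ℕ} (r C : ℕ) (a : Fin n → ℕ) (hm : Monotone a) (hC : ∀ i, a i ≤ C) :
    Monotone (bb r C a) := by
  intro i j hij
  have hij' : (i : ℕ) ≤ j := hij
  by_cases hj : (j : ℕ) < r
  · rw [bb_lt r C a j hj, bb_lt r C a i (by omega)]
    exact hm hij
  · rw [bb_ge r C a j hj]
    by_cases hi : (i : ℕ) < r
    · rw [bb_lt r C a i hi]
      exact (hC i).trans (le_pow C j)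
    · rw [bb_ge r C a i hi]
      exact Nat.mul_le_mul_left C (Nat.pow_le_pow_right (by norm_num) hij')

lemma S_lt {n : ℕ} (r C : ℕ) (a : Fin n → ℕ) (h1 : ∀ i, 1 ≤ a i) (hC : ∑ i, a i < C)
    (j : ℕ) (hj : r ≤ j) (hjn : j ≤ n) : S (bb r C a) j < C * 2 ^ j := by
  induction j, hj using Nat.le_induction with
  | base =>
    have h2 : S (bb r C a) r ≤ ∑ i, a i := by
      unfold S
      calc ∑ i ∈ Finset.univ.filter (fun i : Fin n => (i : ℕ) < r), (bb r C a i - 1)
          ≤ ∑ i ∈ Finset.univ.filter (fun i : Fin n => (i : ℕ) < r), a i := by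
            apply Finset.sum_le_sum
            intro i hi
            rw [bb_lt r C a i (Finset.mem_filter.1 hi).2]
            omega
        _ ≤ ∑ i, a i := Finset.sum_le_sum_of_subset (Finset.filter_subset _ _)
    exact lt_of_le_of_lt h2 (lt_of_lt_of_le hC (le_pow C r))
  | succ j hj ih =>
    have h3 := ih (by omega)
    rw [(t_num n (bb r C a)).2.1 j (by omega), bb_ge r C a ⟨j, by omega⟩ (by simpa using hj)]
    have h4 : C * 2 ^ (j + 1) = C * 2 ^ j + C * 2 ^ j := by ring
    have h5 : 1 ≤ C * 2 ^ j := by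
      have := le_pow C j
      omega
    simp only
    omega

lemma eg (h_BIG : T_BIG.{u}) (K : Type u) [Field K] [Infinite K] (n r : ℕ) (hr : r ≤ n)
    (C : ℕ) (a : Fin n → ℕ) (hm : Monotone a) (h2 : ∀ i, 2 ≤ a i)
    (hC : ∑ i, a i < C) (hE : EG K (a ∘ Fin.castLE hr)) : EG K (bb r C a) := by
  have hai : ∀ i, a i ≤ C := fun i =>
    (Finset.single_le_sum (f := a) (fun _ _ => Nat.zero_le _) (Finset.mem_univ i)).trans hC.le
  have hbm := bb_mono r C a hm hai
  have hb2 : ∀ i, 2 ≤ bb r C a i := by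
    intro i
    by_cases hi : (i : ℕ) < r
    · rw [bb_lt r C a i hi]
      exact h2 i
    · rw [bb_ge r C a i hi]
      exact ((h2 i).trans (hai i)).trans (le_pow C i)
  have key : ∀ k, r ≤ k → ∀ hk : k ≤ n, EG K (bb r C a ∘ Fin.castLE hk) := by
    intro k hrk
    induction k, hrk using Nat.le_induction with
    | base =>
      intro hk
      have : bb r C a ∘ Fin.castLE hk = a ∘ Fin.castLE hr := by
        funext i
        exact bb_lt r C a _ i.isLt
      rw [this]
      exact hE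
    | succ k hrk ih =>
      intro hk
      refine h_BIG K k (bb r C a ∘ Fin.castLE hk) ?_ (fun i => hb2 _) ?_ (ih (by omega))
      · intro i j hij
        exact hbm hij
      · rw [(t_num n (bb r C a)).2.2.2.2.2.2.2.1 (k + 1) hk k (by omega)]
        have h3 := S_lt r C a (fun i => le_trans (by norm_num) (h2 i)) hC k hrk (by omega)
        have h4 : (bb r C a ∘ Fin.castLE hk) (Fin.last k) = C * 2 ^ k :=
          bb_ge r C a _ (by simpa using hrk)
        rw [h4]
        exact h3
  exact key n hr le_rfl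

lemma le_of_mem {n d : ℕ} {x : Fin n →₀ ℕ}
    (hx : x ∈ Finset.finsuppAntidiag (Finset.univ : Finset (Fin n)) d) (i : Fin n) : x i ≤ d := by
  rw [Finset.mem_finsuppAntidiag] at hx
  rw [← hx.1]
  exact Finset.single_le_sum (f := fun i => x i) (fun _ _ => Nat.zero_le _) (Finset.mem_univ i)

lemma sh {n r d C : ℕ} (a : Fin n → ℕ) (ha : ∀ j : Fin n, r ≤ (j : ℕ) → d + 1 ≤ a j)
    (hC : d + 2 ≤ C) {v u : ℕ} (h : Sh (bb r C a) d v u) : Sh a d v u := by
  have hb : ∀ j : Fin n, r ≤ (j : ℕ) → d + 2 ≤ bb r C a j := by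
    intro j hj
    rw [bb_ge r C a j (by omega)]
    exact hC.trans (le_pow C j)
  have e1 : Std (bb r C a) d = Std a d := by
    unfold Std
    apply Finset.filter_congr
    intro x hx
    apply forall_congr'
    intro i
    have hxi := le_of_mem hx i
    by_cases hi : (i : ℕ) < r
    · rw [bb_lt r C a i hi]
    · have h1 := hb i (by omega)
      have h2 := ha i (by omega)
      constructor
      · intro _
        omega
      · intro _
        omega
  have e2 : Std a (d + 1) ⊆ Std (bb r C a) (d + 1) := by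
    intro x hx
    unfold Std at hx ⊢
    rw [Finset.mem_filter] at hx ⊢
    refine ⟨hx.1, fun i => ?_⟩
    have hxi := le_of_mem hx.1 i
    by_cases hi : (i : ℕ) < r
    · rw [bb_lt r C a i hi]
      exact hx.2 i
    · have h1 := hb i (by omega)
      omega
  obtain ⟨M, ⟨hM1, hM2⟩, hM3, hM4⟩ := h
  rw [e1] at hM1 hM2
  refine ⟨M, ⟨hM1, hM2⟩, hM3, le_trans (Finset.card_le_card ?_) hM4⟩
  intro x hx
  unfold shadow at hx ⊢
  rw [Finset.mem_filter] at hx ⊢
  exact ⟨e2 hx.1, hx.2⟩

lemma jd_eq {K : Type u} [Field K] {n r : ℕ} (hr : r ≤ n) (f : Fin r → R K n)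
    (g : Fin n → R K n) (b : Fin n → ℕ) (hg : ∀ i, (g i).IsHomogeneous (b i))
    (hgf : ∀ i, g (Fin.castLE hr i) = f i) (e : ℕ) (he : ∀ j : Fin n, r ≤ (j : ℕ) → e < b j) :
    Jd g e = Jd f e := by
  apply le_antisymm
  · intro p hp
    refine ⟨hp.1, ?_⟩
    obtain ⟨y, hy, rfl⟩ := ((t_jd K n n g b hg).1 e p).1 hp
    have h1 : ∀ k, y k * g k ∈ J f := by
      intro k
      by_cases hk : (k : ℕ) < r
      · have h2 : g k = f ⟨k, hk⟩ := by
          rw [← hgf]
          rfl
        rw [h2]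
        exact Ideal.mul_mem_left _ _ (Ideal.subset_span ⟨_, rfl⟩)
      · have h0 : y k = 0 := by
          have h3 := he k (by omega)
          have := hy k
          rw [Rm, if_neg (by omega)] at this
          simpa using this
        rw [h0, zero_mul]
        exact Ideal.zero_mem _
    exact Ideal.sum_mem _ fun k _ => h1 k
  · intro p hp
    refine ⟨hp.1, ?_⟩
    have h1 : p ∈ J f := hp.2
    refine Ideal.span_mono ?_ h1
    rintro x ⟨i, rfl⟩
    exact ⟨Fin.castLE hr i, hgf i⟩

end RGA_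

open RGA_ in
theorem p_RGA (h_EXT : T_EXT.{u}) (h_BIG : T_BIG.{u}) : T_RGA.{u} := by
  intro K _ _ n r hr d a hm h2 hE ha f hf W hW1 hW2
  have hC : ∑ i, a i < d + 2 + ∑ i, a i := by omega
  have hC2 : d + 2 ≤ d + 2 + ∑ i, a i := by omega
  generalize hCe : d + 2 + ∑ i, a i = C at hC hC2
  have hbE : EG K (bb r C a) := eg h_BIG K n r hr C a hm h2 hC hE
  have hb : ∀ j : Fin n, r ≤ (j : ℕ) → d + 2 ≤ bb r C a j := by
    intro j hj
    rw [bb_ge r C a j (by omega)]
    exact hC2.trans (le_pow C j)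
  have hb1 : ∀ i, 1 ≤ bb r C a i := by
    intro i
    by_cases hi : (i : ℕ) < r
    · rw [bb_lt r C a i hi]
      exact le_trans (by norm_num) (h2 i)
    · have := hb i (by omega)
      omega
  have hba : bb r C a ∘ Fin.castLE hr = a ∘ Fin.castLE hr := by
    funext i
    exact bb_lt r C a _ i.isLt
  obtain ⟨g, hg, hgf⟩ := h_EXT K n r hr f (bb r C a) hb1 (by rw [hba]; exact hf)
  have e1 : Jd g d = Jd f d := jd_eq hr f g _ hg.hom hgf d (fun j hj => by
    have := hb j hj
    omega)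
  have e2 : Jd g (d + 1) = Jd f (d + 1) := jd_eq hr f g _ hg.hom hgf (d + 1) (fun j hj => by
    have := hb j hj
    omega)
  have e3 : up g d W = up f d W := by
    unfold up
    rw [e2]
  have key := hbE d (Module.finrank K (Rd K n 2)) g hg W (by rw [e1]; exact hW1) hW2
    (Nat.le_add_left _ _)
  unfold GoodA at key
  rw [e1, e2, e3] at key
  exact sh a ha hC2 key

end Pool.Agent.EGX
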