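import Pool.Agent.EGX.Targets
import Pool.Agent.EGS.P_AVO

set_option autoImplicit false
open MvPolynomial hiding R

/-!
# Project EGX, target RGB: the step to a smaller degree
-/

namespace Pool.Agent.EGX

open Pool.Agent.EGU Pool.Agent.EGS Pool.Agent.EGT

universe u

noncomputable section

namespace RGB_

variable {K : Type u} [Field K] {n m : ℕ}

theorem mem_Rm {e k : ℕ} {y : R K n} (hy : y ∈ Rm K n e k) :
    (k ≤ e ∧ y ∈ Rd K n (e - k)) ∨ (e < k ∧ y = 0) := by
  unfold Rm at hy
  split_ifs at hy with h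
  · exact Or.inl ⟨h, hy⟩
  · exact Or.inr ⟨not_le.mp h, (Submodule.mem_bot K).mp hy⟩

theorem mul_mem {e k : ℕ} {y q : R K n} (hy : y ∈ Rm K n e k) (hq : q.IsHomogeneous k) :
    y * q ∈ Rd K n e := by
  rcases mem_Rm hy with ⟨h, hy⟩ | ⟨_, rfl⟩
  · have h2 : (y * q).IsHomogeneous (e - k + k) :=
      ((mem_homogeneousSubmodule _ _).mp hy).mul hq
    rw [Nat.sub_add_cancel h] at h2
    exact (mem_homogeneousSubmodule _ _).mpr h2
  · rw [zero_mul]
    exact Submodule.zero_mem _

theorem Sh_mono {a : Fin n → ℕ} {d v G G' : ℕ} (h : Sh a d v G) (hG : G ≤ G') :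
    Sh a d v G' := by
  obtain ⟨M, h1, h2, h3⟩ := h
  exact ⟨M, h1, h2, h3.trans hG⟩

theorem Std_subset {a b : Fin n → ℕ} (h : ∀ i, b i ≤ a i) (d : ℕ) : Std b d ⊆ Std a d := by
  intro x hx
  unfold Std at hx ⊢
  rw [Finset.mem_filter] at hx ⊢
  exact ⟨hx.1, fun i => lt_of_lt_of_le (hx.2 i) (h i)⟩

/-- The ideal of the first `r` forms. -/
theorem J_le (f : Fin n → R K n) {r : ℕ} (hr : r ≤ n) : J (f ∘ Fin.castLE hr) ≤ J f := by
  unfold J
  apply Ideal.span_mono
  rintro x ⟨i, rfl⟩
  exact ⟨Fin.castLE hr i, rfl⟩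

theorem mem_J (f : Fin m → R K n) (i : Fin m) : f i ∈ J f := Ideal.subset_span ⟨i, rfl⟩

/-- In degree `d` only the first `r` forms matter. -/
theorem Jd_eq (f : Fin n → R K n) (a : Fin n → ℕ) (hf : CI f a) {r d : ℕ} (hr : r ≤ n)
    (ha : ∀ j : Fin n, r ≤ (j : ℕ) → d + 1 ≤ a j) : Jd f d = Jd (f ∘ Fin.castLE hr) d := by
  apply le_antisymm
  · intro p hp
    refine ⟨hp.1, ?_⟩
    obtain ⟨y, hy, hpy⟩ := ((t_jd K n n f a hf.hom).1 d p).mp hp
    rw [hpy]
    change ∑ k, y k * f k ∈ J (f ∘ Fin.castLE hr)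
    refine Ideal.sum_mem _ fun k _ => ?_
    by_cases hk : (k : ℕ) < r
    · exact Ideal.mul_mem_left _ _ (Ideal.subset_span ⟨⟨k, hk⟩, rfl⟩)
    · rcases mem_Rm (hy k) with ⟨h, _⟩ | ⟨_, h⟩
      · have := ha k (not_lt.mp hk)
        omega
      · rw [h, zero_mul]
        exact Ideal.zero_mem _
  · intro p hp
    exact ⟨hp.1, J_le f hr hp.2⟩

/-- The first `r` forms are a regular sequence. -/
theorem CI_init (f : Fin n → R K n) (a : Fin n → ℕ) (hf : CI f a) {r : ℕ} (hr : r ≤ n) :
    CI (f ∘ Fin.castLE hr) (a ∘ Fin.castLE hr) where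
  pos i := hf.pos _
  hom i := hf.hom _
  reg j p hp := by
    have he : (f ∘ Fin.castLE hr) '' {i | i < j} = f '' {i | i < Fin.castLE hr j} := by
      ext x
      constructor
      · rintro ⟨i, hi, rfl⟩
        exact ⟨Fin.castLE hr i, hi, rfl⟩
      · rintro ⟨i, hi, rfl⟩
        have hi' : (i : ℕ) < (j : ℕ) := hi
        exact ⟨⟨i, lt_trans hi' j.2⟩, hi', rfl⟩
    rw [he] at hp ⊢
    exact hf.reg _ p hp

end RGB_

open RGB_

theorem p_RGB (h_RGA : T_RGA.{u}) (h_NZC : T_NZC.{u}) (h_CPL : T_CPL.{u}) (h_NCL : T_NCL) :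
    T_RGB.{u} := by
  intro K _ _ n r d hr a hm h2 hd har hEG hEA N f hf W hJW hWR hN
  have ha : ∀ j : Fin n, r ≤ (j : ℕ) → d + 1 ≤ a j := by
    intro j hj
    rw [← har]
    exact hm (Fin.le_def.mpr hj)
  have hfin : ∀ e, Module.Finite K (Rd K n e) := fun e => (t_dimr K n e).1
  have hfr : ∀ (e : ℕ) (U : Submodule K (R K n)), U ≤ Rd K n e → Module.Finite K U := by
    intro e U hU
    have := hfin e
    exact Submodule.finiteDimensional_of_le hU
  set f' : Fin r → R K n := f ∘ Fin.castLE hr.le with hf'def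
  have hf' : CI f' (a ∘ Fin.castLE hr.le) := CI_init f a hf hr.le
  have hJd : Jd f d = Jd f' d := Jd_eq f a hf hr.le ha
  have hJ1 : Jd f' (d + 1) ≤ Jd f (d + 1) := fun p hp => ⟨hp.1, J_le f hr.le hp.2⟩
  have hU := t_upl K n n f a hf.hom d W hWR
  have hU' := t_upl K n r f' _ hf'.hom d W hWR
  have hup : up f d W = up f' d W ⊔ Jd f (d + 1) := by
    unfold up
    rw [sup_assoc, sup_eq_right.mpr hJ1]
  by_cases hcase : up f' d W ⊓ Jd f (d + 1) ≤ Jd f' (d + 1)
  · -- no new elements
    have hinf : up f' d W ⊓ Jd f (d + 1) = Jd f' (d + 1) :=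
      le_antisymm hcase (le_inf hU'.1 hJ1)
    have : Module.Finite K (up f' d W) := hfr (d + 1) _ hU'.2.1
    have : Module.Finite K (Jd f (d + 1)) := hfr (d + 1) _ inf_le_left
    have hdim := Submodule.finrank_sup_add_finrank_inf_eq (up f' d W) (Jd f (d + 1))
    rw [hinf, ← hup] at hdim
    have hS := h_RGA K n r hr.le d a hm h2 hEG ha f' hf' W (hJd ▸ hJW) hWR
    unfold GoodA
    rw [hJd]
    refine Sh_mono hS ?_
    omega
  · -- a form `h` of degree `d + 1`
    obtain ⟨h, hh1, hh2⟩ := Set.not_subset.mp hcase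
    have hhR : h ∈ Rd K n (d + 1) := hh1.2.1
    have hhf' : h ∉ J f' := fun hc => hh2 ⟨hhR, hc⟩
    have hnzd := h_NZC K n f a hf r hr.le d ha h hhR hh1.2.2 hhf'
    -- a nonzerodivisor in `W`
    obtain ⟨w, hwW, hw⟩ : ∃ w ∈ W, ∀ p, w * p ∈ J f' → p ∈ J f' := by
      by_contra hcon
      push Not at hcon
      obtain ⟨p, hp, hWp⟩ := p_AVO K n (J f') W fun v hv => by
        obtain ⟨p, hp1, hp2⟩ := hcon v hv
        exact ⟨p, hp2, hp1⟩
      apply hp
      apply hnzd
      have key : ∀ x ∈ Rd K n 1 * W, x * p ∈ J f' := by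
        intro x hx
        induction hx using Submodule.mul_induction_on' with
        | mem_mul_mem l _ v hv =>
          rw [mul_assoc]
          exact Ideal.mul_mem_left _ _ (hWp v hv)
        | add x _ y _ hx hy =>
          rw [add_mul]
          exact Ideal.add_mem _ hx hy
      obtain ⟨x, hx, y, hy, hxy⟩ := Submodule.mem_sup.mp hh1.1
      rw [← hxy, add_mul]
      exact Ideal.add_mem _ (key x hx) (Ideal.mul_mem_right _ _ hy.2)
    obtain ⟨g, hg, hg1, hg2, hg3⟩ := h_CPL K n f a hf hm r hr d hd w (hWR hwW) hw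
    set b := Function.update a ⟨r, hr⟩ d with hb
    have hbr : b ⟨r, hr⟩ = d := Function.update_self _ _ _
    have hbne : ∀ i : Fin n, (i : ℕ) ≠ r → b i = a i := by
      intro i hi
      rw [hb, Function.update_of_ne]
      intro h0
      exact hi (by rw [h0])
    have hba : ∀ i, b i ≤ a i := by
      intro i
      by_cases hi : (i : ℕ) = r
      · have hi' : i = ⟨r, hr⟩ := Fin.ext hi
        rw [hi', hbr, har]
        omega
      · rw [hbne i hi]
    have hir : ∀ i : Fin n, (i : ℕ) = r → g i = w := by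
      intro i hi
      have hi' : i = ⟨r, hr⟩ := Fin.ext hi
      rw [hi', hg2]
    -- `J_d g ≤ W`
    have hgW : Jd g d ≤ W := by
      intro p hp
      obtain ⟨y, hy, hpy⟩ := ((t_jd K n n g b hg.hom).1 d p).mp hp
      rw [hpy]
      refine Submodule.sum_mem _ fun k _ => ?_
      rcases lt_trichotomy (k : ℕ) r with hk | hk | hk
      · apply hJW
        refine ⟨mul_mem (hy k) (hg.hom k), ?_⟩
        rw [hg1 k hk]
        exact Ideal.mul_mem_left _ _ (mem_J f k)
      · have hyk := hy k
        have hbk : b k = d := by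
          have hi' : k = ⟨r, hr⟩ := Fin.ext hk
          rw [hi', hbr]
        rw [hbk] at hyk
        rcases mem_Rm hyk with ⟨_, h0⟩ | ⟨h0, _⟩
        · rw [Nat.sub_self] at h0
          have hc : y k = C (coeff 0 (y k)) :=
            (totalDegree_eq_zero_iff_eq_C).mp
              (Nat.le_zero.mp (((mem_homogeneousSubmodule _ _).mp h0).totalDegree_le))
          rw [hc, hir k hk, ← smul_eq_C_mul]
          exact W.smul_mem _ hwW
        · omega
      · rcases mem_Rm (hy k) with ⟨h0, _⟩ | ⟨_, h0⟩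
        · rw [hbne k (by omega)] at h0
          have := ha k hk.le
          omega
        · rw [h0, zero_mul]
          exact W.zero_mem
    -- `J_{d+1} g ≤ up f d W`
    have hgU : Jd g (d + 1) ≤ up f d W := by
      intro p hp
      obtain ⟨y, hy, hpy⟩ := ((t_jd K n n g b hg.hom).1 (d + 1) p).mp hp
      rw [hpy]
      refine Submodule.sum_mem _ fun k _ => ?_
      by_cases hk : (k : ℕ) = r
      · have hyk := hy k
        have hbk : b k = d := by
          have hi' : k = ⟨r, hr⟩ := Fin.ext hk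
          rw [hi', hbr]
        rw [hbk] at hyk
        rcases mem_Rm hyk with ⟨_, h0⟩ | ⟨h0, _⟩
        · rw [show d + 1 - d = 1 by omega] at h0
          rw [hir k hk]
          exact Submodule.mem_sup_left (Submodule.mul_mem_mul h0 hwW)
        · omega
      · apply hU.1
        refine ⟨mul_mem (hy k) (hg.hom k), ?_⟩
        refine Ideal.mul_mem_left _ _ ?_
        rcases lt_or_gt_of_ne hk with hk | hk
        · rw [hg1 k hk]
          exact mem_J f k
        · exact hg3 k hk
    have hupg : up g d W ≤ up f d W := by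
      unfold up at hgU ⊢
      exact sup_le le_sup_left hgU
    have hG : GoodA b g d W := hEA _ g hg W hgW hWR (Nat.le_add_left _ _)
    have hUg := t_upl K n n g b hg.hom d W hWR
    have hS := h_NCL n a b hm hba d _ _ hG
    have e1 := a_hf K n f a hf d
    have e2 := a_hf K n f a hf (d + 1)
    have e3 := a_hf K n g b hg d
    have e4 := a_hf K n g b hg (d + 1)
    have c1 := Finset.card_le_card (Std_subset hba d)
    have c2 := Finset.card_le_card (Std_subset hba (d + 1))
    have : Module.Finite K W := hfr d _ hWR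
    have : Module.Finite K (up g d W) := hfr (d + 1) _ hUg.2.1
    have : Module.Finite K (up f d W) := hfr (d + 1) _ hU.2.1
    have i1 := Submodule.finrank_mono hgW
    have i2 := Submodule.finrank_mono hUg.1
    have i3 := Submodule.finrank_mono hupg
    unfold GoodA
    have ev : Module.finrank K W - Module.finrank K (Jd g d) +
        ((Std a d).card - (Std b d).card) = Module.finrank K W - Module.finrank K (Jd f d) := by
      omega
    rw [ev] at hS
    refine Sh_mono hS ?_
    omega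

end

end Pool.Agent.EGX
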