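import Pool.Agent.EGX.Targets
import Pool.Agent.EGT.P_KNW

set_option autoImplicit false
open MvPolynomial hiding R

/-!
# SML: small sequences
-/

namespace Pool.Agent.EGX

open Pool.Agent.EGU Pool.Agent.EGS Pool.Agent.EGT

universe u

namespace SML_

open KNW_

/-- The last step. -/
theorem last (h_BIG : T_BIG.{u}) (h_BGE : T_BGE.{u}) (K : Type u) [Field K] [IsAlgClosed K]
    (n : ℕ) (a : Fin (n + 1) → ℕ) (hm : Monotone a) (h2 : ∀ i, 2 ≤ a i)
    (hS : S a n ≤ a (Fin.last n)) (hE : EG K (a ∘ Fin.castSucc)) : EG K a := by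
  have hinf : Infinite K := inferInstance
  rcases Nat.lt_or_ge (S a n) (a (Fin.last n)) with hlt | hge
  · exact h_BIG K n a hm h2 hlt hE
  · have heq : a (Fin.last n) = S a n := le_antisymm hge hS
    refine h_BGE K n a hm h2 ?_ heq hE
    by_contra hn
    have hn2 : n = 0 ∨ n = 1 := by omega
    rcases hn2 with rfl | rfl
    · have h3 : S a 0 = 0 := (t_num 1 a).1
      have := h2 (Fin.last 0)
      omega
    · have h5 := S_last (n := 0) (a ∘ Fin.castSucc)
      rw [S_cast a 1 le_rfl, (t_num 1 (a ∘ Fin.castSucc)).1] at h5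
      have h6 : (a ∘ Fin.castSucc) (Fin.last 0) ≤ a (Fin.last 1) := hm (by simp)
      have h7 := h2 (Fin.last 1)
      have h8 : S a 1 = 0 + ((a ∘ Fin.castSucc) (Fin.last 0) - 1) := h5
      omega

/-- The degrees `(2, 2, b, c)`. -/
theorem four (h_BIG : T_BIG.{u}) (h_BGE : T_BGE.{u}) (h_KNW : T_KNW.{u}) (h_QBB : T_QBB.{u})
    (K : Type u) [Field K] [IsAlgClosed K] (a : Fin 4 → ℕ) (hm : Monotone a)
    (h2 : ∀ i, 2 ≤ a i) (h0 : a 0 = 2) (h1 : a 1 = 2) : EG K a := by
  have h23 : a 2 ≤ a 3 := hm (by decide)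
  rcases Nat.lt_or_ge (a 2) (a 3) with hlt | hge
  · have hmc : Monotone (a ∘ Fin.castSucc) := fun i j hij => hm (by simpa using hij)
    have hS : S a 3 = a 2 + 1 := by
      have e1 : S a 1 = S a 0 + (a 0 - 1) := (t_num 4 a).2.1 0 (by norm_num)
      have e2 : S a 2 = S a 1 + (a 1 - 1) := (t_num 4 a).2.1 1 (by norm_num)
      have e3 : S a 3 = S a 2 + (a 2 - 1) := (t_num 4 a).2.1 2 (by norm_num)
      have e0 := (t_num 4 a).1
      have f4 := h2 2
      omega
    refine last h_BIG h_BGE K 3 a hm h2 ?_ (h_KNW K 3 _ hmc (fun i => h2 _) ⟨3, le_rfl,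
      Or.inl le_rfl, fun j hj h3 => absurd hj (by omega)⟩)
    rw [hS]
    exact hlt
  · have heq : a = ![2, 2, a 2, a 2] := by
      funext i
      fin_cases i
      · exact h0
      · exact h1
      · rfl
      · exact le_antisymm hge h23
    rw [heq]
    exact h_QBB K (a 2) (h2 2)

end SML_

open KNW_ SML_ in
theorem p_SML (h_BIG : T_BIG.{u}) (h_BGE : T_BGE.{u}) (h_KNW : T_KNW.{u}) (h_QBB : T_QBB.{u})
    (h_VTW : T_VTW.{u}) : T_SML.{u} := by
  intro K _ _ n
  induction n with
  | zero =>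
    intro a hm h2 _ d N f hf W h1 h3 _
    have hS : S a 0 = 0 := (t_num 0 a).1
    exact (h_VTW K 0 f a hf hm h2 d W h1 h3).2.1 (by rw [hS]; exact Nat.zero_le d)
  | succ n ih =>
    intro a hm h2 hk
    have hmc : Monotone (a ∘ Fin.castSucc) := fun i j hij => hm (by simpa using hij)
    have h2c : ∀ i, 2 ≤ (a ∘ Fin.castSucc) i := fun i => h2 _
    obtain ⟨m, hmn, hm3, hbig⟩ := hk
    rcases Nat.lt_or_ge m (n + 1) with hlt | hge
    · refine SML_.last h_BIG h_BGE K n a hm h2 (hbig n (Nat.lt_succ_self n) (by omega))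
        (ih _ hmc h2c ⟨m, by omega, ?_, ?_⟩)
      · rcases hm3 with h | h | ⟨h, h'⟩
        · exact Or.inl h
        · right
          left
          rw [S_cast a m (by omega)]
          exact h
        · right
          right
          exact ⟨h, fun i hi => h' (Fin.castSucc i) hi⟩
      · intro j hj hmj
        rw [S_cast a j (by omega)]
        exact hbig j (by omega) hmj
    · have hmeq : m = n + 1 := le_antisymm hmn hge
      rcases hm3 with h | h | ⟨h, h'⟩
      · refine h_KNW K (n + 1) a hm h2 ⟨m, hmn, Or.inl h, fun j hj hmj => ?_⟩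
        omega
      · refine h_KNW K (n + 1) a hm h2 ⟨m, hmn, Or.inr h, fun j hj hmj => ?_⟩
        omega
      · have hn3 : n = 3 := by omega
        subst hn3
        exact SML_.four h_BIG h_BGE h_KNW h_QBB K a hm h2 (h' 0 (by norm_num))
          (h' 1 (by norm_num))

end Pool.Agent.EGX
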