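import Pool.Agent.EGX.Targets

set_option autoImplicit false
open MvPolynomial hiding R

/-!
# Project EGX, target SPM: the theorem on split forms
-/

namespace Pool.Agent.EGX

open Pool.Agent.EGU Pool.Agent.EGS Pool.Agent.EGT

universe u

noncomputable section

namespace SPM_

variable {K : Type u} [Field K]

theorem Sh_mono {n : ℕ} {a : Fin n → ℕ} {d v G G' : ℕ} (h : Sh a d v G) (hG : G ≤ G') :
    Sh a d v G' := by
  obtain ⟨M, h1, h2, h3⟩ := h
  exact ⟨M, h1, h2, h3.trans hG⟩

/-- The case of a surjective `e`. -/
theorem surj {n m N : ℕ} (a : Fin n → ℕ) (e : Fin m ↪o Fin n) (he : Function.Surjective e)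
    (hEA : ∀ d, EA K (fun x => a (e x)) d N) (f : Fin n → R K n) (hf : CI f a) :
    EF a f N := by
  have hmn : m = n := by
    have := Fintype.card_of_bijective ⟨e.injective, he⟩
    simpa using this
  subst hmn
  have hid : (e : Fin m → Fin m) = id := by
    apply (StrictMono.range_inj e.strictMono strictMono_id).mp
    rw [he.range_eq, Set.range_id]
  have h2 : (fun x => a (e x)) = a := by
    funext x
    rw [congrFun hid x]
    rfl
  rw [h2] at hEA
  intro d W h1 h3 h4
  exact hEA d f hf W h1 h3 h4

/-- The embedding `e` into the complement of `i`. -/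
theorem factor {n m : ℕ} (e : Fin m ↪o Fin (n + 1)) (i : Fin (n + 1)) (hi : i ∉ Set.range e) :
    ∃ e' : Fin m ↪o Fin n, ∀ x, e x = i.succAbove (e' x) := by
  have h : ∀ x, ∃ y, i.succAbove y = e x := fun x =>
    Fin.exists_succAbove_eq fun hx => hi ⟨x, hx⟩
  choose g hg using h
  refine ⟨OrderEmbedding.ofMapLEIff g fun x y => ?_, fun x => (hg x).symm⟩
  rw [← Fin.succAbove_le_succAbove_iff (p := i), hg, hg]
  exact e.le_iff_le

theorem prod_mem {n k : ℕ} (s : Finset (Fin k)) (L : Fin k → R K n) (hL : ∀ i, L i ∈ Rd K n 1) :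
    ∏ i ∈ s, L i ∈ Rd K n s.card := by
  have h := IsHomogeneous.prod s L (fun _ => 1) fun i _ =>
    (mem_homogeneousSubmodule _ _).mp (hL i)
  rw [Finset.sum_const, smul_eq_mul, mul_one] at h
  exact (mem_homogeneousSubmodule _ _).mpr h

theorem mono_comp {n : ℕ} {a : Fin (n + 1) → ℕ} (ha : Monotone a) (i : Fin (n + 1)) :
    Monotone fun j => a (i.succAbove j) := fun _ _ h =>
  ha (i.strictMono_succAbove.monotone h)

end SPM_

open SPM_

theorem p_SPM (h_TLM : T_TLM.{u}) (h_PRL : T_PRL.{u}) (h_CMB : T_CMB) : T_SPM.{u} := by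
  intro K _ n
  induction n with
  | zero =>
    intro m N a e _ _ hEA f hf _
    exact surj a e (fun x => x.elim0) hEA f hf
  | succ n ih =>
    intro m N a e hm h2 hEA f hf hspl
    by_cases he : Function.Surjective e
    · exact surj a e he hEA f hf
    obtain ⟨i, hi⟩ : ∃ i, i ∉ Set.range e := by
      by_contra hcon
      push Not at hcon
      exact he hcon
    obtain ⟨e', he'⟩ := factor e i hi
    obtain ⟨L, hL, hfi⟩ := hspl i hi
    intro d W hJW hWR hN
    have hkill : ∀ w ∈ W, (∏ k, L k) * w ∈ J f := by
      intro w _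
      rw [← hfi]
      exact Ideal.mul_mem_right _ _ (Ideal.subset_span ⟨i, rfl⟩)
    obtain ⟨U, κ, u, hU, hκ, hWκ, hsum⟩ :=
      h_PRL K (n + 1) (n + 1) f a hf.hom (a i) L hL d W hJW hWR hkill
    have hfin : ∀ (k e : ℕ) (U : Submodule K (R K k)), U ≤ Rd K k e → Module.Finite K U := by
      intro k e U hU
      have := (t_dimr K k e).1
      exact Submodule.finiteDimensional_of_le hU
    have claim : ∀ j, j < a i → (d + j + 1 < a i ∧ κ j = 0) ∨
        ∃ d', d' + (a i - 1) = d + j ∧ Sh (fun j => a (i.succAbove j)) d' (κ j) (u j) := by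
      intro j hj
      obtain ⟨hU1, hU2, ⟨x, hx⟩, hU3, hU4, hU5⟩ := hU j hj
      have hh : ∏ k ∈ Finset.univ.erase x, L k ∈ Rd K (n + 1) (a i - 1) := by
        have := prod_mem (Finset.univ.erase x) L hL
        rwa [Finset.card_erase_of_mem (Finset.mem_univ x), Finset.card_univ,
          Fintype.card_fin] at this
      obtain ⟨F, hF, hFs, hF0, hF1⟩ := h_TLM K n f a i hf hm (L x)
        (∏ k ∈ Finset.univ.erase x, L k) (hL x) hh
        (by rw [hfi, Finset.mul_prod_erase _ _ (Finset.mem_univ x)])
      by_cases hc : d + j + 1 < a i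
      · left
        refine ⟨hc, ?_⟩
        have hle : U j ≤ Jd f (d + j) := fun p hp =>
          ⟨hU2 hp, hF0 (d + j) hc p (hU2 hp) (hx p hp)⟩
        have := hfin _ _ (Jd f (d + j)) inf_le_left
        have := Submodule.finrank_mono hle
        omega
      · right
        obtain ⟨d', hd'⟩ : ∃ d', d' + (a i - 1) = d + j := ⟨d + j - (a i - 1), by omega⟩
        refine ⟨d', hd', ?_⟩
        rw [← hd'] at hU1 hU2 hU4 hU5
        have horth : Module.finrank K (orth f 2 W) ≤ Module.finrank K (orth f 2 (U j)) := by
          have := hfin _ 2 (orth f 2 (U j)) fun p hp => hp.1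
          exact Submodule.finrank_mono hU3
        obtain ⟨W', hW1, hW2, hW3, hW4, hW5⟩ := hF1 d' N (U j) hU1 hU2 hx (by omega)
        have hEF : EF (fun j => a (i.succAbove j)) F N := by
          refine ih m N _ e' (mono_comp hm i) (fun j => h2 _) ?_ F hF ?_
          · intro d0
            have h3 : (fun x => a (i.succAbove (e' x))) = fun x => a (e x) := by
              funext x
              rw [he' x]
            rw [h3]
            exact hEA d0
          · intro j' hj'
            apply hFs
            apply hspl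
            rintro ⟨y, hy⟩
            apply hj'
            refine ⟨y, ?_⟩
            rw [he' y] at hy
            exact Fin.succAbove_right_injective hy
        have hG := hEF d' W' hW1 hW2 hW5
        unfold GoodA at hG
        have ev : Module.finrank K W' - Module.finrank K (Jd F d') = κ j := by omega
        rw [ev] at hG
        exact Sh_mono hG (by omega)
    have hS := h_CMB n a i hm (fun i => le_trans (by norm_num) (h2 i)) d κ u hκ claim
    unfold GoodA
    have ev : Module.finrank K W - Module.finrank K (Jd f d) =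
        ∑ j ∈ Finset.range (a i), κ j := by omega
    rw [ev]
    exact Sh_mono hS (by omega)

end

end Pool.Agent.EGX
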