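import Pool.Agent.EGX.Targets
import Pool.Agent.EGS.P_RED
import Pool.Agent.EGS.P_TRW

set_option autoImplicit false
open MvPolynomial hiding R

/-!
The tail of a split form: `T_TLM`.
-/

namespace Pool.Agent.EGX

open Pool.Agent.EGU Pool.Agent.EGS Pool.Agent.EGT

universe u

namespace TLM_

theorem spl_map {K : Type u} [Field K] {n : ℕ} (θ : R K (n + 1) →ₐ[K] R K n)
    (hθ : ∀ p ∈ Rd K (n + 1) 1, θ p ∈ Rd K n 1) {d : ℕ} {p : R K (n + 1)} (h : Spl d p) :
    Spl d (θ p) := by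
  obtain ⟨L, hL, rfl⟩ := h
  exact ⟨fun k => θ (L k), fun k => hθ _ (hL k), map_prod θ L Finset.univ⟩

end TLM_

/-- Target TLM. -/
theorem p_TLM (h_FRO : T_FRO.{u}) (h_FAC : T_FAC.{u}) (h_TLI : T_TLI.{u})
    (h_KRO : T_KRO.{u}) : T_TLM.{u} := by
  intro K _ n f a i hf hm L h hL hh hfi
  have hfro := h_FRO K (n + 1) n f a i hf
  have hpos := hf.pos i
  obtain ⟨e, he⟩ : ∃ e, a i = 1 + e := ⟨a i - 1, by omega⟩
  have he' : a i - 1 = e := by omega
  rw [he'] at hh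
  have hg : CI (Fin.cons L (fun j => f (i.succAbove j)) : Fin (n + 1) → R K (n + 1))
      (Fin.cons 1 (fun j => a (i.succAbove j)) : Fin (n + 1) → ℕ) := by
    refine h_FAC K (n + 1) n (fun j => f (i.succAbove j)) (fun j => a (i.succAbove j)) L h 1 e
      le_rfl hL hh ?_
    rw [← hfi, ← he]
    exact hfro
  set g : Fin (n + 1) → R K (n + 1) := Fin.cons L (fun j => f (i.succAbove j)) with hgdef
  have hg0 : g 0 = L := rfl
  have hgs : ∀ j : Fin n, g j.succ = f (i.succAbove j) := fun j => rfl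
  have hgf : ∀ j : Fin n, g j.succ ∈ J f := fun j => by
    rw [hgs]
    exact Ideal.subset_span ⟨_, rfl⟩
  obtain ⟨θ, hθ1, hθ2, hθ3, hθ4⟩ := p_RED K n (fun j => a (i.succAbove j)) g hg
  refine ⟨fun j => θ (g j.succ), hθ3, ?_, ?_, ?_⟩
  · intro j hj
    exact TLM_.spl_map θ (hθ1 1) hj
  · intro e he p hp hLp
    exact h_KRO K n f g a i hf hm hg hgf e he p hp (by rw [hg0]; exact hLp)
  · intro d N W hW1 hW2 hLW horth
    obtain ⟨W', hW'1, hW'2, hdim, hup, ho⟩ := h_TLI K n f g a i hf hm hg hgf d W hW1 hW2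
      (by rw [hg0]; exact hLW)
    obtain ⟨t1, t2, t3, t4, t5⟩ := p_TRW K n (fun j => a (i.succAbove j)) g hg θ hθ1 hθ2 hθ3 hθ4
      d W' hW'1 hW'2
    have t5' := t5 2
    refine ⟨W'.map θ.toLinearMap, t1, t2, ?_, ?_, ?_⟩
    · omega
    · omega
    · omega

end Pool.Agent.EGX
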