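import Pool.Agent.EGS.P_ASM
import Pool.Agent.EGS.P_BCE
import Pool.Agent.EGS.P_GEN
import Pool.Agent.EGS.P_GRW
import Pool.Agent.EGS.P_KKC
import Pool.Agent.EGS.P_KKM
import Pool.Agent.EGS.P_KSP
import Pool.Agent.EGS.P_MTW
import Pool.Agent.EGS.P_NET
import Pool.Agent.EGS.P_PRD
import Pool.Agent.EGS.P_PST
import Pool.Agent.EGS.P_RED
import Pool.Agent.EGS.P_RES
import Pool.Agent.EGS.P_SHQ
import Pool.Agent.EGS.P_SOK
import Pool.Agent.EGS.P_SP2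
import Pool.Agent.EGS.P_TAI
import Pool.Agent.EGS.P_TLG
import Pool.Agent.EGS.P_TRW
import Pool.Agent.EGS.P_WEB
import Pool.Agent.EGT.P_ASG
import Pool.Agent.EGT.P_BIG
import Pool.Agent.EGT.P_CLB
import Pool.Agent.EGT.P_CLT
import Pool.Agent.EGT.P_CMG
import Pool.Agent.EGT.P_CMP
import Pool.Agent.EGT.P_GLF
import Pool.Agent.EGT.P_HTW
import Pool.Agent.EGT.P_KCG
import Pool.Agent.EGT.P_LAY
import Pool.Agent.EGT.P_NTH
import Pool.Agent.EGT.P_PSG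
import Pool.Agent.EGT.P_RSG
import Pool.Agent.EGT.P_SWP
import Pool.Agent.EGT.P_TAG
import Pool.Agent.EGT.P_TLH
import Pool.Agent.EGT.P_VTW
import Pool.Agent.EGX.P_BCX
import Pool.Agent.EGX.P_BGE
import Pool.Agent.EGX.P_CMB
import Pool.Agent.EGX.P_CPL
import Pool.Agent.EGX.P_EXT
import Pool.Agent.EGX.P_FAC
import Pool.Agent.EGX.P_FRO
import Pool.Agent.EGX.P_IDX
import Pool.Agent.EGX.P_IDY
import Pool.Agent.EGX.P_KRO
import Pool.Agent.EGX.P_NCL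
import Pool.Agent.EGX.P_NQS
import Pool.Agent.EGX.P_NST
import Pool.Agent.EGX.P_NZC
import Pool.Agent.EGX.P_OPA
import Pool.Agent.EGX.P_OPR
import Pool.Agent.EGX.P_PRL
import Pool.Agent.EGX.P_QBB
import Pool.Agent.EGX.P_RGA
import Pool.Agent.EGX.P_RGB
import Pool.Agent.EGX.P_SML
import Pool.Agent.EGX.P_SPM
import Pool.Agent.EGX.P_TLI
import Pool.Agent.EGX.P_TLM
import Pool.Agent.EGX.Fin

set_option autoImplicit false
open MvPolynomial hiding R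

/-!
# Projects EGS, EGT, EGX: all targets together
-/

namespace Pool.Agent.EGX

open Pool.Agent.EGU Pool.Agent.EGS Pool.Agent.EGT

universe u

/-! ## EGS -/

theorem a_MTW : T_MTW.{u} := p_MTW p_SOK
theorem a_TLG : T_TLG.{u} := p_TLG p_SOK
theorem a_RES : T_RES.{u} := p_RES p_ACY p_AVO
theorem a_TAI : T_TAI.{u} := p_TAI a_RES a_TLG p_RED p_TRW
theorem a_KKC : T_KKC := p_KKC p_KKM
theorem a_PST : T_PST.{u} := p_PST a_TAI p_SP2 p_PRD a_KKC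
theorem a_GEN : T_GEN.{u} := p_GEN p_KSP
theorem a_GRW : T_GRW.{u} := p_GRW a_GEN p_SOK
theorem a_NET : T_NET.{u} := p_NET a_TAI p_SHQ a_GRW
theorem a_WEB : T_WEB.{u} := p_WEB a_GRW a_NET
theorem a_ASM : T_ASM.{u} := p_ASM p_SOK p_DUA a_MTW a_PST p_SHQ a_NET a_WEB

/-! ## EGT -/

theorem a_CLT : T_CLT := p_CLT p_CMP p_SWP p_CLB
theorem a_KCG : T_KCG := p_KCG a_CLT
theorem a_TAG : T_TAG.{u} := p_TAG p_RSG p_TLH
theorem a_PSG : T_PSG.{u} := p_PSG a_TAG a_KCG p_VTW p_PRD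
theorem a_ASG : T_ASG.{u} := p_ASG a_PSG p_VTW p_HTW a_ASM
theorem a_CMG : T_CMG.{u} := p_CMG a_CLT p_GLF p_LAY
theorem a_BIG : T_BIG.{u} := p_BIG a_CMG p_VTW
theorem a_KNW : T_KNW.{u} := p_KNW a_BIG p_NTH a_ASG p_VTW

/-! ## EGX -/

theorem a_TLM : T_TLM.{u} := p_TLM p_FRO p_FAC p_TLI p_KRO
theorem a_CMB : T_CMB := p_CMB a_CLT
theorem a_SPM : T_SPM.{u} := p_SPM a_TLM p_PRL a_CMB
theorem a_OPA : T_OPA.{u} := p_OPA p_NST
theorem a_OPR : T_OPR.{u} := p_OPR a_OPA p_GLF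
theorem a_BGE : T_BGE.{u} := p_BGE a_CMG p_VTW a_OPR p_NQS
theorem a_RGA : T_RGA.{u} := p_RGA p_EXT a_BIG
theorem a_NCL : T_NCL := p_NCL a_CLT
theorem a_RGB : T_RGB.{u} := p_RGB a_RGA p_NZC p_CPL a_NCL
theorem a_QBB : T_QBB.{u} := p_QBB a_RGA a_RGB a_KNW p_VTW
theorem a_SML : T_SML.{u} := p_SML a_BIG a_BGE a_KNW a_QBB p_VTW

end Pool.Agent.EGX
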