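import Pool.Agent.EGX.Targets

set_option autoImplicit false
open MvPolynomial hiding R

/-!
Target NCL of the project EGX: from the exponents `b` to larger exponents `a`.
-/

namespace Pool.Agent.EGX

open Pool.Agent.EGU Pool.Agent.EGS Pool.Agent.EGT

universe u

namespace NCL_

variable {n : ℕ}

theorem mem_Std (a : Fin n → ℕ) (d : ℕ) (x : Fin n →₀ ℕ) :
    x ∈ Std a d ↔ (∑ i, x i) = d ∧ ∀ i, x i < a i := by
  unfold Std
  rw [Finset.mem_filter, Finset.mem_finsuppAntidiag]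
  constructor
  · rintro ⟨⟨h1, -⟩, h2⟩
    exact ⟨h1, h2⟩
  · rintro ⟨h1, h2⟩
    exact ⟨⟨h1, Finset.subset_univ _⟩, h2⟩

theorem mem_shadow (a : Fin n → ℕ) (d : ℕ) (M : Finset (Fin n →₀ ℕ)) (x : Fin n →₀ ℕ) :
    x ∈ shadow a d M ↔ x ∈ Std a (d + 1) ∧ ∃ y ∈ M, y ≤ x := by
  classical
  unfold shadow
  rw [Finset.mem_filter]

theorem Std_mono (a b : Fin n → ℕ) (hab : ∀ i, b i ≤ a i) (d : ℕ) : Std b d ⊆ Std a d := by
  intro x hx
  rw [mem_Std] at hx ⊢
  exact ⟨hx.1, fun i => lt_of_lt_of_le (hx.2 i) (hab i)⟩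

end NCL_

/-- NCL. -/
theorem p_NCL (h_CLT : T_CLT) : T_NCL := by
  classical
  intro n a b ha hab d v u hS
  obtain ⟨M, hM, hv, hu⟩ := hS
  have hsub := NCL_.Std_mono a b hab
  obtain ⟨-, -, -, hex, -⟩ := t_sega n a d
  set F : Finset (Fin n →₀ ℕ) := M ∪ (Std a d \ Std b d) with hF
  have hFsub : F ⊆ Std a d :=
    Finset.union_subset (hM.1.trans (hsub d)) Finset.sdiff_subset
  have hdisj : Disjoint M (Std a d \ Std b d) := by
    rw [Finset.disjoint_left]
    intro x hx hx'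
    exact (Finset.mem_sdiff.mp hx').2 (hM.1 hx)
  have hFcard : F.card = v + ((Std a d).card - (Std b d).card) := by
    rw [hF, Finset.card_union_of_disjoint hdisj, hv, Finset.card_sdiff_of_subset (hsub d)]
  obtain ⟨M', hM', hM'c⟩ := hex F.card (Finset.card_le_card hFsub)
  refine ⟨M', hM', hM'c.trans hFcard, ?_⟩
  refine (h_CLT n a ha d F M' hFsub hM' hM'c.le).trans ?_
  have hsh : shadow a d F ⊆ shadow b d M ∪ (Std a (d + 1) \ Std b (d + 1)) := by
    intro x hx
    rw [NCL_.mem_shadow] at hx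
    obtain ⟨hx1, y, hy, hyx⟩ := hx
    rw [Finset.mem_union]
    by_cases hxb : x ∈ Std b (d + 1)
    · left
      rw [NCL_.mem_shadow]
      refine ⟨hxb, y, ?_, hyx⟩
      rcases Finset.mem_union.mp hy with h | h
      · exact h
      · exfalso
        obtain ⟨h1, h2⟩ := Finset.mem_sdiff.mp h
        apply h2
        rw [NCL_.mem_Std] at h1 hxb ⊢
        exact ⟨h1.1, fun i => lt_of_le_of_lt (hyx i) (hxb.2 i)⟩
    · right
      exact Finset.mem_sdiff.mpr ⟨hx1, hxb⟩
  refine (Finset.card_le_card hsh).trans ((Finset.card_union_le _ _).trans ?_)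
  rw [Finset.card_sdiff_of_subset (hsub (d + 1))]
  exact Nat.add_le_add_right hu _

end Pool.Agent.EGX
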