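import Pool.Agent.EGT.Targets

set_option autoImplicit false
open MvPolynomial hiding R

/-!
# Project EGX (MP_e5dae2_al): Eisenbud-Green-Harris with split forms and slower growing degrees

(A) If the forms `f_i`, `i ∉ T`, are products of linear forms and the sequence `(a_i)_{i ∈ T}`
satisfies EGH then all ideals containing `f` satisfy EGH. (B) The extension by a last degree
`α = ∑ (a_i - 1)` (Caviglia and De Stefani; new proof). (C) The degrees `(2, 2, b, b)`.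

Everything proved in `Pool/Agent/EGU`, `Pool/Agent/EGS`, `Pool/Agent/EGT` may be used. Every target
has its proof in the docstring. A job proves `theorem Pool.Agent.EGX.p_XXX (h1 : T_A) ... : T_XXX`.
-/

namespace Pool.Agent.EGX

open Pool.Agent.EGU Pool.Agent.EGS Pool.Agent.EGT

universe u

noncomputable section

/-! ## A. Split forms -/

/-- `p` is a product of `d` linear forms. -/
def Spl {K : Type u} [Field K] {n : ℕ} (d : ℕ) (p : R K n) : Prop :=
  ∃ L : Fin d → R K n, (∀ k, L k ∈ Rd K n 1) ∧ p = ∏ k, L k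

/-- The growth inequality for a fixed regular sequence `f` and all `W` with
`dim R_2 / (J : W)_2 ≤ N`. -/
def EF {K : Type u} [Field K] {n : ℕ} (a : Fin n → ℕ) (f : Fin n → R K n) (N : ℕ) : Prop :=
  ∀ (d : ℕ) (W : Submodule K (R K n)), Jd f d ≤ W → W ≤ Rd K n d →
    Module.finrank K (Rd K n 2) ≤ Module.finrank K (orth f 2 W) + N → GoodA a f d W

/-- FRO. Moving an element to the front. PROOF. `J_j` = the ideal of the `f k`, `k < j`, `x = f i`.
(P_j) for `j ≤ i`: `x * p ∈ J_j → p ∈ J_j`, downwards from `j = i` (`CI.reg`): let `x p ∈ J_j`,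
`j < i`; taking components (T_JD, second part, for the sequence `f ∘ castLE`, or directly) let `p` be
homogeneous, induction on its degree; by (P_{j+1}) `p ∈ J_{j+1}`, `p = r + f_j p_1`, `r ∈ J_j`, `p_1`
homogeneous of smaller degree (or zero); `f_j (x p_1) ∈ J_j`, so `x p_1 ∈ J_j` (`CI.reg`),
`p_1 ∈ J_j`. (Q_j) for `j < i`: `f_j` is a nonzerodivisor modulo `(x) + J_j`: `f_j p = x q + r`,
`r ∈ J_j`, so `x q ∈ J_{j+1}`, `q ∈ J_{j+1}` by (P_{j+1}), `q = f_j q' + r'`,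
`f_j (p - x q') ∈ J_j`, `p - x q' ∈ J_j`. For `j > i` the ideal of the previous elements of the new
sequence is `J_j`. -/
def T_FRO : Prop := ∀ (K : Type u) [Field K] (n m : ℕ) (f : Fin (m + 1) → R K n)
  (a : Fin (m + 1) → ℕ) (i : Fin (m + 1)), CI f a →
  CI (Fin.cons (f i) (fun j => f (i.succAbove j)) : Fin (m + 1) → R K n)
    (Fin.cons (a i) (fun j => a (i.succAbove j)) : Fin (m + 1) → ℕ)

/-- FAC. Replacing the first element `l * h` by `l`. PROOF. `F_k` = the ideal of the first `k`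
elements of `f`. Simultaneous induction on `k ≤ m`: (E1) `h p ∈ (l h) + F_k → p ∈ (l) + F_k`; (E2)
`l p ∈ (l h) + F_k → p ∈ (h) + F_k`. `k = 0`: domain, `l`, `h ≠ 0`. Then (R1): `f_k` is a
nonzerodivisor modulo `(l) + F_k`: `f_k p ∈ (l) + F_k` gives `f_k (h p) ∈ (l h) + F_k`, so
`h p ∈ (l h) + F_k`, (E1). (R2): the same for `(h) + F_k` with (E2). Step of (E1):
`h p = l h c + r + f_k q`, `r ∈ F_k`; `f_k q ∈ (h) + F_k`, so `q = h q' + r'` by (R2), and
`h (p - f_k q') ∈ (l h) + F_k`. The same for (E2) with (R1). -/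
def T_FAC : Prop := ∀ (K : Type u) [Field K] (n m : ℕ) (f : Fin m → R K n) (a : Fin m → ℕ)
  (l h : R K n) (c e : ℕ), 1 ≤ c → l ∈ Rd K n c → h ∈ Rd K n e →
  CI (Fin.cons (l * h) f : Fin (m + 1) → R K n) (Fin.cons (c + e) a : Fin (m + 1) → ℕ) →
  CI (Fin.cons l f : Fin (m + 1) → R K n) (Fin.cons c a : Fin (m + 1) → ℕ)

/-- TLI. The tail space modulo `g`, index `i`. PROOF. As T_TLH (see `Pool/Agent/EGT/P_TLH.lean`),
`a i` in place of `a 0`, `a ∘ i.succAbove` in place of `a ∘ succ`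
(`S a (n+1) = (a i - 1) + S (a ∘ i.succAbove) n`; T_NUM, `Fin.sum_univ_succAbove`). -/
def T_TLI : Prop := ∀ (K : Type u) [Field K] (n : ℕ) (f g : Fin (n + 1) → R K (n + 1))
  (a : Fin (n + 1) → ℕ) (i : Fin (n + 1)), CI f a → Monotone a →
  CI g (Fin.cons 1 (fun j => a (i.succAbove j)) : Fin (n + 1) → ℕ) →
  (∀ j : Fin n, g j.succ ∈ J f) →
  ∀ (d : ℕ) (W : Submodule K (R K (n + 1))), Jd f (d + (a i - 1)) ≤ W →
  W ≤ Rd K (n + 1) (d + (a i - 1)) → (∀ w ∈ W, g 0 * w ∈ J f) →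
  ∃ W' : Submodule K (R K (n + 1)), Jd g d ≤ W' ∧ W' ≤ Rd K (n + 1) d ∧
    Module.finrank K W' + Module.finrank K (Jd f (d + (a i - 1))) =
      Module.finrank K (Jd g d) + Module.finrank K W ∧
    Module.finrank K (up g d W') + Module.finrank K (Jd f (d + (a i - 1) + 1)) ≤
      Module.finrank K (Jd g (d + 1)) + Module.finrank K (up f (d + (a i - 1)) W) ∧
    Module.finrank K (orth f 2 W) ≤ Module.finrank K (orth g 2 W')

/-- KRO. Forms of small degree killed by `g 0`. PROOF. `s = S a (n+1)`, `s - e > S b (n+1)` for the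
degrees `b` of `g` (`S b (n+1) = s - (a i - 1)`), so `R_{s-e} = J_{s-e} g` (T_SOK, second part); for
`h ∈ R_{s-e}`: `h = ∑ h_j g_j`, `h p = h_0 g_0 p + ∑ h_j g_j p ∈ J f`; T_SOK, first part. -/
def T_KRO : Prop := ∀ (K : Type u) [Field K] (n : ℕ) (f g : Fin (n + 1) → R K (n + 1))
  (a : Fin (n + 1) → ℕ) (i : Fin (n + 1)), CI f a → Monotone a →
  CI g (Fin.cons 1 (fun j => a (i.succAbove j)) : Fin (n + 1) → ℕ) →
  (∀ j : Fin n, g j.succ ∈ J f) →
  ∀ e, e + 1 < a i → ∀ p ∈ Rd K (n + 1) e, g 0 * p ∈ J f → p ∈ J f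

/-- TLM. The tail of a split form. PROOF. `f i = L * h`. T_FRO for `f`, `i`, and T_FAC (`c = 1`,
`e = a i - 1`) give `CI g b` for `g = Fin.cons L (f ∘ i.succAbove)`,
`b = Fin.cons 1 (a ∘ i.succAbove)`. T_RED of EGS gives `θ`, `F j = θ (g j.succ)`. `Spl` is preserved by
`θ`. Second part: T_KRO. Third part: T_TLI gives `W'`, T_TRW of EGS gives `W'' = θ W'`, the growth
and `orth` (numbers: `dim R_2 - dim (orth F 2 W'') = dim R_2 - dim (orth g 2 W')`). -/
def T_TLM : Prop := ∀ (K : Type u) [Field K] (n : ℕ) (f : Fin (n + 1) → R K (n + 1))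
  (a : Fin (n + 1) → ℕ) (i : Fin (n + 1)), CI f a → Monotone a →
  ∀ L h : R K (n + 1), L ∈ Rd K (n + 1) 1 → h ∈ Rd K (n + 1) (a i - 1) → f i = L * h →
  ∃ F : Fin n → R K n, CI F (fun j => a (i.succAbove j)) ∧
    (∀ j, Spl (a (i.succAbove j)) (f (i.succAbove j)) → Spl (a (i.succAbove j)) (F j)) ∧
    (∀ e, e + 1 < a i → ∀ p ∈ Rd K (n + 1) e, L * p ∈ J f → p ∈ J f) ∧
    ∀ (d N : ℕ) (W : Submodule K (R K (n + 1))), Jd f (d + (a i - 1)) ≤ W →
      W ≤ Rd K (n + 1) (d + (a i - 1)) → (∀ w ∈ W, L * w ∈ J f) →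
      Module.finrank K (Rd K (n + 1) 2) ≤ Module.finrank K (orth f 2 W) + N →
      ∃ W' : Submodule K (R K n), Jd F d ≤ W' ∧ W' ≤ Rd K n d ∧
        Module.finrank K W' + Module.finrank K (Jd f (d + (a i - 1))) =
          Module.finrank K (Jd F d) + Module.finrank K W ∧
        Module.finrank K (up F d W') + Module.finrank K (Jd f (d + (a i - 1) + 1)) ≤
          Module.finrank K (Jd F (d + 1)) + Module.finrank K (up f (d + (a i - 1)) W) ∧
        Module.finrank K (Rd K n 2) ≤ Module.finrank K (orth F 2 W') + N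

/-- PRL. Peeling off the factors of a product which kills `W`. PROOF. Induction on `k` with the
following additions: `κ 0 + dim J_d` is the maximum of the `dim (kerW f (L i) W)`, attained for
`i = i0` with `U 0 = kerW f (L i0) W` (`k ≥ 1`); `κ j = 0` for `j ≥ k`. `k = 0`: `W ≤ J_d`. Step:
choose `i0` with `dim (kerW f (L i0) W)` maximal, `W1 = mulW f d (L i0) W` (degree `d + 1`) is killed
by the product of the other `L i`; induction gives `U'`, `κ'`, `u'`; `U 0 = kerW f (L i0) W`,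
`U (j+1) = U' j`, `κ (j+1) = κ' j`, `u (j+1) = u' j`. `dim W - dim J_d = κ 0 + (dim W1 -
dim J_{d+1})` (T_SPLIT, see `Pool/Agent/EGU/P_SPLIT.lean`, also for the next statements).
Multiplication by `L i0` maps `up f d W` onto `up f (d+1) W1` modulo `J_{d+2}`, the kernel contains
`up f d (U 0)` (`u 0`), and for `k ≥ 2` also `E = mulW f d (L i1) Z`, `Z = {w ∈ W : L i0 L i1 w ∈ J}`,
`i1` the index for `W1`: `dim E - dim J_{d+1} = dim Z - dim (kerW f (L i1) W) ≥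
dim Z - dim (kerW f (L i0) W) = κ' 0` (`kerW f (L i1) W1 = L i0 Z + J_{d+1}`). So
`dim (up f d W) - dim J_{d+1} ≥ max (u 0) (κ' 0) + (dim (up f (d+1) W1) - dim J_{d+2})`. `orth`:
`U 0 ≤ W`, `orth f 2 W ≤ orth f 2 W1`. -/
def T_PRL : Prop := ∀ (K : Type u) [Field K] (n m : ℕ) (f : Fin m → R K n) (a : Fin m → ℕ),
  (∀ i, (f i).IsHomogeneous (a i)) → ∀ (k : ℕ) (L : Fin k → R K n), (∀ i, L i ∈ Rd K n 1) →
  ∀ (d : ℕ) (W : Submodule K (R K n)), Jd f d ≤ W → W ≤ Rd K n d →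
  (∀ w ∈ W, (∏ i, L i) * w ∈ J f) →
  ∃ (U : ℕ → Submodule K (R K n)) (κ u : ℕ → ℕ),
    (∀ j, j < k → Jd f (d + j) ≤ U j ∧ U j ≤ Rd K n (d + j) ∧
      (∃ i, ∀ w ∈ U j, L i * w ∈ J f) ∧ orth f 2 W ≤ orth f 2 (U j) ∧
      Module.finrank K (U j) = κ j + Module.finrank K (Jd f (d + j)) ∧
      Module.finrank K (up f (d + j) (U j)) = u j + Module.finrank K (Jd f (d + j + 1))) ∧
    κ k = 0 ∧
    Module.finrank K W = ∑ j ∈ Finset.range k, κ j + Module.finrank K (Jd f d) ∧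
    ∑ j ∈ Finset.range k, max (u j) (κ (j + 1)) + Module.finrank K (Jd f (d + 1)) ≤
      Module.finrank K (up f d W)

/-- CMB. The combination of the layers. PROOF. As T_KCG (see `Pool/Agent/EGT/P_KCG.lean`), with
`a i` layers. For `j < a i` let `M j` be the initial segment of `Std a' (d' j)`,
`a' = a ∘ i.succAbove`, `d' j + (a i - 1) = d + j`, of size `κ j` (empty in the first case), and
`F = {ins i (a i - 1 - j) y : j < a i, y ∈ M j} ⊆ Std a d`. An element of the shadow of `F` whose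
coordinate at `i` is `a i - 1 - j` is `ins i (a i - 1 - j) z` with `z ∈ shadow (M j)` or
`z ∈ M (j + 1)`; these are initial segments of `Std a' (d' j + 1)` (T_SEGB), so nested (T_SEGA),
and there are at most `max (u j) (κ (j + 1))` such elements. T_CLT for the initial segment of size
`∑ κ j`. -/
def T_CMB : Prop := ∀ (n : ℕ) (a : Fin (n + 1) → ℕ) (i : Fin (n + 1)), Monotone a →
  (∀ i, 1 ≤ a i) → ∀ (d : ℕ) (κ u : ℕ → ℕ), κ (a i) = 0 →
  (∀ j, j < a i → (d + j + 1 < a i ∧ κ j = 0) ∨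
    ∃ d', d' + (a i - 1) = d + j ∧ Sh (fun j => a (i.succAbove j)) d' (κ j) (u j)) →
  Sh a d (∑ j ∈ Finset.range (a i), κ j) (∑ j ∈ Finset.range (a i), max (u j) (κ (j + 1)))

/-- SPM. The theorem on split forms. PROOF. Induction on `n`. If `e` is surjective then `m = n` and
`e` is the identity (`a ∘ e = a`), and the hypothesis for `d` is the claim. Otherwise let `i` be
outside the range of `e`, `n = n' + 1`; `e` factors through `i.succAboveOrderEmb`:
`e x = i.succAbove (e' x)`. `f i = ∏ L k`. `W` is killed by it: T_PRL with `k = a i` gives `U j`,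
`κ j`, `u j`. `U j` is killed by some `L x`; T_TLM for `L = L x`, `h` = the product of the other
factors. If `d + j + 1 < a i` then `U j ≤ J f`, `κ j = 0`. Otherwise `d' = d + j - (a i - 1)`, `W'`
from T_TLM, and the induction hypothesis for `F`, `a ∘ i.succAbove`, `e'`: `Sh a' d' (κ j) (u j)`
(`Sh` is monotone in the last argument). T_CMB; `Sh` is monotone in the last argument. -/
def T_SPM : Prop := ∀ (K : Type u) [Field K] (n m N : ℕ) (a : Fin n → ℕ) (e : Fin m ↪o Fin n),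
  Monotone a → (∀ i, 2 ≤ a i) → (∀ d, EA K (fun x => a (e x)) d N) →
  ∀ f : Fin n → R K n, CI f a → (∀ i, i ∉ Set.range e → Spl (a i) (f i)) → EF a f N

/-! ## B. The last degree `∑ (a_i - 1)` -/

/-- The data of T_GLF: a linear nonzerodivisor `l` modulo `J f` and the elimination `θ` of `l`. -/
structure Lin {K : Type u} [Field K] {n : ℕ} (f : Fin n → R K (n + 1)) (a : Fin n → ℕ)
    (l : R K (n + 1)) (θ : R K (n + 1) →ₐ[K] R K n) : Prop where
  lin : l ∈ Rd K (n + 1) 1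
  deg : ∀ d, ∀ p ∈ Rd K (n + 1) d, θ p ∈ Rd K n d
  sur : ∀ d, ∀ q ∈ Rd K n d, ∃ p ∈ Rd K (n + 1) d, θ p = q
  ker : ∀ p, θ p = 0 ↔ ∃ q, p = l * q
  nzd : ∀ p, l * p ∈ J f → p ∈ J f
  ci : CI (fun i => θ (f i)) a
  mem : ∀ p, θ p ∈ J (fun i => θ (f i)) ↔ ∃ q, p - l * q ∈ J f

/-- NST. There are no stable subspaces. PROOF. (1) If `p ∈ R_k`, `k < S a n`, and for every
`x ∈ R_1` there is `q` with `x p - l q ∈ J f`, then there is `q` with `p - l q ∈ J f`: `θ (x p)` is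
in `J (θ ∘ f)` for all `x`, so `X_j θ(p)` is (surjectivity of `θ` on `R_1`), T_SOC (or T_SOK) for
`θ ∘ f`, `k < S a n`. One may take `q` homogeneous of degree `k - 1` (component), `q = 0` if `k = 0`.
(2) Induction on `k`. `k = 0`: `N ≤ J f` by (1). Step: `N' = {q ∈ R_{k-1} : l q ∈ N}`; it contains
`J_{k-1}`. By (1) every `p ∈ N` is `l q + j`, `j ∈ J_k`, and `q ∈ N'`. `N'` is stable: `q ∈ N'`,
`x ∈ R_1`: `x (l q) - l p ∈ J f` with `p ∈ N`, so `x q - p ∈ J f` (nzd), `p = l q' + j`, `q' ∈ N'`.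
So `N' = J_{k-1}` by induction and `N ≤ J_k`. -/
def T_NST : Prop := ∀ (K : Type u) [Field K] (n : ℕ) (f : Fin n → R K (n + 1)) (a : Fin n → ℕ),
  CI f a → Monotone a → ∀ (l : R K (n + 1)) (θ : R K (n + 1) →ₐ[K] R K n), Lin f a l θ →
  ∀ k, k < S a n → ∀ N : Submodule K (R K (n + 1)), Jd f k ≤ N → N ≤ Rd K (n + 1) k →
  (∀ x ∈ Rd K (n + 1) 1, ∀ p ∈ N, ∃ q ∈ N, x * p - l * q ∈ J f) → N ≤ Jd f k

/-- OPA. Small growth. PROOF. `U = up f d W`, `d + 1 = S a n`. Write `≡` for congruence modulo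
`J f`; `l` is a nonzerodivisor. `lW ≤ U` and `dim (l W + J_{d+1}) / J_{d+1} = dim W / J_d` (nzd). If
`U = l W + J_{d+1}` then `W` is stable (`x w ≡ l w'`), so `W ≤ J f` by T_NST, against the
hypothesis. So `U = l W + J_{d+1} + K u0` for some `u0 ∈ U` not in `W0 := l W + J_{d+1}`
(dimensions), and there is a linear functional `θ` on `U` with kernel `W0` and `θ u0 = 1`. For
`x ∈ R_1`, `w ∈ W`: `x w ≡ l w' + θ(x w) u0` with `w' ∈ W`. (1) For `x, y ∈ R_1`, `w ∈ W`: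
`x (y w) ≡ l (x w') + θ(y w) x u0` with `x w' ∈ U`; exchange `x` and `y`:
`θ(y w) x u0 - θ(x w) y u0 ∈ l U + J`. (2) `Λ = {x ∈ R_1 : x u0 ∈ l U + J}`, a subspace which
contains `l`. For `x ∈ Λ`: `x U ≤ l U + J` (`x (l w) = l (x w)`, `x w ∈ U`). If `Λ = R_1` this is
the first alternative. (3) Let `Λ ≠ R_1`, `z ∈ R_1` not in `Λ`. There is `w1 ∈ W` with `θ(x w1) ≠ 0`
for some `x ∈ R_1` (otherwise `U ≤ W0`). If `θ(z w) = 0` then by (1) `θ(x w) z ∈ Λ`, so
`θ(x w) = 0` for all `x`. So `θ(z w1) ≠ 0`, and by (1) `θ(z w1) x - θ(x w1) z ∈ Λ` for all `x`: the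
space `R_1` is `Λ ⊕ K z`. For `x ∈ Λ`: (1) with `y = z` gives `θ(x w) z ∈ Λ`, so `θ(x w) = 0`
for all `w ∈ W`: `x W ≤ l W + J`. (4) `dim Λ = n ≥ 2` (`T_DIMR`: `dim R_1 = n + 1`). Let
`x ∈ Λ` be not a multiple of `l`. `T : w ↦ w'`, `x w ≡ l w'`, is an endomorphism of
`W / J_d ≠ 0`; let `c` be an eigenvalue, `ξ = x - c l ≠ 0`: `ξ ∈ Λ` and `ξ w ∈ J f` for some
`w ∈ W`, `w ∉ J f`. Claim: `ξ U ≤ J f` (second alternative). `E = {u ∈ U : ξ u ∈ J f}`, it
contains `l w ∉ J f`. (4a) `E` is not contained in `W0`: otherwise let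
`N = {w ∈ W : ξ w ∈ J f}`, `E = l N + J_{d+1}`. `N` is stable: for `x ∈ Λ`: `x w ≡ l w'`,
`l ξ w' ≡ x ξ w ≡ 0`, so `w' ∈ N`; for `z`: `z w ∈ U`, `ξ z w ≡ 0`, so `z w ∈ E`,
`z w ≡ l w'`, `w' ∈ N`. By T_NST `N ≤ J f`, a contradiction. (4b) So every `u ∈ U` is
`l w + e`, `w ∈ W`, `e ∈ E` (modulo `J`). Let `N = {w ∈ W : there is u ∈ U with ξ u ≡ l l w}`
(`N ≥ J_d`). For `u ∈ U`: `ξ u ≡ ξ l w ≡ l l w'` with `w ∈ W`, `ξ w ≡ l w'`, `w' ∈ W`. `N` is
stable: let `w ∈ N`, `ξ u ≡ l l w`, by the above one can take `u = l v`, `v ∈ W`,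
so `ξ v ≡ l w`; for `x ∈ R_1`: `x v ∈ U`, `ξ (x v) ≡ l (x w)`; and `ξ (x v) ≡ l l w'` with
`w' ∈ W` by the above, so `w' ∈ N` and `x w ≡ l w'`. T_NST: `N ≤ J f`. So `ξ u ≡ l l w'` with
`w' ∈ N`, `ξ u ∈ J f` for all `u ∈ U`. -/
def T_OPA : Prop := ∀ (K : Type u) [Field K] [IsAlgClosed K] (n : ℕ) (f : Fin n → R K (n + 1))
  (a : Fin n → ℕ), CI f a → Monotone a → 2 ≤ n →
  ∀ (l : R K (n + 1)) (θ : R K (n + 1) →ₐ[K] R K n), Lin f a l θ →
  ∀ d, d + 1 = S a n → ∀ W : Submodule K (R K (n + 1)), Jd f d ≤ W → W ≤ Rd K (n + 1) d →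
  ¬ W ≤ Jd f d →
  Module.finrank K (up f d W) + Module.finrank K (Jd f d) ≤
    Module.finrank K W + Module.finrank K (Jd f (d + 1)) + 1 →
  (∀ x ∈ Rd K (n + 1) 1, ∀ p ∈ up f d W, ∃ q ∈ up f d W, x * p - l * q ∈ J f) ∨
  ∃ ξ ∈ Rd K (n + 1) 1, ξ ≠ 0 ∧ ∀ p ∈ up f d W, ξ * p ∈ J f

/-- OPR. PROOF. T_GLF gives `l`, `θ` (`Lin`). `W` is not contained in `J_d`, otherwise
`F ∈ J f` and `1 ∈ J f` by the hypothesis on `F`, impossible. T_OPA. Second alternative:
`ξ F ∈ J f`, so `ξ ∈ J f`; all forms in `J f` of degree `1` are `0` (`2 ≤ a i`, T_JD). First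
alternative: `U = up f d W`, `s = d + 1`. By induction on `k`: for `h ∈ R_k`, `p ∈ U` there is
`q ∈ U` with `h p - l ^ k q ∈ J f` (products of linear forms span `R_k`). So
`F R_s + J_{2s} ≤ l ^ s U + J_{2s}`. Multiplication by `F`: `R_s / J_s → R_{2s} / J_{2s}` is
injective, so `dim R_s - dim J_s ≤ dim (l ^ s U + J_{2s}) - dim J_{2s} ≤ dim U - dim J_s`
(the kernel of multiplication by `l ^ s` on `U` is `J_s`). So `U = R_s`. -/
def T_OPR : Prop := ∀ (K : Type u) [Field K] [IsAlgClosed K] (n : ℕ) (f : Fin n → R K (n + 1))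
  (a : Fin n → ℕ), CI f a → Monotone a → (∀ i, 2 ≤ a i) → 2 ≤ n →
  ∀ d, d + 1 = S a n → ∀ F ∈ Rd K (n + 1) (d + 1), (∀ p, F * p ∈ J f → p ∈ J f) →
  ∀ W : Submodule K (R K (n + 1)), Jd f d ≤ W → W ≤ Rd K (n + 1) d → F ∈ up f d W →
  Module.finrank K (up f d W) + Module.finrank K (Jd f d) ≤
    Module.finrank K W + Module.finrank K (Jd f (d + 1)) + 1 →
  up f d W = Rd K (n + 1) (d + 1)

/-- NQS. Lex segments in the middle degree. PROOF. `α = a (last) = S a n = d + 1`,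
`S a (n+1) = 2 d + 1`, so `#Std a (d+1) = #Std a d` (T_STD). Let `M` be the initial segment of
`Std a d` of size `v` (T_SEGA). For `y ∈ Std a d`, `y ∉ M`, `y` not `d e_last`, the element
`y + e_last` is in `Std a (d+1)` (`y_last < d`, so `y_last + 1 < α`) and not in the shadow of
`M`: its divisors of degree `d` are `y` and `y + e_last - e_j`, `j < last`, which are smaller than
`y`, so not in `M`. These are at least `#Std a d - v - 1` elements. -/
def T_NQS : Prop := ∀ (n : ℕ) (a : Fin (n + 1) → ℕ), (∀ i, 2 ≤ a i) → ∀ d, d + 1 = S a n →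
  a (Fin.last n) = S a n → ∀ v, v ≤ (Std a d).card → Sh a d v (v + 1)

/-- BGE. The last degree `∑ (a_i - 1)`. PROOF. `α = a (last) = S a n`, `s = S a (n+1) = 2 α - 1`,
`f' = f ∘ castSucc`. `d + 1 < α`: T_CMG as in T_BIG (see `Pool/Agent/EGT/P_BIG.lean`). `d ≥ α`:
duality as there (`d' = s - 1 - d`, `d' + 1 < α`), T_VTW. `d + 1 = α`: `J_d f = J_d f'`,
`J_α f = J_α f' + K f_last`, and `f_last ∉ J f'`. T_CMG for `f'`, `M = α + 1` gives
`Sh (Fin.snoc (a ∘ castSucc) M) d v u'`, `v = dim W - dim J_d`, `u' = dim (up f' d W) -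
dim J_α f'`. If `f_last ∉ up f' d W` then `dim (up f d W) - dim J_α f = u'`; `Std a d` is
`Std (Fin.snoc (a ∘ castSucc) M) d`, and the shadow in `Std a` is contained in the shadow in
`Std (Fin.snoc (a ∘ castSucc) M)`. If `f_last ∈ up f' d W` then `up f d W = up f' d W`,
`dim (up f d W) - dim J_α f = u' - 1`. If `u' ≥ v + 2`: T_NQS (`v ≤ #Std a d` by `a_hf`).
Otherwise T_OPR (`F = f_last`, `f'`) gives `up f' d W = R_α`: `Sh a d v (#Std a α)` holds trivially
(T_SEGA, the shadow is contained in `Std a α`). -/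
def T_BGE : Prop := ∀ (K : Type u) [Field K] [IsAlgClosed K] (n : ℕ) (a : Fin (n + 1) → ℕ),
  Monotone a → (∀ i, 2 ≤ a i) → 2 ≤ n → a (Fin.last n) = S a n → EG K (a ∘ Fin.castSucc) → EG K a

/-! ## C. Other regular sequences in the ideal -/

/-- EXT. Completing a short regular sequence. PROOF. Induction on `n - r`, adding one element:
`r < n`. There is `l ∈ R_1` which is a nonzerodivisor modulo `J f`: otherwise by T_AVO (`V = R_1`)
there is `h ∉ J f` with `X_j h ∈ J f` for all `j`, against T_ACY for the regular sequence `X`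
(length `n`; `t_xci` or `a_lci`) and `f` (length `r`), level `0` (see
`Pool/Agent/EGT/P_GLF.lean`, part 1). `Fin.snoc f (l ^ b_r)` is a regular sequence (T_CIR). -/
def T_EXT : Prop := ∀ (K : Type u) [Field K] [Infinite K] (n r : ℕ) (hr : r ≤ n)
  (f : Fin r → R K n) (b : Fin n → ℕ), (∀ i, 1 ≤ b i) → CI f (b ∘ Fin.castLE hr) →
  ∃ g : Fin n → R K n, CI g b ∧ ∀ i, g (Fin.castLE hr i) = f i

/-- RGA. Growth modulo `r` forms, degree `d` smaller than the other degrees. PROOF. Let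
`C = d + 2 + ∑ a_i`, `b_i = a_i` for `i < r`, `b_j = C * 2 ^ j` for `j ≥ r`: `b` is monotone,
`b_j ≥ d + 2` and `S b j < b_j` for `j ≥ r`. T_EXT gives `g` with `CI g b`. For `e ≤ d + 1`:
`J_e g = J_e f` (T_JD). `EG K b`: from `EG K (a ∘ castLE hr)` by T_BIG, one degree after the other
(`b ∘ castLE`). So `GoodA b g d W`, i.e. `Sh b d v u` with the numbers of `f`. `Std b d = Std a d`
(`a_j ≥ d + 1` for `j ≥ r`) and `Std a (d+1) ⊆ Std b (d+1)`, so the shadow with respect to `a` is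
contained in the one with respect to `b`. -/
def T_RGA : Prop := ∀ (K : Type u) [Field K] [Infinite K] (n r : ℕ) (hr : r ≤ n) (d : ℕ)
  (a : Fin n → ℕ), Monotone a → (∀ i, 2 ≤ a i) → EG K (a ∘ Fin.castLE hr) →
  (∀ j : Fin n, r ≤ (j : ℕ) → d + 1 ≤ a j) →
  ∀ f : Fin r → R K n, CI f (a ∘ Fin.castLE hr) → ∀ W : Submodule K (R K n), Jd f d ≤ W →
  W ≤ Rd K n d → Sh a d (Module.finrank K W - Module.finrank K (Jd f d))
    (Module.finrank K (up f d W) - Module.finrank K (Jd f (d + 1)))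

/-- NZC. Nonzerodivisors in degree `d + 1`. PROOF. `J_j` = the ideal of the `f k`, `k < j`. As
`h ∈ J f` has degree `d + 1`, `h = r + ∑_{j ≥ r, a_j = d+1} c_j f_j` with constants `c_j` and
`r ∈ J_r` (T_JD; `a_j ≥ d + 1` for `j ≥ r`), not all `c_j = 0` as `h ∉ J_r`. Let `m` be the
largest index with `c_m ≠ 0`. `h` is a nonzerodivisor modulo `J_m` (`h ≡ c_m f_m` modulo `J_m`).
Downwards: if `h` is a nonzerodivisor modulo `J_{j+1}`, then modulo `J_j`: `h p ∈ J_j`, `p`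
homogeneous (T_JD), induction on the degree of `p`: `p ∈ J_{j+1}`, `p = r + f_j p_1`, `r ∈ J_j`,
`f_j (h p_1) ∈ J_j`, so `h p_1 ∈ J_j` (`CI.reg`), `p_1 ∈ J_j` (smaller degree). -/
def T_NZC : Prop := ∀ (K : Type u) [Field K] (n : ℕ) (f : Fin n → R K n) (a : Fin n → ℕ),
  CI f a → ∀ (r : ℕ) (hr : r ≤ n) (d : ℕ), (∀ j : Fin n, r ≤ (j : ℕ) → d + 1 ≤ a j) →
  ∀ h ∈ Rd K n (d + 1), h ∈ J f → h ∉ J (f ∘ Fin.castLE hr) →
  ∀ p, h * p ∈ J (f ∘ Fin.castLE hr) → p ∈ J (f ∘ Fin.castLE hr)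

/-- CPL. Completing inside `J f`. PROOF. As T_RSG (see `Pool/Agent/EGT/P_RSG.lean`): start with the
regular sequence `(f_0, ..., f_{r-1}, w)` (T_CIR) and add for `j = r + 1, ..., n - 1` an element
`v ∈ Jd f (a j)` which is a nonzerodivisor modulo the previous ones `G` (there are `j` of them): if
all of them are zero divisors, T_AVO gives `h ∉ J G` with `v h ∈ J G` for all `v ∈ Jd f (a j)`; for
`i ≤ j` (`a i ≤ a j`) and `q ∈ R_{a j - a i}`: `q (f_i h) ∈ J G`, hence `f_i h ∈ J G` (T_ACY for `X`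
and `G`, level `0`, iterated), and T_ACY for `f_0, ..., f_j` and `G`, level `0`, gives `h ∈ J G`. -/
def T_CPL : Prop := ∀ (K : Type u) [Field K] [Infinite K] (n : ℕ) (f : Fin n → R K n)
  (a : Fin n → ℕ), CI f a → Monotone a → ∀ (r : ℕ) (hr : r < n) (d : ℕ), 1 ≤ d →
  ∀ w ∈ Rd K n d, (∀ p, w * p ∈ J (f ∘ Fin.castLE hr.le) → p ∈ J (f ∘ Fin.castLE hr.le)) →
  ∃ g : Fin n → R K n, CI g (Function.update a ⟨r, hr⟩ d) ∧
    (∀ i : Fin n, (i : ℕ) < r → g i = f i) ∧ g ⟨r, hr⟩ = w ∧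
    ∀ j : Fin n, r < (j : ℕ) → g j ∈ J f

/-- NCL. From the exponents `b` to larger exponents `a`. PROOF. `Std b e ⊆ Std a e`. Let `M` be
the initial segment of `Std b d` for `Sh b d v u`, and `F = M ∪ (Std a d \ Std b d)`:
`#F = v + #Std a d - #Std b d`. If `x = y + e_k ∈ Std a (d+1)` with `y ∈ F`, then
`x ∈ Std a (d+1) \ Std b (d+1)`, or `x ∈ Std b (d+1)`, so `y ∈ Std b d`, `y ∈ M`,
`x ∈ shadow b d M`. So the shadow of `F` with respect to `a` has at most
`u + #Std a (d+1) - #Std b (d+1)` elements. T_CLT for `a` and the initial segment of size `#F`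
(T_SEGA). -/
def T_NCL : Prop := ∀ (n : ℕ) (a b : Fin n → ℕ), Monotone a → (∀ i, b i ≤ a i) →
  ∀ d v u, Sh b d v u → Sh a d (v + ((Std a d).card - (Std b d).card))
    (u + ((Std a (d + 1)).card - (Std b (d + 1)).card))

/-- RGB. The step to a smaller degree. PROOF. `J' = J (f ∘ castLE)` (the first `r` forms). All
`a_j ≥ d + 1` for `j ≥ r`, so `J_d f = J_d f'`. If `Jd f (d+1) ⊓ up f' d W = Jd f' (d+1)` then
`dim (up f d W) - dim J_{d+1} f = dim (up f' d W) - dim J_{d+1} f'` (`up f d W = up f' d W +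
J_{d+1} f`), and T_RGA for `f'` is the claim. Otherwise there is `h ∈ Jd f (d+1)`, `h ∈ up f' d W`,
`h ∉ J f'`. It is a nonzerodivisor modulo `J f'` (T_NZC). Some `w ∈ W` is a nonzerodivisor modulo
`J f'`: otherwise T_AVO gives `p ∉ J f'` with `w p ∈ J f'` for all `w ∈ W`, so `h p ∈ J f'`
(`h ∈ R_1 W + J f'`), a contradiction. T_CPL gives `g` with degrees `b = update a r d`. `J_d g ≤ W`:
elements of `J_d g` are combinations of `f_i`, `i < r`, and of `w` (T_JD; `b_j ≥ d + 1` for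
`j > r`). The hypothesis gives `GoodA b g d W`, and `up g d W ≤ up f d W`
(`J_{d+1} g ≤ R_1 W + J_{d+1} f`), so `Sh b d (dim W - dim J_d g) (dim (up f d W) - dim J_{d+1} g)`.
T_NCL, and `a_hf` for `f` and `g`:
`dim W - dim J_d f = (dim W - dim J_d g) + (#Std a d - #Std b d)`, the same for `d + 1`. -/
def T_RGB : Prop := ∀ (K : Type u) [Field K] [Infinite K] (n r d : ℕ) (hr : r < n)
  (a : Fin n → ℕ), Monotone a → (∀ i, 2 ≤ a i) → 1 ≤ d → a ⟨r, hr⟩ = d + 1 →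
  EG K (a ∘ Fin.castLE hr.le) → (∀ N, EA K (Function.update a ⟨r, hr⟩ d) d N) → ∀ N, EA K a d N

/-- QBB. The degrees `(2, 2, b, b)`. PROOF. Induction on `b`. `b ≤ 3`: T_KNW (`S a 4 = 2 b ≤ 6`).
Let `b ≥ 4`, `s = S a 4 = 2 b`. `d + 1 < b`: T_RGA with `r = 2` (`EG K (2, 2)`: T_KNW), the first
two forms, `J_e f = J_e f'` for `e ≤ d + 1 < b` (T_JD), and `up f d W = up f' d W`. `d + 1 = b`:
T_RGB with `r = 2`: it is enough to treat `(2, 2, b-1, b)` in degree `b - 1`. T_RGB with `r = 3`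
(`EG K (2, 2, b-1)`: T_KNW, three variables): it is enough to treat `(2, 2, b-1, b-1)` in degree
`b - 1`: induction. `d ≥ b`: duality (T_VTW, T_DUA), `d' = s - 1 - d ≤ b - 1`; `d ≥ s`: T_VTW. -/
def T_QBB : Prop := ∀ (K : Type u) [Field K] [IsAlgClosed K] (b : ℕ), 2 ≤ b →
  EG K (![2, 2, b, b] : Fin 4 → ℕ)

/-! ## D. The theorem -/

/-- Small sequences. -/
def Small {n : ℕ} (a : Fin n → ℕ) : Prop :=
  ∃ m, m ≤ n ∧ (m ≤ 3 ∨ S a m ≤ 6 ∨ (m = 4 ∧ ∀ i : Fin n, (i : ℕ) < 2 → a i = 2)) ∧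
    ∀ (j : ℕ) (h : j < n), m ≤ j → S a j ≤ a ⟨j, h⟩

/-- SML. PROOF. As T_KNW (see `Pool/Agent/EGT/P_KNW.lean`), with T_BIG and T_BGE for the last
degree, T_QBB for `(2, 2, b, b)`, and T_BIG, T_BGE for `(2, 2, b, c)`, `b < c`
(`S a 3 = b + 1 ≤ c`). -/
def T_SML : Prop := ∀ (K : Type u) [Field K] [IsAlgClosed K] (n : ℕ) (a : Fin n → ℕ), Monotone a →
  (∀ i, 2 ≤ a i) → Small a → EG K a

/-- BCX. Base change for one sequence. PROOF. As T_BCG (see `Pool/Agent/EGT/P_BCG.lean`), where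
the hypothesis is used only for the image of `f`. -/
def T_BCX : Prop := ∀ (K E : Type u) [Field K] [Field E] [Algebra K E] (n : ℕ) (a : Fin n → ℕ)
  (f : Fin n → R K n), CI f a →
  CI (fun i => MvPolynomial.map (algebraMap K E) (f i) : Fin n → R E n) a ∧
  ∀ N, EF a (fun i => MvPolynomial.map (algebraMap K E) (f i) : Fin n → R E n) N → EF a f N

/-- IDX. From the growth inequality to ideals. PROOF. As T_IDG (see `Pool/Agent/EGT/P_IDG.lean`),
where the hypothesis is used only for `f`. -/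
def T_IDX : Prop := ∀ (K : Type u) [Field K] (n N : ℕ) (a : Fin n → ℕ), Monotone a →
  (∀ i, 2 ≤ a i) → ∀ f : Fin n → R K n, CI f a → EF a f N →
  ∀ I : Ideal (R K n), (∀ i, f i ∈ I) →
  Module.finrank K (Rd K n 2) ≤ Module.finrank K ↥(Rd K n 2 ⊓ I.restrictScalars K) + N →
  ∀ d, Sh a d (vI f I d) (vI f I (d + 1))

/-- IDY. From the growth inequality to ideals, second condition. PROOF. As T_IDH (see
`Pool/Agent/EGT/P_IDH.lean`), where the hypothesis is used only for `f`. -/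
def T_IDY : Prop := ∀ (K : Type u) [Field K] (n N : ℕ) (a : Fin n → ℕ), Monotone a →
  (∀ i, 2 ≤ a i) → 2 ≤ S a n → ∀ f : Fin n → R K n, CI f a → EF a f N →
  ∀ I : Ideal (R K n), (∀ i, f i ∈ I) →
  Module.finrank K ↥(Rd K n (S a n - 2) ⊓ I.restrictScalars K) ≤
    Module.finrank K (Jd f (S a n - 2)) + N →
  ∀ d, Sh a d (vI f I d) (vI f I (d + 1))

end

end Pool.Agent.EGX
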